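import Pool.Agent.H137R3.SK.Defs

/-!
Degrees of rational functions.
-/

namespace H137SK

set_option linter.unusedSectionVars false
set_option linter.unusedVariables false

open scoped Classical Polynomial
open RatFunc

/-- `f` is nonzero of degree `d` -/
def dg (f : QA) (d : ℤ) : Prop := f ≠ 0 ∧ f.intDegree = d

/-- `f` is zero or of degree less than `d` -/
def dlt (f : QA) (d : ℤ) : Prop := f = 0 ∨ f.intDegree < d

theorem dg_mul {f g : QA} {a b : ℤ} (hf : dg f a) (hg : dg g b) : dg (f * g) (a + b) :=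
  ⟨mul_ne_zero hf.1 hg.1, by rw [intDegree_mul hf.1 hg.1, hf.2, hg.2]⟩

theorem dg_one : dg (1 : QA) 0 := ⟨one_ne_zero, intDegree_one⟩

theorem dg_inv {f : QA} {a : ℤ} (hf : dg f a) : dg f⁻¹ (-a) :=
  ⟨inv_ne_zero hf.1, by rw [intDegree_inv, hf.2]⟩

theorem dg_neg {f : QA} {a : ℤ} (hf : dg f a) : dg (-f) a :=
  ⟨neg_ne_zero.2 hf.1, by rw [intDegree_neg, hf.2]⟩

theorem dg_prod {ι : Type*} (s : Finset ι) (f : ι → QA) (a : ι → ℤ)
    (h : ∀ i ∈ s, dg (f i) (a i)) : dg (∏ i ∈ s, f i) (∑ i ∈ s, a i) := by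
  induction s using Finset.induction_on with
  | empty => simpa using dg_one
  | insert i s hi ih =>
    rw [Finset.prod_insert hi, Finset.sum_insert hi]
    exact dg_mul (h i (Finset.mem_insert_self _ _))
      (ih (fun j hj => h j (Finset.mem_insert_of_mem hj)))

theorem dg_pow {f : QA} {a : ℤ} (hf : dg f a) (k : ℕ) : dg (f ^ k) (k * a) := by
  induction k with
  | zero => simpa using dg_one
  | succ k ih =>
    rw [pow_succ]
    have := dg_mul ih hf
    convert this using 1
    push_cast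
    ring

theorem dg_zpow {f : QA} {a : ℤ} (hf : dg f a) (k : ℤ) : dg (f ^ k) (k * a) := by
  cases k with
  | ofNat k =>
    have := dg_pow hf k
    simpa using this
  | negSucc k =>
    rw [zpow_negSucc]
    have := dg_inv (dg_pow hf (k + 1))
    convert this using 1
    rw [Int.negSucc_eq]
    push_cast
    ring

theorem dlt_add {f g : QA} {d : ℤ} (hf : dlt f d) (hg : dlt g d) : dlt (f + g) d := by
  rcases hf with hf | hf
  · rw [hf, zero_add]; exact hg
  rcases hg with hg | hg
  · rw [hg, add_zero]; exact Or.inr hf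
  by_cases h0 : f + g = 0
  · exact Or.inl h0
  by_cases hg0 : g = 0
  · rw [hg0, add_zero]; exact Or.inr hf
  · right
    have := intDegree_add_le hg0 h0
    exact this.trans_lt (max_lt hf hg)

theorem dlt_neg {f : QA} {d : ℤ} (hf : dlt f d) : dlt (-f) d := by
  rcases hf with hf | hf
  · left; rw [hf, neg_zero]
  · right; rwa [intDegree_neg]

theorem dlt_sum {ι : Type*} (s : Finset ι) (f : ι → QA) (d : ℤ)
    (h : ∀ i ∈ s, dlt (f i) d) : dlt (∑ i ∈ s, f i) d := by
  induction s using Finset.induction_on with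
  | empty => left; simp
  | insert i s hi ih =>
    rw [Finset.sum_insert hi]
    exact dlt_add (h i (Finset.mem_insert_self _ _))
      (ih (fun j hj => h j (Finset.mem_insert_of_mem hj)))

theorem dg_not_dlt {f : QA} {d : ℤ} (hf : dg f d) : ¬ dlt f d := by
  rintro (h | h)
  · exact hf.1 h
  · rw [hf.2] at h; exact lt_irrefl _ h

theorem dg_add_dlt {f g : QA} {d : ℤ} (hf : dg f d) (hg : dlt g d) : dg (f + g) d := by
  have hn : ¬ dlt (f + g) d := by
    intro h
    apply dg_not_dlt hf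
    have h2 := dlt_add h (dlt_neg hg)
    rwa [add_neg_cancel_right] at h2
  have hne : f + g ≠ 0 := fun h => hn (Or.inl h)
  refine ⟨hne, ?_⟩
  have hge : d ≤ (f + g).intDegree := by
    by_contra h
    exact hn (Or.inr (not_le.1 h))
  apply le_antisymm _ hge
  rcases hg with hg | hg
  · rw [hg, add_zero, hf.2]
  · by_cases hg0 : g = 0
    · rw [hg0, add_zero, hf.2]
    · refine (intDegree_add_le hg0 hne).trans ?_
      rw [hf.2]
      exact max_le le_rfl hg.le

theorem dg_sum {ι : Type*} [DecidableEq ι] (s : Finset ι) (f : ι → QA) (d : ℤ) (i : ι) (hi : i ∈ s)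
    (hfi : dg (f i) d) (h : ∀ j ∈ s, j ≠ i → dlt (f j) d) : dg (∑ i ∈ s, f i) d := by
  rw [← Finset.add_sum_erase s f hi]
  apply dg_add_dlt hfi
  apply dlt_sum
  intro j hj
  exact h j (Finset.mem_of_mem_erase hj) (Finset.ne_of_mem_erase hj)

theorem dg_vA : dg vA 1 := ⟨RatFunc.X_ne_zero, intDegree_X⟩

theorem vA_ne : vA ≠ 0 := RatFunc.X_ne_zero

theorem dg_vA_zpow (k : ℤ) : dg (vA ^ k) k := by
  have := dg_zpow dg_vA k
  rwa [mul_one] at this

theorem dlt_of_dg {f : QA} {a d : ℤ} (hf : dg f a) (h : a < d) : dlt f d :=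
  Or.inr (by rw [hf.2]; exact h)

theorem dg_dl : dg dl 2 := by
  have h1 : dg (-vA ^ 2) 2 := by
    have := dg_neg (dg_pow dg_vA 2)
    simpa using this
  have h2 : dlt (-(vA⁻¹) ^ 2) 2 := by
    have := dg_neg (dg_pow (dg_inv dg_vA) 2)
    exact dlt_of_dg this (by norm_num)
  have := dg_add_dlt h1 h2
  unfold dl
  rw [sub_eq_add_neg]
  exact this

theorem dg_Del (k : ℕ) : dg (Del k) (2 * k) := by
  have h : dg (Del k) (2 * k) ∧ dg (Del (k + 1)) (2 * (k + 1 : ℕ)) := by
    induction k with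
    | zero => exact ⟨by simpa [Del] using dg_one, by simpa [Del] using dg_dl⟩
    | succ k ih =>
      refine ⟨ih.2, ?_⟩
      have h1 : dg (dl * Del (k + 1)) (2 * (k + 1 + 1 : ℕ)) := by
        have := dg_mul dg_dl ih.2
        convert this using 1
        push_cast
        ring
      have h2 : dlt (-Del k) (2 * (k + 1 + 1 : ℕ)) := by
        apply dlt_neg
        apply dlt_of_dg ih.1
        push_cast
        linarith
      have := dg_add_dlt h1 h2
      rw [← sub_eq_add_neg] at this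
      exact this
  exact h.1

theorem Del_ne (k : ℕ) : Del k ≠ 0 := (dg_Del k).1

/-- evaluation at `A⁻¹` of a polynomial -/
noncomputable def evInv : ℚ[X] →+* QA := (Polynomial.aeval (R := ℚ) (vA⁻¹)).toRingHom

theorem aeval_vA (p : ℚ[X]) : Polynomial.aeval (R := ℚ) vA p = algebraMap ℚ[X] QA p := by
  have h : vA = algebraMap ℚ[X] QA Polynomial.X := by
    rw [RatFunc.algebraMap_X]; rfl
  rw [h, Polynomial.aeval_algebraMap_apply, Polynomial.aeval_X_left_apply]

theorem evInv_eq (p : ℚ[X]) :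
    evInv p = algebraMap ℚ[X] QA p.reverse * (vA⁻¹) ^ p.natDegree := by
  let _ : Invertible (vA⁻¹) := invertibleOfNonzero (inv_ne_zero vA_ne)
  have h := Polynomial.eval₂_reverse_mul_pow (algebraMap ℚ QA) (vA⁻¹) p
  have h1 : ⅟(vA⁻¹) = vA := by rw [invOf_eq_inv, inv_inv]
  rw [h1] at h
  have h2 := aeval_vA p.reverse
  rw [Polynomial.aeval_def] at h2
  rw [h2] at h
  rw [h]
  rfl

theorem evInv_ne {p : ℚ[X]} (hp : p ≠ 0) : evInv p ≠ 0 := by
  rw [evInv_eq]
  apply mul_ne_zero
  · rw [Ne, FaithfulSMul.algebraMap_eq_zero_iff, Polynomial.reverse_eq_zero]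
    exact hp
  · exact pow_ne_zero _ (inv_ne_zero vA_ne)

theorem intDegree_evInv {p : ℚ[X]} (hp : p ≠ 0) :
    (evInv p).intDegree = -(p.natTrailingDegree : ℤ) := by
  have h0 : p.reverse ≠ 0 := by rwa [Ne, Polynomial.reverse_eq_zero]
  have h1 : dg (algebraMap ℚ[X] QA p.reverse) (p.reverse.natDegree) := by
    refine ⟨?_, intDegree_polynomial⟩
    rwa [Ne, FaithfulSMul.algebraMap_eq_zero_iff]
  have h2 := dg_mul h1 (dg_pow (dg_inv dg_vA) p.natDegree)
  rw [evInv_eq, h2.2, Polynomial.reverse_natDegree,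
    Nat.cast_sub (Polynomial.natTrailingDegree_le_natDegree p)]
  ring

theorem evInv_le : nonZeroDivisors ℚ[X] ≤ (nonZeroDivisors QA).comap evInv := by
  intro p hp
  rw [Submonoid.mem_comap]
  exact mem_nonZeroDivisors_of_ne_zero (evInv_ne (nonZeroDivisors.ne_zero hp))

/-- the automorphism `A ↦ A⁻¹` -/
noncomputable def sg : QA →+* QA := RatFunc.liftRingHom evInv evInv_le

theorem sg_algebraMap (p : ℚ[X]) : sg (algebraMap ℚ[X] QA p) = evInv p :=
  RatFunc.liftRingHom_algebraMap _ _ _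

theorem sg_vA : sg vA = vA⁻¹ := by
  have h : vA = algebraMap ℚ[X] QA Polynomial.X := by
    rw [RatFunc.algebraMap_X]; rfl
  conv_lhs => rw [h]
  rw [sg_algebraMap]
  exact Polynomial.aeval_X _

theorem sg_dl : sg dl = dl := by
  unfold dl
  rw [map_sub, map_neg, map_pow, map_pow, map_inv₀, sg_vA, inv_inv]
  ring

theorem sg_Del (k : ℕ) : sg (Del k) = Del k := by
  have h : sg (Del k) = Del k ∧ sg (Del (k + 1)) = Del (k + 1) := by
    induction k with
    | zero => exact ⟨by simp [Del], by simpa [Del] using sg_dl⟩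
    | succ k ih =>
      refine ⟨ih.2, ?_⟩
      change sg (dl * Del (k + 1) - Del k) = dl * Del (k + 1) - Del k
      rw [map_sub, map_mul, sg_dl, ih.1, ih.2]
  exact h.1

/-- the breadth in terms of degrees -/
theorem breadth_eq {f : QA} (hf : f ≠ 0) : breadth f = f.intDegree + (sg f).intDegree := by
  have h1 : sg f = evInv f.num / evInv f.denom := by
    conv_lhs => rw [← RatFunc.num_div_denom f]
    rw [map_div₀, sg_algebraMap, sg_algebraMap]
  have hn : f.num ≠ 0 := RatFunc.num_ne_zero hf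
  have hd : f.denom ≠ 0 := RatFunc.denom_ne_zero f
  rw [h1, intDegree_div (evInv_ne hn) (evInv_ne hd), intDegree_evInv hn, intDegree_evInv hd]
  unfold breadth polyBreadth RatFunc.intDegree
  ring

/-- The factor coming from a crossing between two external corners. -/
theorem kfactor : vA⁻¹ + vA * (Del 1)⁻¹ = (-(vA⁻¹) ^ 4) * (vA * (Del 1)⁻¹) := by
  have h1 : Del 1 ≠ 0 := Del_ne 1
  have h2 : vA ≠ 0 := vA_ne
  have h3 : Del 1 = -vA ^ 2 - (vA⁻¹) ^ 2 := rfl
  have h4 : vA⁻¹ + vA * (Del 1)⁻¹ = (vA⁻¹ * Del 1 + vA) * (Del 1)⁻¹ := by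
    rw [add_mul, mul_assoc, mul_inv_cancel₀ h1, mul_one]
  rw [h4, ← mul_assoc]
  congr 1
  rw [h3]
  field_simp
  ring

end H137SK
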