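import Mathlib

/-!
Cycles of permutations, sums over the classes of an equivalence relation, and the weighted
Euler inequality for a permutation multiplied by disjoint transpositions.
-/

namespace H137SK

open Equiv Equiv.Perm
open scoped Classical

/-- The equivalence relation of lying on the same cycle of `ρ`. -/
def cyc {α : Type*} (ρ : Perm α) : Setoid α := SameCycle.setoid ρ

theorem cyc_iff {α : Type*} (ρ : Perm α) (x y : α) : (cyc ρ) x y ↔ SameCycle ρ x y := Iff.rfl

theorem cyc_le {α : Type*} [Finite α] (ρ : Perm α) (r : Setoid α) (h : ∀ x, r x (ρ x)) :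
    cyc ρ ≤ r := by
  intro x y hxy
  obtain ⟨n, hn⟩ := (SameCycle.exists_nat_pow_eq (f := ρ) hxy)
  subst hn
  induction n with
  | zero => exact r.refl x
  | succ k ih =>
    have h1 : r x ((ρ ^ k) x) := by
      apply ih
      exact ⟨k, by simp⟩
    rw [pow_succ', Perm.mul_apply]
    exact r.trans h1 (h _)

theorem cyc_self {α : Type*} (ρ : Perm α) (x : α) : (cyc ρ) x (ρ x) := ⟨1, by simp⟩

/-- Sum of `f` over the classes of `r`. -/
noncomputable def Z {α : Type*} [Fintype α] (r : Setoid α) (f : α → ℤ) : ℤ :=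
  ∑ q : Quotient r, f q.out

theorem out_rel {α : Type*} (r : Setoid α) (x : α) : r (Quotient.mk r x).out x :=
  Quotient.exact (Quotient.out_eq _)

theorem Z_mono_fun {α : Type*} [Fintype α] (r : Setoid α) (f g : α → ℤ) (h : ∀ x, f x ≤ g x) :
    Z r f ≤ Z r g := Finset.sum_le_sum (fun _ _ => h _)

theorem Z_add {α : Type*} [Fintype α] (r : Setoid α) (f g : α → ℤ) :
    Z r (fun x => f x + g x) = Z r f + Z r g := Finset.sum_add_distrib

theorem Z_sub {α : Type*} [Fintype α] (r : Setoid α) (f g : α → ℤ) :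
    Z r (fun x => f x - g x) = Z r f - Z r g := Finset.sum_sub_distrib _ _

theorem Z_mul {α : Type*} [Fintype α] (r : Setoid α) (a : ℤ) (f : α → ℤ) :
    Z r (fun x => a * f x) = a * Z r f := by
  simp [Z, Finset.mul_sum]

theorem Z_nonneg {α : Type*} [Fintype α] (r : Setoid α) (f : α → ℤ) (h : ∀ x, 0 ≤ f x) :
    0 ≤ Z r f := Finset.sum_nonneg (fun _ _ => h _)

/-- the relation obtained from `r` by merging the classes of `a` and `b` -/
def IsMerge {α : Type*} (r r' : Setoid α) (a b : α) : Prop :=
  ∀ x y, r' x y ↔ (r x y ∨ (r x a ∧ r b y) ∨ (r x b ∧ r a y))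

theorem Z_merge {α : Type*} [Fintype α] {r r' : Setoid α} {a b : α} (hm : IsMerge r r' a b)
    (hab : ¬ r a b) (f : α → ℤ) (hf : ∀ x y, r' x y → f x = f y) :
    Z r' f + f a = Z r f := by
  have hrr : ∀ x y, r x y → r' x y := fun x y h => (hm x y).2 (Or.inl h)
  have h1 : Z r f = ∑ q ∈ Finset.univ.erase (Quotient.mk r b), f q.out + f b := by
    rw [Z, ← Finset.sum_erase_add _ _ (Finset.mem_univ (Quotient.mk r b))]
    congr 1
    exact hf _ _ (hrr _ _ (out_rel r b))
  have hfab : f a = f b := hf _ _ ((hm a b).2 (Or.inr (Or.inl ⟨r.refl a, r.refl b⟩)))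
  rw [h1, hfab]
  congr 1
  symm
  apply Finset.sum_nbij (fun q => Quotient.map' (s₁ := r) (s₂ := r') id (fun x y h => hrr x y h) q)
  · intro q _; exact Finset.mem_univ _
  · intro q1 h1 q2 h2 h12
    induction q1 using Quotient.inductionOn with
    | _ x =>
    induction q2 using Quotient.inductionOn with
    | _ y =>
    have h3 : r' x y := Quotient.exact h12
    have hx : ¬ r x b := by
      intro h
      have := Finset.ne_of_mem_erase (Finset.mem_coe.1 h1)
      exact this (Quotient.sound h)
    have hy : ¬ r y b := by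
      intro h
      have := Finset.ne_of_mem_erase (Finset.mem_coe.1 h2)
      exact this (Quotient.sound h)
    rcases (hm x y).1 h3 with h | ⟨_, h⟩ | ⟨h, _⟩
    · exact Quotient.sound h
    · exact absurd (r.symm h) hy
    · exact absurd h hx
  · intro q' _
    induction q' using Quotient.inductionOn with
    | _ x =>
    by_cases hxb : r x b
    · refine ⟨Quotient.mk r a, ?_, ?_⟩
      · refine Finset.mem_coe.2 (Finset.mem_erase.2 ⟨?_, Finset.mem_univ _⟩)
        intro h
        exact hab (Quotient.exact h)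
      · exact Quotient.sound (s := r') ((hm a x).2 (Or.inr (Or.inl ⟨r.refl a, r.symm hxb⟩)))
    · refine ⟨Quotient.mk r x, ?_, ?_⟩
      · refine Finset.mem_coe.2 (Finset.mem_erase.2 ⟨?_, Finset.mem_univ _⟩)
        intro h
        exact hxb (Quotient.exact h)
      · rfl
  · intro q _
    induction q using Quotient.inductionOn with
    | _ x =>
    apply hf
    exact r'.trans (hrr _ _ (out_rel r x)) (r'.symm (out_rel r' x))

theorem Z_mono {α : Type*} [Fintype α] {r r' : Setoid α} (hrr : r ≤ r')
    (f : α → ℤ) (hf : ∀ x y, r' x y → f x = f y) (h0 : ∀ x, 0 ≤ f x) :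
    Z r' f ≤ Z r f := by
  let g : Quotient r → Quotient r' := fun q => Quotient.map' (s₁ := r) (s₂ := r') id
    (fun x y h => hrr h) q
  have hinj : Function.Injective (fun q' : Quotient r' => Quotient.mk r q'.out) := by
    intro q1 q2 h
    have h1 : r q1.out q2.out := Quotient.exact h
    have h2 : r' q1.out q2.out := hrr h1
    have h3 := Quotient.sound h2
    rwa [Quotient.out_eq, Quotient.out_eq] at h3
  calc Z r' f = ∑ q' : Quotient r', f (Quotient.mk r q'.out).out := by
        apply Finset.sum_congr rfl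
        intro q' _
        apply hf
        exact hrr (r.symm (out_rel r _))
    _ = ∑ q ∈ Finset.univ.image (fun q' : Quotient r' => Quotient.mk r q'.out), f q.out := by
        rw [Finset.sum_image]
        intro x _ y _ h
        exact hinj h
    _ ≤ Z r f := Finset.sum_le_sum_of_subset_of_nonneg (Finset.subset_univ _)
        (fun q _ _ => h0 _)

/-- The merged relation. -/
def mergeS {α : Type*} (r : Setoid α) (a b : α) : Setoid α where
  r x y := r x y ∨ (r x a ∧ r b y) ∨ (r x b ∧ r a y)
  iseqv := by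
    constructor
    · intro x; exact Or.inl (r.refl x)
    · intro x y h
      rcases h with h | ⟨h1, h2⟩ | ⟨h1, h2⟩
      · exact Or.inl (r.symm h)
      · exact Or.inr (Or.inr ⟨r.symm h2, r.symm h1⟩)
      · exact Or.inr (Or.inl ⟨r.symm h2, r.symm h1⟩)
    · intro x y z h h'
      rcases h with h | ⟨h1, h2⟩ | ⟨h1, h2⟩ <;> rcases h' with h' | ⟨h1', h2'⟩ | ⟨h1', h2'⟩
      · exact Or.inl (r.trans h h')
      · exact Or.inr (Or.inl ⟨r.trans h h1', h2'⟩)
      · exact Or.inr (Or.inr ⟨r.trans h h1', h2'⟩)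
      · exact Or.inr (Or.inl ⟨h1, r.trans h2 h'⟩)
      · exact Or.inr (Or.inl ⟨h1, h2'⟩)
      · exact Or.inl (r.trans h1 h2')
      · exact Or.inr (Or.inr ⟨h1, r.trans h2 h'⟩)
      · exact Or.inl (r.trans h1 h2')
      · exact Or.inr (Or.inr ⟨h1, h2'⟩)

theorem mergeS_isMerge {α : Type*} (r : Setoid α) (a b : α) : IsMerge r (mergeS r a b) a b :=
  fun _ _ => Iff.rfl

theorem le_mergeS {α : Type*} (r : Setoid α) (a b : α) : r ≤ mergeS r a b :=
  fun _ _ h => Or.inl h

theorem mergeS_ab {α : Type*} (r : Setoid α) (a b : α) : (mergeS r a b) a b :=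
  Or.inr (Or.inl ⟨r.refl a, r.refl b⟩)

theorem mergeS_le {α : Type*} {r r' : Setoid α} {a b : α} (h : r ≤ r') (hab : r' a b) :
    mergeS r a b ≤ r' := by
  intro x y hxy
  rcases hxy with h1 | ⟨h1, h2⟩ | ⟨h1, h2⟩
  · exact h h1
  · exact r'.trans (h h1) (r'.trans hab (h h2))
  · exact r'.trans (h h1) (r'.trans (r'.symm hab) (h h2))

/-- strict version of monotonicity -/
theorem Z_mono_strict {α : Type*} [Fintype α] {r r' : Setoid α} (hrr : r ≤ r') {a b : α}
    (hab : ¬ r a b) (hab' : r' a b)
    (f : α → ℤ) (hf : ∀ x y, r' x y → f x = f y) (h0 : ∀ x, 0 ≤ f x) :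
    Z r' f + f a ≤ Z r f := by
  have hle := mergeS_le hrr hab'
  rw [← Z_merge (mergeS_isMerge r a b) hab f (fun x y h => hf x y (hle h))]
  have := Z_mono hle f hf h0
  linarith

/-- merging two cycles: the two points end up in the same cycle -/
theorem sameCycle_swap_mul {α : Type*} [Finite α] [DecidableEq α] (ρ : Perm α) {a b : α}
    (h : ¬ SameCycle ρ a b) : SameCycle (swap a b * ρ) a b := by
  -- minimal positive return time
  have hex : ∃ k : ℕ, (ρ ^ (k + 1)) a = a := by
    refine ⟨orderOf ρ - 1, ?_⟩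
    have h1 : 0 < orderOf ρ := orderOf_pos ρ
    rw [Nat.sub_add_cancel h1, pow_orderOf_eq_one]
    rfl
  have hk := Nat.find_spec hex
  have hmin := fun i (hi : i < Nat.find hex) => Nat.find_min hex hi
  set k := Nat.find hex with hkdef
  have hb : ∀ i : ℕ, (ρ ^ i) a ≠ b := fun i hi => h ⟨i, by simpa using hi⟩
  have hstep : ∀ i : ℕ, i ≤ k → ((swap a b * ρ) ^ i) a = (ρ ^ i) a := by
    intro i
    induction i with
    | zero => intro _; rfl
    | succ j ih =>
      intro hj
      rw [pow_succ', Perm.mul_apply, ih (by omega), Perm.mul_apply, ← Perm.mul_apply ρ,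
        ← pow_succ']
      apply swap_apply_of_ne_of_ne
      · exact hmin j (by omega)
      · exact hb _
  refine ⟨((k + 1 : ℕ) : ℤ), ?_⟩
  rw [zpow_natCast, pow_succ', Perm.mul_apply, hstep k le_rfl, Perm.mul_apply,
    ← Perm.mul_apply ρ, ← pow_succ', hk, swap_apply_left]

/-- splitting a cycle: the two points end up in different cycles -/
theorem not_sameCycle_swap_mul {α : Type*} [Finite α] [DecidableEq α] (ρ : Perm α) {a b : α} (hab : a ≠ b)
    (h : SameCycle ρ a b) : ¬ SameCycle (swap a b * ρ) a b := by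
  have hex : ∃ j : ℕ, (ρ ^ j) a = b := h.exists_nat_pow_eq
  have hj := Nat.find_spec hex
  have hmin := fun i (hi : i < Nat.find hex) => Nat.find_min hex hi
  set j := Nat.find hex with hjdef
  have hj0 : 0 < j := by
    rcases Nat.eq_zero_or_pos j with h0 | h0
    · rw [h0] at hj
      exact absurd hj hab
    · exact h0
  have ha : ∀ i, 0 < i → i < j → (ρ ^ i) a ≠ a := by
    intro i hi0 hij hia
    apply hmin (j - i) (by omega)
    have : ρ ^ j = ρ ^ (j - i) * ρ ^ i := by rw [← pow_add]; congr 1; omega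
    rw [this, Perm.mul_apply, hia] at hj
    exact hj
  intro hs
  have hclosed : ∀ m : ℕ, ∃ i, i < j ∧ ((swap a b * ρ) ^ m) a = (ρ ^ i) a := by
    intro m
    induction m with
    | zero => exact ⟨0, hj0, rfl⟩
    | succ m ih =>
      obtain ⟨i, hij, hi⟩ := ih
      rw [pow_succ', Perm.mul_apply, hi, Perm.mul_apply, ← Perm.mul_apply ρ, ← pow_succ']
      by_cases h1 : i + 1 < j
      · exact ⟨i + 1, h1, swap_apply_of_ne_of_ne (ha _ (by omega) h1) (hmin _ h1)⟩
      · have h2 : i + 1 = j := by omega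
        refine ⟨0, hj0, ?_⟩
        rw [h2, hj, swap_apply_right]
        rfl
  obtain ⟨m, hm⟩ := hs.exists_nat_pow_eq
  obtain ⟨i, hij, hi⟩ := hclosed m
  rw [hm] at hi
  exact hmin i hij hi.symm

theorem swap_swap_mul {α : Type*} [DecidableEq α] (ρ : Perm α) (a b : α) :
    swap a b * (swap a b * ρ) = ρ := by
  rw [← mul_assoc, swap_mul_self, one_mul]

/-- the cycles after merging -/
theorem cyc_swap_isMerge {α : Type*} [Finite α] [DecidableEq α] (ρ : Perm α) {a b : α}
    (h : ¬ SameCycle ρ a b) : IsMerge (cyc ρ) (cyc (swap a b * ρ)) a b := by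
  have hab : (cyc (swap a b * ρ)) a b := sameCycle_swap_mul ρ h
  intro x y
  constructor
  · intro hxy
    have : cyc (swap a b * ρ) ≤ mergeS (cyc ρ) a b := by
      apply cyc_le
      intro z
      rw [Perm.mul_apply]
      have h1 : (mergeS (cyc ρ) a b) z (ρ z) := Or.inl (cyc_self ρ z)
      rcases eq_or_ne (ρ z) a with h2 | h2
      · rw [h2, swap_apply_left]
        rw [h2] at h1
        exact Setoid.trans' _ h1 (mergeS_ab _ _ _)
      · rcases eq_or_ne (ρ z) b with h3 | h3
        · rw [h3, swap_apply_right]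
          rw [h3] at h1
          exact Setoid.trans' _ h1 (Setoid.symm' _ (mergeS_ab _ _ _))
        · rw [swap_apply_of_ne_of_ne h2 h3]
          exact h1
    exact this hxy
  · have hle : cyc ρ ≤ cyc (swap a b * ρ) := by
      apply cyc_le
      intro z
      have h1 : (cyc (swap a b * ρ)) z ((swap a b * ρ) z) := cyc_self _ z
      rw [Perm.mul_apply] at h1
      rcases eq_or_ne (ρ z) a with h2 | h2
      · rw [h2, swap_apply_left] at h1
        rw [h2]
        exact Setoid.trans' _ h1 (Setoid.symm' _ hab)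
      · rcases eq_or_ne (ρ z) b with h3 | h3
        · rw [h3, swap_apply_right] at h1
          rw [h3]
          exact Setoid.trans' _ h1 hab
        · rwa [swap_apply_of_ne_of_ne h2 h3] at h1
    exact fun h => mergeS_le hle hab h

/-- merging two cycles -/
theorem Z_swap_of_not {α : Type*} [Fintype α] [DecidableEq α] (ρ : Perm α) {a b : α}
    (h : ¬ SameCycle ρ a b) (f : α → ℤ) (hf : ∀ x, f (ρ x) = f x) (hab : f a = f b) :
    Z (cyc (swap a b * ρ)) f + f a = Z (cyc ρ) f := by
  apply Z_merge (cyc_swap_isMerge ρ h) h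
  have hle : cyc (swap a b * ρ) ≤ Setoid.ker f := by
    apply cyc_le
    intro z
    change f z = f ((swap a b * ρ) z)
    rw [Perm.mul_apply, ← hf z]
    rcases eq_or_ne (ρ z) a with h2 | h2
    · rw [h2, swap_apply_left, hab]
    · rcases eq_or_ne (ρ z) b with h3 | h3
      · rw [h3, swap_apply_right, hab]
      · rw [swap_apply_of_ne_of_ne h2 h3]
  intro x y hxy
  exact hle hxy

/-- splitting a cycle -/
theorem Z_swap_of_same {α : Type*} [Fintype α] [DecidableEq α] (ρ : Perm α) {a b : α} (hne : a ≠ b)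
    (h : SameCycle ρ a b) (f : α → ℤ) (hf : ∀ x, f (ρ x) = f x) (hab : f a = f b) :
    Z (cyc (swap a b * ρ)) f = Z (cyc ρ) f + f a := by
  have h1 := not_sameCycle_swap_mul ρ hne h
  have hf' : ∀ x, f ((swap a b * ρ) x) = f x := by
    intro z
    rw [Perm.mul_apply, ← hf z]
    rcases eq_or_ne (ρ z) a with h2 | h2
    · rw [h2, swap_apply_left, hab]
    · rcases eq_or_ne (ρ z) b with h3 | h3
      · rw [h3, swap_apply_right, hab]
      · rw [swap_apply_of_ne_of_ne h2 h3]
  have := Z_swap_of_not (swap a b * ρ) h1 f hf' hab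
  rw [swap_swap_mul] at this
  exact this.symm

end H137SK
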