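import Mathlib

/-!
# Link diagrams in a disk with `g` holes and their Kauffman bracket in `#_g (S¹ × S²)`

A connected link diagram with `n` crossings in the disk with `g` holes `Σ_g` is described
combinatorially by a planar 4-valent map: the sphere, together with `g + 1` holes (the outer
boundary component of `Σ_g` and its `g` inner boundary components), each of which is located in a
face of the map.
-/

namespace H137SK

open Equiv Equiv.Perm

/-- The half-edges of a diagram with `n` crossings.  The half-edges at the crossing `c` are
`(c, 0), (c, 1), (c, 2), (c, 3)`, in counterclockwise order.  The strand through `(c, 0)` and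
`(c, 2)` is the under-strand, the strand through `(c, 1)` and `(c, 3)` is the over-strand. -/
abbrev HE (n : ℕ) := Fin n × ZMod 4

/-- The next half-edge at the same crossing, counterclockwise. -/
def rot {n : ℕ} : Perm (HE n) where
  toFun h := (h.1, h.2 + 1)
  invFun h := (h.1, h.2 - 1)
  left_inv h := by simp
  right_inv h := by simp

/-- Is the half-edge on the over-strand? -/
def isOver {n : ℕ} (h : HE n) : Prop := h.2 = 1 ∨ h.2 = 3

/-- A link diagram with `n` crossings (none of whose components is a circle without crossings) on
a closed oriented surface, together with `g + 1` holes located in its regions.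
`glue` exchanges the two half-edges of every edge. -/
structure Diagram (g n : ℕ) where
  glue : Perm (HE n)
  glue_glue : ∀ h, glue (glue h) = h
  glue_ne : ∀ h, glue h ≠ h
  /-- the regions are the orbits of the permutation `rot⁻¹ * glue`, which sends a half-edge `h`,
  oriented away from its crossing, to the next half-edge on the boundary of the region to the left
  of `h` -/
  hole : Fin (g + 1) → Quotient (SameCycle.setoid (rot⁻¹ * glue : Perm (HE n)))

namespace Diagram

variable {g n : ℕ} (D : Diagram g n)

/-- the permutation whose orbits are the regions -/
def facePerm : Perm (HE n) := rot⁻¹ * D.glue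

/-- The regions of the diagram in the sphere. -/
abbrev Face := Quotient (SameCycle.setoid D.facePerm)

/-- The region to the left of the half-edge `h` (oriented away from its crossing), that is the
region containing the corner between `h` and `rot h`. The corners at the crossing `c` are therefore
`(c, 0), (c, 1), (c, 2), (c, 3)`. -/
def face (h : HE n) : D.Face := Quotient.mk _ h

/-- The diagram is connected. -/
def Connected : Prop :=
  ∀ A : Set (HE n), A.Nonempty → (∀ h ∈ A, D.glue h ∈ A) → (∀ h ∈ A, rot h ∈ A) → A = Set.univ

/-- The diagram is planar (for a connected diagram: Euler's formula, with `n` vertices and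
`2 * n` edges). -/
def Planar : Prop := Nat.card D.Face = n + 2

/-- Over- and under-passes alternate: every edge has one end on an over-strand and one end on an
under-strand. -/
def Alternating : Prop := ∀ h, (isOver (D.glue h) ↔ ¬ isOver h)

/-- A region is external if it meets the boundary of `Σ_g`. -/
def External (f : D.Face) : Prop := ∃ i, D.hole i = f

/-- No two holes lie in the same region: for a connected diagram this means that the diagram is not
contained in a disk with fewer holes. -/
def NotInFewerHoles : Prop := Function.Injective D.hole

/-- The crossing `x` is excluded: there is an embedded disk in `Σ_g` whose boundary meets the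
diagram only at `x`. Here `A` is the set of half-edges in the interior of the disk. It contains
exactly two (adjacent) half-edges at `x`, with every other crossing it contains all or none of its
half-edges, and none of the external regions is contained in the disk, i.e. each of them has a
corner (between `h` and `rot h`) not all of whose half-edges are in `A`. -/
def Excluded (x : Fin n) : Prop :=
  ∃ A : Set (HE n), (∀ h ∈ A, D.glue h ∈ A) ∧ (∀ h ∈ A, h.1 ≠ x → rot h ∈ A) ∧
    (∃ i, (x, i) ∈ A ∧ (x, i + 1) ∈ A ∧ (x, i + 2) ∉ A ∧ (x, i + 3) ∉ A) ∧
    ∀ f, D.External f → ∃ h, D.face h = f ∧ (h ∉ A ∨ rot h ∉ A)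

/-- The link is `ℤ/2`-homologically trivial: the regions can be coloured with two colours such that
adjacent regions (the ones on the two sides of the edge of `h`) have different colours and all
external regions have the same colour. -/
def Z2Trivial : Prop :=
  ∃ κ : D.Face → Bool, (∀ h, κ (D.face h) ≠ κ (D.face (rot⁻¹ h))) ∧
    ∀ f f', D.External f → D.External f' → κ f = κ f'

/-- `k(D)`: the number of crossings adjacent to two distinct external regions. -/
noncomputable def k : ℕ := Nat.card {c : Fin n // ∃ i j : ZMod 4,
  D.External (D.face (c, i)) ∧ D.External (D.face (c, j)) ∧ D.face (c, i) ≠ D.face (c, j)}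

/-- The number of crossings at which one external region occupies two opposite corners. -/
noncomputable def kOpp : ℕ := Nat.card {c : Fin n // ∃ i : ZMod 4,
  D.External (D.face (c, i)) ∧ D.face (c, i) = D.face (c, i + 2)}

/-- One of the two corners at `c` which are joined by the smoothing `s` of `c` (`true`: the
`A`-smoothing, which joins the corners `(c, 1)` and `(c, 3)`, swept out by the over-strand when it
is rotated counterclockwise; `false`: the `B`-smoothing, which joins `(c, 0)` and `(c, 2)`). -/
def joined (s : Bool) : ZMod 4 := if s then 1 else 0

/-- Admissible colourings of the state `s`: the regions of the state are coloured by natural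
numbers, with colour `0` on the external ones, and with colours which differ by one on the two
sides of each edge. A region of the state is a union of regions of the diagram, joined by bands at
the crossings. -/
def Col (s : Fin n → Bool) : Set (D.Face → ℕ) :=
  {ξ | (∀ f, D.External f → ξ f = 0) ∧
    (∀ h, ξ (D.face h) = ξ (D.face (rot⁻¹ h)) + 1 ∨ ξ (D.face (rot⁻¹ h)) = ξ (D.face h) + 1) ∧
    ∀ c, ξ (D.face (c, joined (s c))) = ξ (D.face (c, joined (s c) + 2))}

end Diagram

open scoped Polynomial

/-- the field `ℚ(A)` -/
abbrev QA := RatFunc ℚ

/-- the variable `A` -/
noncomputable def vA : QA := RatFunc.X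

/-- the value `-A² - A⁻²` of the trivial circle -/
noncomputable def dl : QA := -vA ^ 2 - (vA⁻¹) ^ 2

/-- The Chebyshev polynomials `Δ_k`, the Kauffman bracket of the unknot coloured with `k`. -/
noncomputable def Del : ℕ → QA
  | 0 => 1
  | 1 => dl
  | (k + 2) => dl * Del (k + 1) - Del k

namespace Diagram

variable {g n : ℕ} (D : Diagram g n)

/-- The product over the regions `R` of the state `s` of `Δ_{ξ(R)}^{χ(R)}`: every region of the
diagram contributes a disk, and every crossing a band, to the regions of the state. -/
noncomputable def weight (s : Fin n → Bool) (ξ : D.Face → ℕ) : QA :=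
  (∏ᶠ f : D.Face, Del (ξ f)) * ∏ c : Fin n, (Del (ξ (D.face (c, joined (s c)))))⁻¹

/-- The value in `ℚ(A)` of the (crossingless) state `s` in the skein space of
`#_g (S¹ × S²)`, by Turaev's shadow formula. -/
noncomputable def evalState (s : Fin n → Bool) : QA := ∑ᶠ ξ ∈ D.Col s, D.weight s ξ

/-- **The Kauffman bracket** of the diagram in `#_g (S¹ × S²)`. -/
noncomputable def bracket : QA :=
  ∑ s : Fin n → Bool, vA ^ (∑ c, (if s c then (1 : ℤ) else -1)) * D.evalState s

end Diagram

/-- breadth of a polynomial -/
noncomputable def polyBreadth (p : ℚ[X]) : ℤ := (p.natDegree : ℤ) - p.natTrailingDegree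

/-- Breadth of a rational function: `B(P/Q) = B(P) - B(Q)`. For a nonzero Laurent polynomial this
is the difference of the largest and the smallest exponent. -/
noncomputable def breadth (f : QA) : ℤ := polyBreadth f.num - polyBreadth f.denom

end H137SK
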