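import Pool.Agent.H137R3.SK.Cyc

/-!
The weighted Euler inequality and two growth lemmas for finite graphs.
-/

namespace H137SK

open Equiv Equiv.Perm
open scoped Classical

section tw

variable {C : Type*}

/-- exchange the two darts at the crossings in `S` -/
def tw (S : C → Bool) : Perm (C × Bool) where
  toFun d := (d.1, xor d.2 (S d.1))
  invFun d := (d.1, xor d.2 (S d.1))
  left_inv d := by simp
  right_inv d := by simp

theorem tw_apply (S : C → Bool) (d : C × Bool) : tw S d = (d.1, xor d.2 (S d.1)) := rfl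

theorem tw_mul (S T : C → Bool) : tw S * tw T = tw (fun c => xor (S c) (T c)) := by
  ext1 d
  rw [Perm.mul_apply, tw_apply, tw_apply, tw_apply]
  ext1
  · rfl
  · change xor (xor d.2 (T d.1)) (S d.1) = xor d.2 (xor (S d.1) (T d.1))
    cases d.2 <;> cases T d.1 <;> cases S d.1 <;> rfl

/-- exchange at the crossings of a finite set -/
noncomputable def twF (F : Finset C) : Perm (C × Bool) := tw (fun c => decide (c ∈ F))

theorem twF_insert {F : Finset C} {c : C} (hc : c ∉ F) :
    twF (insert c F) = swap (c, false) (c, true) * twF F := by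
  ext1 d
  obtain ⟨e, b⟩ := d
  rw [Perm.mul_apply]
  rcases eq_or_ne e c with h | h
  · subst h
    have h1 : twF F (e, b) = (e, b) := by simp [twF, tw_apply, hc]
    rw [h1]
    have h2 : twF (insert e F) (e, b) = (e, !b) := by simp [twF, tw_apply]
    rw [h2]
    cases b
    · rw [swap_apply_left]; rfl
    · rw [swap_apply_right]; rfl
  · have h1 : twF (insert c F) (e, b) = twF F (e, b) := by simp [twF, tw_apply, h]
    rw [h1]
    rw [swap_apply_of_ne_of_ne]
    · intro h2
      exact h (congrArg Prod.fst h2)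
    · intro h2
      exact h (congrArg Prod.fst h2)

theorem twF_empty : twF (∅ : Finset C) = 1 := by
  ext1 d
  simp [twF, tw_apply]

theorem twF_apply_mem {F : Finset C} {c : C} (hc : c ∈ F) (b : Bool) :
    twF F (c, b) = (c, !b) := by simp [twF, tw_apply, hc]

theorem twF_apply_not_mem {F : Finset C} {c : C} (hc : c ∉ F) (b : Bool) :
    twF F (c, b) = (c, b) := by simp [twF, tw_apply, hc]

/-- The equivalence relation generated by the cycles of `ρ` and the exchanges at `F`. -/
def comp [Finite C] (ρ : Perm (C × Bool)) (τ : Perm (C × Bool)) : Setoid (C × Bool) :=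
  cyc ρ ⊔ cyc τ

theorem comp_le [Finite C] {ρ τ : Perm (C × Bool)} {r : Setoid (C × Bool)}
    (h1 : ∀ x, r x (ρ x)) (h2 : ∀ x, r x (τ x)) : comp ρ τ ≤ r :=
  sup_le (cyc_le ρ r h1) (cyc_le τ r h2)

theorem comp_left [Finite C] (ρ τ : Perm (C × Bool)) (x : C × Bool) : (comp ρ τ) x (ρ x) :=
  (le_sup_left : cyc ρ ≤ comp ρ τ) (cyc_self ρ x)

theorem comp_right [Finite C] (ρ τ : Perm (C × Bool)) (x : C × Bool) : (comp ρ τ) x (τ x) :=
  (le_sup_right : cyc τ ≤ comp ρ τ) (cyc_self τ x)

theorem comp_insert [Finite C] (ρ : Perm (C × Bool)) {F : Finset C} {c : C} (hc : c ∉ F) :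
    comp ρ (twF (insert c F)) = mergeS (comp ρ (twF F)) (c, false) (c, true) := by
  apply le_antisymm
  · apply comp_le
    · intro x
      exact Or.inl (comp_left _ _ x)
    · rintro ⟨e, b⟩
      by_cases he : e = c
      · subst he
        rw [twF_apply_mem (Finset.mem_insert_self _ _)]
        cases b
        · exact mergeS_ab _ _ _
        · exact Setoid.symm' _ (mergeS_ab _ _ _)
      · have h1 : twF (insert c F) (e, b) = twF F (e, b) := by simp [twF, tw_apply, he]
        rw [h1]
        exact Or.inl (comp_right _ _ _)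
  · apply mergeS_le
    · apply comp_le
      · intro x
        exact comp_left _ _ x
      · rintro ⟨e, b⟩
        by_cases he : e = c
        · subst he
          rw [twF_apply_not_mem hc]
        · have h1 : twF (insert c F) (e, b) = twF F (e, b) := by simp [twF, tw_apply, he]
          rw [← h1]
          exact comp_right _ _ _
    · have h2 := comp_right ρ (twF (insert c F)) (c, false)
      rw [twF_apply_mem (Finset.mem_insert_self _ _)] at h2
      exact h2

theorem comp_empty [Finite C] (ρ : Perm (C × Bool)) : comp ρ (twF ∅) = cyc ρ := by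
  apply le_antisymm
  · apply comp_le
    · exact cyc_self ρ
    · intro x
      rw [twF_empty]
      exact (cyc ρ).refl x
  · exact le_sup_left

theorem mergeS_eq {α : Type*} {r : Setoid α} {a b : α} (h : r a b) : mergeS r a b = r :=
  le_antisymm (mergeS_le le_rfl h) (le_mergeS r a b)

theorem twF_inv_fun {F : Finset C} (f : C × Bool → ℤ)
    (hF : ∀ c ∈ F, f (c, false) = f (c, true)) (x : C × Bool) : f (twF F x) = f x := by
  obtain ⟨e, b⟩ := x
  by_cases he : e ∈ F
  · rw [twF_apply_mem he]
    cases b
    · exact (hF e he).symm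
    · exact hF e he
  · rw [twF_apply_not_mem he]

/-- **Weighted Euler inequality.** -/
theorem euler_weighted [Fintype C] (ρ : Perm (C × Bool)) (f : C × Bool → ℤ)
    (h0 : ∀ x, 0 ≤ f x) (hf : ∀ x, f (ρ x) = f x) (F : Finset C)
    (hF : ∀ c ∈ F, f (c, false) = f (c, true)) :
    Z (cyc ρ) f + Z (cyc (twF F * ρ)) f ≤
      2 * Z (comp ρ (twF F)) f + ∑ c ∈ F, f (c, false) := by
  induction F using Finset.induction_on with
  | empty =>
    rw [twF_empty, one_mul, ← twF_empty (C := C), comp_empty]
    simp only [Finset.sum_empty]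
    linarith
  | insert c F hc ih =>
    have ih' := ih (fun c' hc' => hF c' (Finset.mem_insert_of_mem hc'))
    have hcc := hF c (Finset.mem_insert_self _ _)
    have hκ : ∀ x, f ((twF F * ρ) x) = f x := by
      intro x
      rw [Perm.mul_apply, twF_inv_fun f (fun c' hc' => hF c' (Finset.mem_insert_of_mem hc')), hf]
    rw [twF_insert hc, mul_assoc, ← twF_insert hc, comp_insert ρ hc, Finset.sum_insert hc]
    have hne : ((c, false) : C × Bool) ≠ (c, true) := by simp
    have hinv : ∀ x y, (mergeS (comp ρ (twF F)) (c, false) (c, true)) x y → f x = f y := by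
      have hle : mergeS (comp ρ (twF F)) (c, false) (c, true) ≤ Setoid.ker f := by
        apply mergeS_le
        · apply comp_le
          · intro x; exact (hf x).symm
          · intro x
            exact (twF_inv_fun f (fun c' hc' => hF c' (Finset.mem_insert_of_mem hc')) x).symm
        · exact hcc
      exact fun x y h => hle h
    have hcyc_le : cyc (twF F * ρ) ≤ comp ρ (twF F) := by
      apply cyc_le
      intro x
      rw [Perm.mul_apply]
      exact Setoid.trans' _ (comp_left _ _ x) (comp_right _ _ _)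
    by_cases hs : SameCycle (twF F * ρ) (c, false) (c, true)
    · rw [Z_swap_of_same _ hne hs f hκ hcc, mergeS_eq (hcyc_le hs)]
      linarith
    · have h1 := Z_swap_of_not _ hs f hκ hcc
      have h2 : Z (comp ρ (twF F)) f - f (c, false) ≤
          Z (mergeS (comp ρ (twF F)) (c, false) (c, true)) f := by
        by_cases h3 : (comp ρ (twF F)) (c, false) (c, true)
        · rw [mergeS_eq h3]
          have := h0 (c, false)
          linarith
        · have := Z_merge (mergeS_isMerge _ _ _) h3 f hinv
          linarith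
      linarith

end tw

section growth

variable {N E : Type*} [Fintype N] [Fintype E] [DecidableEq N]

/-- **Growth lemma.** -/
theorem growth (i j : E → N) (G : E → Prop) (η : N → ℤ) (m : E → ℤ) (hm : ∀ e, 0 ≤ m e)
    (hi : ∀ e, G e → η (i e) ≤ m e) (hj : ∀ e, G e → η (j e) ≤ m e) (U : Finset N)
    (H : ∀ U' : Finset N, U ⊆ U' → U' ≠ Finset.univ →
      ∃ e, G e ∧ ((i e ∈ U' ∧ j e ∉ U') ∨ (i e ∉ U' ∧ j e ∈ U'))) :
    ∑ R ∈ Uᶜ, η R ≤ ∑ e with (G e ∧ (i e ∉ U ∨ j e ∉ U)), m e := by
  obtain ⟨k, hk⟩ : ∃ k, Uᶜ.card = k := ⟨_, rfl⟩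
  induction k generalizing U with
  | zero =>
    rw [Finset.card_eq_zero] at hk
    rw [hk, Finset.sum_empty]
    exact Finset.sum_nonneg (fun e _ => hm e)
  | succ k ih =>
    have hU : U ≠ Finset.univ := by
      intro h
      rw [h] at hk
      simp at hk
    obtain ⟨e0, he0, hcut⟩ := H U (Finset.Subset.refl _) hU
    obtain ⟨R1, hR1, hR1m, hR1e, hnot⟩ : ∃ R1, R1 ∉ U ∧ η R1 ≤ m e0 ∧
        (i e0 ∉ U ∨ j e0 ∉ U) ∧ ¬ (i e0 ∉ insert R1 U ∨ j e0 ∉ insert R1 U) := by
      rcases hcut with ⟨h1, h2⟩ | ⟨h1, h2⟩
      · exact ⟨j e0, h2, hj e0 he0, Or.inr h2, by simp [h1]⟩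
      · exact ⟨i e0, h1, hi e0 he0, Or.inl h1, by simp [h2]⟩
    have hcompl : Uᶜ = insert R1 (insert R1 U)ᶜ := by
      ext R
      simp only [Finset.mem_compl, Finset.mem_insert, not_or]
      constructor
      · intro h
        by_cases hR : R = R1
        · exact Or.inl hR
        · exact Or.inr ⟨hR, h⟩
      · rintro (h | h)
        · rw [h]; exact hR1
        · exact h.2
    have hR1' : R1 ∉ (insert R1 U)ᶜ := by simp
    have hcard : (insert R1 U)ᶜ.card = k := by
      rw [hcompl, Finset.card_insert_of_notMem hR1'] at hk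
      omega
    have ih' := ih (insert R1 U) (fun U' hU' => H U' ((Finset.subset_insert _ _).trans hU')) hcard
    rw [hcompl, Finset.sum_insert hR1']
    have hsub : insert e0 (Finset.univ.filter
        (fun e => G e ∧ (i e ∉ insert R1 U ∨ j e ∉ insert R1 U))) ⊆
        Finset.univ.filter (fun e => G e ∧ (i e ∉ U ∨ j e ∉ U)) := by
      intro e he
      rw [Finset.mem_insert] at he
      rcases he with he | he
      · rw [he]
        simp only [Finset.mem_filter, Finset.mem_univ, true_and]
        exact ⟨he0, hR1e⟩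
      · simp only [Finset.mem_filter, Finset.mem_univ, true_and, Finset.mem_insert, not_or] at he ⊢
        exact ⟨he.1, he.2.imp (fun h => h.2) (fun h => h.2)⟩
    have h3 := Finset.sum_le_sum_of_subset_of_nonneg hsub (fun e _ _ => hm e)
    rw [Finset.sum_insert (by
      simp only [Finset.mem_filter, Finset.mem_univ, true_and, not_and]
      intro _
      exact hnot)] at h3
    linarith

/-- **Growth lemma with an extra edge.** -/
theorem growth_two (i j : E → N) (G : E → Prop) (U : Finset N) (hU : U ≠ Finset.univ)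
    (H : ∀ U' : Finset N, U ⊆ U' → U' ≠ Finset.univ →
      ∃ e1 e2, e1 ≠ e2 ∧ (G e1 ∧ ((i e1 ∈ U' ∧ j e1 ∉ U') ∨ (i e1 ∉ U' ∧ j e1 ∈ U'))) ∧
        (G e2 ∧ ((i e2 ∈ U' ∧ j e2 ∉ U') ∨ (i e2 ∉ U' ∧ j e2 ∈ U')))) :
    Uᶜ.card + 1 ≤ (Finset.univ.filter (fun e => G e ∧ (i e ∉ U ∨ j e ∉ U))).card := by
  obtain ⟨k, hk⟩ : ∃ k, Uᶜ.card = k := ⟨_, rfl⟩
  induction k generalizing U with
  | zero =>
    exfalso
    rw [Finset.card_eq_zero, Finset.compl_eq_empty_iff] at hk
    exact hU hk
  | succ k ih =>
    obtain ⟨e0, e1, hne, ⟨he0, hcut⟩, ⟨he1, hcut1⟩⟩ := H U (Finset.Subset.refl _) hU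
    obtain ⟨R1, hR1, hR1e, hnot⟩ : ∃ R1, R1 ∉ U ∧
        (i e0 ∉ U ∨ j e0 ∉ U) ∧ ¬ (i e0 ∉ insert R1 U ∨ j e0 ∉ insert R1 U) := by
      rcases hcut with ⟨h1, h2⟩ | ⟨h1, h2⟩
      · exact ⟨j e0, h2, Or.inr h2, by simp [h1]⟩
      · exact ⟨i e0, h1, Or.inl h1, by simp [h2]⟩
    have hcompl : Uᶜ = insert R1 (insert R1 U)ᶜ := by
      ext R
      simp only [Finset.mem_compl, Finset.mem_insert, not_or]
      constructor
      · intro h
        by_cases hR : R = R1
        · exact Or.inl hR
        · exact Or.inr ⟨hR, h⟩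
      · rintro (h | h)
        · rw [h]; exact hR1
        · exact h.2
    have hR1' : R1 ∉ (insert R1 U)ᶜ := by simp
    have hcard : (insert R1 U)ᶜ.card = k := by
      rw [hcompl, Finset.card_insert_of_notMem hR1'] at hk
      omega
    by_cases hU1 : insert R1 U = Finset.univ
    · have hk0 : k = 0 := by
        rw [hU1] at hcard
        simpa using hcard.symm
      rw [hk, hk0]
      have hsub : ({e0, e1} : Finset E) ⊆
          Finset.univ.filter (fun e => G e ∧ (i e ∉ U ∨ j e ∉ U)) := by
        intro e he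
        rw [Finset.mem_insert, Finset.mem_singleton] at he
        simp only [Finset.mem_filter, Finset.mem_univ, true_and]
        rcases he with he | he
        · rw [he]; exact ⟨he0, hR1e⟩
        · rw [he]; exact ⟨he1, hcut1.elim (fun h => Or.inr h.2) (fun h => Or.inl h.1)⟩
      have := Finset.card_le_card hsub
      rw [Finset.card_pair hne] at this
      omega
    · have ih' := ih (insert R1 U) hU1
        (fun U' hU' => H U' ((Finset.subset_insert _ _).trans hU')) hcard
      have hsub : insert e0 (Finset.univ.filter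
          (fun e => G e ∧ (i e ∉ insert R1 U ∨ j e ∉ insert R1 U))) ⊆
          Finset.univ.filter (fun e => G e ∧ (i e ∉ U ∨ j e ∉ U)) := by
        intro e he
        rw [Finset.mem_insert] at he
        rcases he with he | he
        · rw [he]
          simp only [Finset.mem_filter, Finset.mem_univ, true_and]
          exact ⟨he0, hR1e⟩
        · simp only [Finset.mem_filter, Finset.mem_univ, true_and, Finset.mem_insert,
            not_or] at he ⊢
          exact ⟨he.1, he.2.imp (fun h => h.2) (fun h => h.2)⟩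
      have h3 := Finset.card_le_card hsub
      rw [Finset.card_insert_of_notMem (by
        simp only [Finset.mem_filter, Finset.mem_univ, true_and, not_and]
        intro _
        exact hnot)] at h3
      rw [hk]
      omega

end growth

end H137SK
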