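import Pool.Agent.H137R3.SK.Defs

/-!
A diagram with three crossings in the disk with two holes, at one crossing of which one external
region occupies two opposite corners.
-/

namespace H137SK

set_option linter.unusedVariables false

open Equiv Equiv.Perm

namespace Ex

/-- the gluing as a function -/
def gl (h : HE 3) : HE 3 :=
  if h = (0, 0) then (1, 1) else if h = (1, 1) then (0, 0) else
  if h = (0, 1) then (1, 2) else if h = (1, 2) then (0, 1) else
  if h = (1, 3) then (1, 0) else if h = (1, 0) then (1, 3) else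
  if h = (0, 2) then (2, 1) else if h = (2, 1) then (0, 2) else
  if h = (0, 3) then (2, 2) else if h = (2, 2) then (0, 3) else
  if h = (2, 3) then (2, 0) else (2, 3)

theorem gl_gl : ∀ h, gl (gl h) = h := by decide

theorem gl_ne : ∀ h, gl h ≠ h := by decide

/-- the gluing -/
def glP : Perm (HE 3) := ⟨gl, gl, gl_gl, gl_gl⟩

/-- the next half-edge on the boundary of a region -/
def fp (h : HE 3) : HE 3 := ((gl h).1, (gl h).2 - 1)

theorem fp_eq (h : HE 3) : (rot⁻¹ * glP : Perm (HE 3)) h = fp h := rfl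

/-- labels of the regions -/
def lab (h : HE 3) : Fin 5 :=
  if h = (0, 1) ∨ h = (1, 1) ∨ h = (0, 3) ∨ h = (2, 1) then 0 else
  if h = (1, 3) then 1 else if h = (2, 3) then 2 else
  if h = (0, 0) ∨ h = (1, 0) ∨ h = (1, 2) then 3 else 4

theorem lab_fp : ∀ h, lab (fp h) = lab h := by decide

theorem lab_sep : ∀ h h' : HE 3, lab h = lab h' → h' = h ∨ h' = fp h ∨ h' = fp (fp h) ∨
    h' = fp (fp (fp h)) := by decide

theorem same_iff (h h' : HE 3) :
    SameCycle (rot⁻¹ * glP : Perm (HE 3)) h h' ↔ lab h = lab h' := by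
  constructor
  · intro hs
    obtain ⟨k, hk⟩ := hs.exists_nat_pow_eq
    subst hk
    induction k with
    | zero => rfl
    | succ k ih =>
      rw [pow_succ', Perm.mul_apply, fp_eq, lab_fp]
      exact ih ⟨k, by simp⟩
  · intro hl
    have h1 : ∀ h, SameCycle (rot⁻¹ * glP : Perm (HE 3)) h (fp h) := by
      intro h
      exact ⟨1, by rw [zpow_one]; rfl⟩
    rcases lab_sep h h' hl with h2 | h2 | h2 | h2
    · rw [h2]
    · rw [h2]; exact h1 h
    · rw [h2]; exact (h1 h).trans (h1 _)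
    · rw [h2]; exact ((h1 h).trans (h1 _)).trans (h1 _)

/-- The diagram: a crossing `0` joined to two annular curls around two of the holes. -/
def D : Diagram 2 3 where
  glue := glP
  glue_glue := gl_gl
  glue_ne := gl_ne
  hole := ![Quotient.mk _ (0, 1), Quotient.mk _ (1, 3), Quotient.mk _ (2, 3)]

theorem face_iff (h h' : HE 3) : D.face h = D.face h' ↔ lab h = lab h' := by
  rw [← same_iff]
  exact Quotient.eq

/-- the label of a region -/
def flab (f : D.Face) : Fin 5 := Quotient.lift lab (fun h h' hs => (same_iff h h').1 hs) f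

theorem flab_face (h : HE 3) : flab (D.face h) = lab h := rfl

theorem flab_inj : Function.Injective flab := by
  intro a b hab
  induction a using Quotient.inductionOn with
  | _ h =>
    induction b using Quotient.inductionOn with
    | _ h' => exact (face_iff h h').2 hab

theorem flab_bij : Function.Bijective flab := by
  refine ⟨flab_inj, ?_⟩
  intro j
  have : ∀ j : Fin 5, ∃ h, lab h = j := by decide
  obtain ⟨h, hh⟩ := this j
  exact ⟨D.face h, hh⟩

theorem ext_iff (f : D.Face) : D.External f ↔ (flab f = 0 ∨ flab f = 1 ∨ flab f = 2) := by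
  have h0 : flab (D.hole 0) = 0 := rfl
  have h1 : flab (D.hole 1) = 1 := rfl
  have h2 : flab (D.hole 2) = 2 := rfl
  constructor
  · rintro ⟨i, hi⟩
    rw [← hi]
    fin_cases i
    · left; exact h0
    · right; left; exact h1
    · right; right; exact h2
  · rintro (h | h | h)
    · exact ⟨0, flab_inj (h0.trans h.symm)⟩
    · exact ⟨1, flab_inj (h1.trans h.symm)⟩
    · exact ⟨2, flab_inj (h2.trans h.symm)⟩

theorem planar : D.Planar := by
  unfold Diagram.Planar
  rw [Nat.card_eq_of_bijective _ flab_bij, Nat.card_eq_fintype_card, Fintype.card_fin]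

theorem inj : D.NotInFewerHoles := by
  intro i j hij
  have h0 : flab (D.hole 0) = 0 := rfl
  have h1 : flab (D.hole 1) = 1 := rfl
  have h2 : flab (D.hole 2) = 2 := rfl
  have hij' : flab (D.hole i) = flab (D.hole j) := by rw [hij]
  fin_cases i <;> fin_cases j <;> first
    | rfl
    | (exfalso; revert hij'; decide)

theorem alt : D.Alternating := by
  have : ∀ h : HE 3, ((gl h).2 = 1 ∨ (gl h).2 = 3) ↔ ¬ (h.2 = 1 ∨ h.2 = 3) := by decide
  exact this

theorem z2 : D.Z2Trivial := by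
  refine ⟨fun f => decide (flab f = 0 ∨ flab f = 1 ∨ flab f = 2), ?_, ?_⟩
  · intro h
    have : ∀ h : HE 3, decide (lab h = 0 ∨ lab h = 1 ∨ lab h = 2) ≠
        decide (lab (h.1, h.2 - 1) = 0 ∨ lab (h.1, h.2 - 1) = 1 ∨ lab (h.1, h.2 - 1) = 2) := by
      decide
    exact this h
  · intro f f' hf hf'
    rw [ext_iff] at hf hf'
    simp only [hf, hf']

theorem rots {A : Set (HE 3)} {c : Fin 3} (h : ∀ h ∈ A, h.1 = c → rot h ∈ A) (i j : ZMod 4)
    (hi : (c, i) ∈ A) : (c, j) ∈ A := by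
  have h1 : ∀ i : ZMod 4, (c, i) ∈ A → (c, i + 1) ∈ A := fun i hi => h _ hi rfl
  have h2 : (c, i + 1) ∈ A := h1 _ hi
  have h3 : (c, i + 1 + 1) ∈ A := h1 _ h2
  have h4 : (c, i + 1 + 1 + 1) ∈ A := h1 _ h3
  have : ∀ i j : ZMod 4, j = i ∨ j = i + 1 ∨ j = i + 1 + 1 ∨ j = i + 1 + 1 + 1 := by decide
  rcases this i j with h5 | h5 | h5 | h5
  · rw [h5]; exact hi
  · rw [h5]; exact h2
  · rw [h5]; exact h3
  · rw [h5]; exact h4

theorem fin3 : ∀ c : Fin 3, c = 0 ∨ c = 1 ∨ c = 2 := by decide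

theorem conn : D.Connected := by
  intro A hne hg hr
  have hr' : ∀ c, ∀ h ∈ A, h.1 = c → rot h ∈ A := fun c h hh _ => hr h hh
  have hrr : ∀ c i j, (c, i) ∈ A → (c, j) ∈ A := fun c i j hi => rots (hr' c) i j hi
  have g0 : ((0, 0) : HE 3) ∈ A → ((1, 1) : HE 3) ∈ A := fun h => hg _ h
  have g0' : ((1, 1) : HE 3) ∈ A → ((0, 0) : HE 3) ∈ A := fun h => hg _ h
  have g1 : ((0, 2) : HE 3) ∈ A → ((2, 1) : HE 3) ∈ A := fun h => hg _ h
  have g1' : ((2, 1) : HE 3) ∈ A → ((0, 2) : HE 3) ∈ A := fun h => hg _ h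
  have h00 : ((0, 0) : HE 3) ∈ A := by
    obtain ⟨⟨c, i⟩, hc⟩ := hne
    have := fin3 c
    rcases this with h | h | h
    · subst h; exact hrr 0 i 0 hc
    · subst h; exact g0' (hrr 1 i 1 hc)
    · subst h; exact hrr 0 2 0 (g1' (hrr 2 i 1 hc))
  ext ⟨c, i⟩
  refine ⟨fun _ => trivial, fun _ => ?_⟩
  have := fin3 c
  rcases this with h | h | h
  · subst h; exact hrr 0 0 i h00
  · subst h; exact hrr 1 1 i (g0 h00)
  · subst h; exact hrr 2 1 i (g1 (hrr 0 0 2 h00))

theorem not_excl : ∀ c, ¬ D.Excluded c := by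
  rintro x ⟨A, hg, hr, ⟨i, a1, a2, a3, a4⟩, hext⟩
  have e1 := hext (D.hole 1) ⟨1, rfl⟩
  have e2 := hext (D.hole 2) ⟨2, rfl⟩
  have H1 : ¬ (((1, 3) : HE 3) ∈ A ∧ ((1, 0) : HE 3) ∈ A) := by
    obtain ⟨h, hf, hh⟩ := e1
    have hl : lab h = lab (1, 3) := (face_iff h (1, 3)).1 hf
    have : ∀ h : HE 3, lab h = lab (1, 3) → h = (1, 3) := by decide
    have h3 := this h hl
    subst h3
    rintro ⟨b1, b2⟩
    rcases hh with hh | hh
    · exact hh b1
    · exact hh b2
  have H2 : ¬ (((2, 3) : HE 3) ∈ A ∧ ((2, 0) : HE 3) ∈ A) := by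
    obtain ⟨h, hf, hh⟩ := e2
    have hl : lab h = lab (2, 3) := (face_iff h (2, 3)).1 hf
    have : ∀ h : HE 3, lab h = lab (2, 3) → h = (2, 3) := by decide
    have h3 := this h hl
    subst h3
    rintro ⟨b1, b2⟩
    rcases hh with hh | hh
    · exact hh b1
    · exact hh b2
  have hrr : ∀ c, c ≠ x → ∀ i j, (c, i) ∈ A → (c, j) ∈ A := by
    intro c hc i j hi
    apply rots _ i j hi
    intro h hh he
    exact hr h hh (by rw [he]; exact hc)
  have k1 : ((0, 0) : HE 3) ∈ A → ((1, 1) : HE 3) ∈ A := fun h => hg _ h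
  have k2 : ((1, 1) : HE 3) ∈ A → ((0, 0) : HE 3) ∈ A := fun h => hg _ h
  have k3 : ((0, 1) : HE 3) ∈ A → ((1, 2) : HE 3) ∈ A := fun h => hg _ h
  have k4 : ((1, 2) : HE 3) ∈ A → ((0, 1) : HE 3) ∈ A := fun h => hg _ h
  have k5 : ((1, 3) : HE 3) ∈ A → ((1, 0) : HE 3) ∈ A := fun h => hg _ h
  have k6 : ((1, 0) : HE 3) ∈ A → ((1, 3) : HE 3) ∈ A := fun h => hg _ h
  have k7 : ((0, 2) : HE 3) ∈ A → ((2, 1) : HE 3) ∈ A := fun h => hg _ h
  have k8 : ((2, 1) : HE 3) ∈ A → ((0, 2) : HE 3) ∈ A := fun h => hg _ h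
  have k9 : ((0, 3) : HE 3) ∈ A → ((2, 2) : HE 3) ∈ A := fun h => hg _ h
  have k10 : ((2, 2) : HE 3) ∈ A → ((0, 3) : HE 3) ∈ A := fun h => hg _ h
  have k11 : ((2, 3) : HE 3) ∈ A → ((2, 0) : HE 3) ∈ A := fun h => hg _ h
  have k12 : ((2, 0) : HE 3) ∈ A → ((2, 3) : HE 3) ∈ A := fun h => hg _ h
  have hx := fin3 x
  have hi : i = 0 ∨ i = 1 ∨ i = 2 ∨ i = 3 := by
    have : ∀ i : ZMod 4, i = 0 ∨ i = 1 ∨ i = 2 ∨ i = 3 := by decide
    exact this i
  rcases hx with hx | hx | hx <;> subst hx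
  · have r1 := hrr 1 (by decide)
    have r2 := hrr 2 (by decide)
    rcases hi with hi | hi | hi | hi <;> subst hi
    · have b := k1 a1
      exact H1 ⟨r1 1 3 b, r1 1 0 b⟩
    · exact a4 (k2 (r1 2 1 (k3 a1)))
    · have b := k7 a1
      exact H2 ⟨r2 1 3 b, r2 1 0 b⟩
    · exact a3 (k4 (r1 1 2 (k1 a2)))
  · have r1 := hrr 0 (by decide)
    have r2 := hrr 2 (by decide)
    rcases hi with hi | hi | hi | hi <;> subst hi
    · exact a4 (k6 a1)
    · have b := k7 (r1 0 2 (k2 a1))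
      exact H2 ⟨r2 1 3 b, r2 1 0 b⟩
    · exact a3 (k5 a2)
    · exact H1 ⟨a1, a2⟩
  · have r1 := hrr 0 (by decide)
    have r2 := hrr 1 (by decide)
    rcases hi with hi | hi | hi | hi <;> subst hi
    · exact a4 (k12 a1)
    · have b := k1 (r1 2 0 (k8 a1))
      exact H1 ⟨r2 1 3 b, r2 1 0 b⟩
    · exact a3 (k11 a2)
    · exact H2 ⟨a1, a2⟩

theorem k_eq : D.k = 2 := by
  unfold Diagram.k
  have h : ∀ c : Fin 3, (∃ i j : ZMod 4, D.External (D.face (c, i)) ∧
      D.External (D.face (c, j)) ∧ D.face (c, i) ≠ D.face (c, j)) ↔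
      (∃ i j : ZMod 4, (lab (c, i) = 0 ∨ lab (c, i) = 1 ∨ lab (c, i) = 2) ∧
      (lab (c, j) = 0 ∨ lab (c, j) = 1 ∨ lab (c, j) = 2) ∧ lab (c, i) ≠ lab (c, j)) := by
    intro c
    simp only [ext_iff, flab_face, Ne, face_iff]
  rw [Nat.card_congr (Equiv.subtypeEquivRight h), Nat.card_eq_fintype_card]
  decide

theorem kOpp_eq : D.kOpp = 1 := by
  unfold Diagram.kOpp
  have h : ∀ c : Fin 3, (∃ i : ZMod 4, D.External (D.face (c, i)) ∧
      D.face (c, i) = D.face (c, i + 2)) ↔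
      (∃ i : ZMod 4, (lab (c, i) = 0 ∨ lab (c, i) = 1 ∨ lab (c, i) = 2) ∧
      lab (c, i) = lab (c, i + 2)) := by
    intro c
    simp only [ext_iff, flab_face, face_iff]
  rw [Nat.card_congr (Equiv.subtypeEquivRight h), Nat.card_eq_fintype_card]
  decide

end Ex

end H137SK
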