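import Pool.Agent.H137R3.SK.Red

/-!
The two extremal estimates for coloured states.
-/

namespace H137SK

set_option linter.unusedSectionVars false
set_option linter.unusedVariables false

open Equiv Equiv.Perm
open scoped Classical

namespace Red

variable {C : Type*} [Fintype C]
variable {R : Red C} {w b : C × Bool → ℕ} (hc : R.IsCol w b) {F : Finset C} (hF : Compat F w b)

/-- nodes: white and black regions of the state -/
abbrev Nd (R : Red C) (F : Finset C) := Quotient (cW R F) ⊕ Quotient (cB R F)

/-- weight of a node -/
noncomputable def nw (R : Red C) (F : Finset C) (w b : C × Bool → ℕ) : Nd R F → ℤ :=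
  Sum.elim (fun q => ew w q.out) (fun q => eb b q.out)

/-- the node meets `T` -/
def meets (R : Red C) (F : Finset C) (T : Set (C × Bool)) (n : Nd R F) : Prop :=
  ∃ d ∈ T, n = Sum.inl (Quotient.mk _ d) ∨ n = Sum.inr (Quotient.mk _ d)

theorem chi_congr {w : C × Bool → ℕ} {x y : C × Bool} (h : w x = w y) : chi w x = chi w y := by
  unfold chi; rw [h]

theorem ew_congr {w : C × Bool → ℕ} {x y : C × Bool} (h : w x = w y) : ew w x = ew w y := by
  unfold ew; rw [h, chi_congr h]

theorem eb_congr {b : C × Bool → ℕ} {x y : C × Bool} (h : b x = b y) : eb b x = eb b y := by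
  unfold eb; rw [h]

include hc hF in
theorem nw_inl (d : C × Bool) : nw R F w b (Sum.inl (Quotient.mk _ d)) = ew w d :=
  ew_congr (w_cW hc hF (out_rel _ d))

include hc hF in
theorem nw_inr (d : C × Bool) : nw R F w b (Sum.inr (Quotient.mk _ d)) = eb b d :=
  eb_congr (b_cB hc hF (out_rel _ d))

include hc hF in
theorem nw_nonneg (n : Nd R F) : 0 ≤ nw R F w b n := by
  rcases n with q | q
  · exact ew_nonneg hc _
  · exact eb_nonneg hc _

include hc hF in
/-- growth on a union `T` of circles -/
theorem growth_on (T : Set (C × Bool)) (hT : ∀ x y, (cK R F) x y → x ∈ T → y ∈ T)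
    (hconn : ∀ T' ⊆ T, T'.Nonempty →
      (∀ d ∈ T', ∀ e ∈ T, (cW R F) d e ∨ (cB R F) d e → e ∈ T') → T' = T)
    (h0 : ∃ d ∈ T, w d = 0) :
    ∑ n : Nd R F, (if meets R F T n then nw R F w b n else 0) ≤
      ∑ e : Quotient (cK R F), (if e.out ∈ T then mx w b e.out else 0) := by
  let U : Finset (Nd R F) := Finset.univ.filter (fun n => nw R F w b n = 0 ∨ ¬ meets R F T n)
  have hg := growth (N := Nd R F) (E := Quotient (cK R F))
    (fun e => Sum.inl (Quotient.mk _ e.out)) (fun e => Sum.inr (Quotient.mk _ e.out))
    (fun e => e.out ∈ T) (nw R F w b) (fun e => mx w b e.out) (fun e => mx_nonneg hc _)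
    (fun e _ => by rw [nw_inl hc hF]; exact le_max_left _ _)
    (fun e _ => by rw [nw_inr hc hF]; exact le_max_right _ _) U ?_
  · have h1 : ∑ n : Nd R F, (if meets R F T n then nw R F w b n else 0) =
        ∑ n ∈ Uᶜ, nw R F w b n := by
      rw [← Finset.sum_filter]
      symm
      apply Finset.sum_subset_zero_on_sdiff
      · intro n hn
        simp only [U, Finset.mem_compl, Finset.mem_filter, Finset.mem_univ, true_and, not_or,
          not_not] at hn ⊢
        exact hn.2
      · intro n hn
        simp only [U, Finset.mem_sdiff, Finset.mem_compl, Finset.mem_filter, Finset.mem_univ,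
          true_and, not_or, not_not, not_and] at hn
        by_contra h
        exact hn.2 h hn.1
      · intro n _; rfl
    rw [h1]
    refine hg.trans ?_
    rw [← Finset.sum_filter]
    apply Finset.sum_le_sum_of_subset_of_nonneg
    · intro e he
      simp only [Finset.mem_filter, Finset.mem_univ, true_and] at he ⊢
      exact he.1
    · intro e _ _
      exact mx_nonneg hc _
  · intro U' hUU' hU'
    by_contra hno
    push Not at hno
    -- no cut edge
    have hiff : ∀ d ∈ T, ((Sum.inl (Quotient.mk _ d) : Nd R F) ∈ U' ↔
        (Sum.inr (Quotient.mk _ d) : Nd R F) ∈ U') := by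
      intro d hd
      have h1 : (cK R F) (Quotient.mk (cK R F) d).out d := out_rel _ d
      have h2 : (Quotient.mk (cK R F) d).out ∈ T := hT _ _ ((cK R F).symm h1) hd
      have h3 := hno (Quotient.mk (cK R F) d) h2
      have h4 : (Quotient.mk (cW R F) (Quotient.mk (cK R F) d).out) = Quotient.mk _ d :=
        Quotient.sound (cK_le_cW R F h1)
      have h5 : (Quotient.mk (cB R F) (Quotient.mk (cK R F) d).out) = Quotient.mk _ d :=
        Quotient.sound (cK_le_cB R F h1)
      rw [h4, h5] at h3
      constructor
      · intro h; exact h3.1 h
      · intro h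
        by_contra h'
        exact h3.2 h' h
    have hT' := hconn {d | d ∈ T ∧ (Sum.inl (Quotient.mk _ d) : Nd R F) ∈ U'}
      (fun d hd => hd.1) ?_ ?_
    · apply hU'
      rw [Finset.eq_univ_iff_forall]
      intro n
      by_cases hn : meets R F T n
      · obtain ⟨d, hd, h⟩ := hn
        have h1 : d ∈ {d | d ∈ T ∧ (Sum.inl (Quotient.mk _ d) : Nd R F) ∈ U'} := by
          rw [hT']; exact hd
        rcases h with h | h
        · rw [h]; exact h1.2
        · rw [h]; exact (hiff d hd).1 h1.2
      · apply hUU'
        simp only [U, Finset.mem_filter, Finset.mem_univ, true_and]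
        exact Or.inr hn
    · obtain ⟨d, hd, hd0⟩ := h0
      refine ⟨d, hd, hUU' ?_⟩
      simp only [U, Finset.mem_filter, Finset.mem_univ, true_and]
      left
      rw [nw_inl hc hF]
      simp [ew, chi, hd0]
    · intro d hd e he hde
      refine ⟨he, ?_⟩
      rcases hde with hde | hde
      · have : (Quotient.mk (cW R F) e) = Quotient.mk _ d := Quotient.sound ((cW R F).symm hde)
        rw [this]
        exact hd.2
      · have : (Quotient.mk (cB R F) e) = Quotient.mk _ d := Quotient.sound ((cB R F).symm hde)
        rw [hiff e he, this, ← hiff d hd.1]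
        exact hd.2

theorem sum_nw : ∑ n : Nd R F, nw R F w b n = Z (cW R F) (ew w) + Z (cB R F) (eb b) := by
  rw [Fintype.sum_sum_type]
  rfl

include hc hF in
theorem dft_nonneg : 0 ≤ dft R F w b := by
  have := growth_on hc hF Set.univ (fun _ _ _ _ => trivial) ?_ ?_
  · have h1 : ∀ n : Nd R F, meets R F Set.univ n := by
      intro n
      rcases n with q | q
      · induction q using Quotient.inductionOn with
        | _ x => exact ⟨x, trivial, Or.inl rfl⟩
      · induction q using Quotient.inductionOn with
        | _ x => exact ⟨x, trivial, Or.inr rfl⟩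
    simp only [h1, if_true, Set.mem_univ] at this
    rw [sum_nw] at this
    unfold dft
    unfold Z at this ⊢
    linarith
  · intro T' _ hne hcl
    apply R.conn T' hne
    · intro d hd
      exact hcl d hd _ trivial (Or.inl (comp_left _ _ d))
    · intro d hd
      by_cases h : d.1 ∈ F
      · have h1 : (cW R F) d (twF F d) := comp_right _ _ d
        rw [twF_mem h] at h1
        exact hcl d hd _ trivial (Or.inl h1)
      · have h1 : (cB R F) d (twF Fᶜ d) := comp_right _ _ d
        rw [twF_mem (by simpa using h)] at h1
        exact hcl d hd _ trivial (Or.inr h1)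
  · obtain ⟨d, hd⟩ := R.mkd_ex
    exact ⟨d, trivial, hc.mark d hd⟩

/-- the two sides of a crossing `x` -/
noncomputable def side (R : Red C) (x : C) : Setoid (C × Bool) :=
  comp (swap (x, false) (x, true) * R.pi) (twF (Finset.univ.erase x))

theorem side_flp {x : C} {d : C × Bool} (h : d.1 ≠ x) : (side R x) d (flp d) := by
  have h1 : (side R x) d (twF (Finset.univ.erase x) d) := comp_right _ _ d
  rwa [twF_mem (by simp [h])] at h1

include hc hF in
/-- growth on one side -/
theorem growth_side (x : C × Bool) (hxF : x.1 ∈ F)
    (hj : ¬ (side R x.1) x (flp x)) :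
    ∑ n : Nd R F, (if meets R F {d | (side R x.1) x d} n then nw R F w b n else 0) ≤
      ∑ e : Quotient (cK R F),
        (if e.out ∈ {d | (side R x.1) x d} then mx w b e.out else 0) := by
  set ρ : Perm (C × Bool) := swap (x.1, false) (x.1, true) * R.pi with hρ
  have hWρ : ∀ d, (cW R F) d (ρ d) := by
    intro d
    rw [hρ, Perm.mul_apply]
    have h1 : (cW R F) d (R.pi d) := comp_left _ _ d
    have h2 : (cW R F) (x.1, false) (x.1, true) := by
      have h3 : (cW R F) (x.1, false) (twF F (x.1, false)) := comp_right _ _ _
      rwa [twF_mem (d := (x.1, false)) hxF] at h3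
    rcases eq_or_ne (R.pi d) (x.1, false) with h3 | h3
    · rw [h3, swap_apply_left]
      rw [h3] at h1
      exact (cW R F).trans h1 h2
    · rcases eq_or_ne (R.pi d) (x.1, true) with h4 | h4
      · rw [h4, swap_apply_right]
        rw [h4] at h1
        exact (cW R F).trans h1 ((cW R F).symm h2)
      · rwa [swap_apply_of_ne_of_ne h3 h4]
  apply growth_on hc hF
  · intro a c hac ha
    -- circles stay on one side
    have hle : cK R F ≤ side R x.1 := by
      apply cyc_le
      intro d
      have hmul : twF F * R.pi = twF (F.erase x.1) * ρ := by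
        rw [hρ, ← mul_assoc, swap_eq_twF]
        congr 1
        ext1 e
        rw [Perm.mul_apply]
        by_cases h1 : e.1 = x.1
        · have h2 : twF ({x.1} : Finset C) e = flp e := twF_mem (by simp [h1])
          rw [h2, twF_mem (by rw [h1]; exact hxF), twF_not_mem]
          simp [flp, h1]
        · have h2 : twF ({x.1} : Finset C) e = e := twF_not_mem (by simp [h1])
          rw [h2]
          by_cases h3 : e.1 ∈ F
          · rw [twF_mem h3, twF_mem (by simp [h1, h3])]
          · rw [twF_not_mem h3, twF_not_mem (by simp [h3])]
      rw [hmul, Perm.mul_apply]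
      have h1 : (side R x.1) d (ρ d) := comp_left _ _ d
      by_cases h2 : (ρ d).1 ∈ F.erase x.1
      · rw [twF_mem h2]
        exact (side R x.1).trans h1 (side_flp (Finset.ne_of_mem_erase h2))
      · rw [twF_not_mem h2]
        exact h1
    exact (side R x.1).trans ha (hle hac)
  · intro T' hT' hne hcl
    apply Set.Subset.antisymm hT'
    have hstep : ∀ d e, ((cW R F) d e ∨ (cB R F) d e) → (side R x.1) d e → (d ∈ T' ↔ e ∈ T') := by
      intro d e hde hs
      constructor
      · intro hd
        exact hcl d hd e ((side R x.1).trans (hT' hd) hs) hde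
      · intro he
        refine hcl e he d ((side R x.1).trans (hT' he) ((side R x.1).symm hs)) ?_
        exact hde.imp (fun h => (cW R F).symm h) (fun h => (cB R F).symm h)
    have hle : side R x.1 ≤ Setoid.ker (fun d => d ∈ T') := by
      apply comp_le
      · intro d
        exact propext (hstep d (ρ d) (Or.inl (hWρ d)) (comp_left _ _ d))
      · intro d
        by_cases h1 : d.1 = x.1
        · rw [twF_not_mem (by simp [h1])]
        · rw [twF_mem (by simp [h1])]
          apply propext
          apply hstep
          · by_cases h : d.1 ∈ F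
            · have h1 : (cW R F) d (twF F d) := comp_right _ _ d
              rw [twF_mem h] at h1
              exact Or.inl h1
            · have h1 : (cB R F) d (twF Fᶜ d) := comp_right _ _ d
              rw [twF_mem (by simpa using h)] at h1
              exact Or.inr h1
          · exact side_flp h1
    obtain ⟨d0, hd0⟩ := hne
    intro d hd
    have h1 : (side R x.1) d0 d := (side R x.1).trans ((side R x.1).symm (hT' hd0)) hd
    have h2 : (d0 ∈ T') = (d ∈ T') := hle h1
    rw [← h2]
    exact hd0
  · obtain ⟨d, hd, hall⟩ := R.ne2 x {d | (side R x.1) x d}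
      (fun d hd => (side R x.1).trans hd (comp_left _ _ d))
      (fun d hd h => (side R x.1).trans hd (side_flp h))
      ((side R x.1).refl x) hj
    exact ⟨d, hall d (SameCycle.refl _ _), hc.mark d hd⟩

include hc hF in
/-- a loop in a coloured white face increases the defect -/
theorem dft_pos (x : C) (hxF : x ∈ F) (hx : SameCycle R.pi (x, false) (x, true))
    (hw : 2 ≤ w (x, false)) : 1 ≤ dft R F w b := by
  have hj := R.jordan x hx
  have hj' : ¬ (side R x) (x, false) (x, true) := hj
  have g1 := growth_side hc hF (x, false) hxF hj'
  have g2 := growth_side hc hF (x, true) hxF (fun h => hj' ((side R x).symm h))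
  change ∑ n : Nd R F, (if meets R F {d | (side R x) (x, false) d} n then nw R F w b n else 0) ≤
      ∑ e : Quotient (cK R F),
        (if e.out ∈ {d | (side R x) (x, false) d} then mx w b e.out else 0) at g1
  change ∑ n : Nd R F, (if meets R F {d | (side R x) (x, true) d} n then nw R F w b n else 0) ≤
      ∑ e : Quotient (cK R F),
        (if e.out ∈ {d | (side R x) (x, true) d} then mx w b e.out else 0) at g2
  -- the two sides partition everything
  have hcover : ∀ d, (side R x) (x, false) d ∨ (side R x) (x, true) d := by
    have : {d | (side R x) (x, false) d ∨ (side R x) (x, true) d} = Set.univ := by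
      apply R.conn
      · exact ⟨(x, false), Or.inl ((side R x).refl _)⟩
      · intro d hd
        have h1 : (side R x) d ((swap (x, false) (x, true) * R.pi) d) := comp_left _ _ d
        rw [Perm.mul_apply] at h1
        rcases eq_or_ne (R.pi d) (x, false) with h2 | h2
        · rw [h2]; exact Or.inl ((side R x).refl _)
        · rcases eq_or_ne (R.pi d) (x, true) with h3 | h3
          · rw [h3]; exact Or.inr ((side R x).refl _)
          · rw [swap_apply_of_ne_of_ne h2 h3] at h1
            exact hd.imp (fun h => (side R x).trans h h1) (fun h => (side R x).trans h h1)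
      · intro d hd
        by_cases h : d.1 = x
        · obtain ⟨e, β⟩ := d
          have h' : e = x := h
          subst h'
          cases β
          · exact Or.inr ((side R e).refl _)
          · exact Or.inl ((side R e).refl _)
        · exact hd.imp (fun h' => (side R x).trans h' (side_flp h))
            (fun h' => (side R x).trans h' (side_flp h))
    intro d
    have h : d ∈ {d | (side R x) (x, false) d ∨ (side R x) (x, true) d} := by rw [this]; trivial
    exact h
  have hdisj : ∀ d, (side R x) (x, false) d → ¬ (side R x) (x, true) d := by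
    intro d h1 h2
    exact hj' ((side R x).trans h1 ((side R x).symm h2))
  have hE : ∑ e : Quotient (cK R F),
        (if e.out ∈ {d | (side R x) (x, false) d} then mx w b e.out else 0) +
      ∑ e : Quotient (cK R F),
        (if e.out ∈ {d | (side R x) (x, true) d} then mx w b e.out else 0) =
      Z (cK R F) (mx w b) := by
    rw [← Finset.sum_add_distrib, Z]
    apply Finset.sum_congr rfl
    intro e _
    rcases hcover e.out with h | h
    · have h2 := hdisj _ h
      rw [if_pos (show e.out ∈ {d | (side R x) (x, false) d} from h),
        if_neg (show e.out ∉ {d | (side R x) (x, true) d} from h2), add_zero]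
    · have h2 : ¬ (side R x) (x, false) e.out := fun h' => hdisj _ h' h
      rw [if_neg (show e.out ∉ {d | (side R x) (x, false) d} from h2),
        if_pos (show e.out ∈ {d | (side R x) (x, true) d} from h), zero_add]
  let nx : Nd R F := Sum.inl (Quotient.mk _ (x, false))
  have hN : ∑ n : Nd R F, nw R F w b n + nw R F w b nx ≤
      ∑ n : Nd R F, (if meets R F {d | (side R x) (x, false) d} n then nw R F w b n else 0) +
      ∑ n : Nd R F, (if meets R F {d | (side R x) (x, true) d} n then nw R F w b n else 0) := by
    rw [← Finset.sum_add_distrib, ← Finset.sum_erase_add _ _ (Finset.mem_univ nx),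
      ← Finset.sum_erase_add _ _ (Finset.mem_univ nx), add_assoc]
    apply add_le_add
    · apply Finset.sum_le_sum
      intro n _
      have h0 := nw_nonneg hc hF n
      have hcov : meets R F {d | (side R x) (x, false) d} n ∨
          meets R F {d | (side R x) (x, true) d} n := by
        rcases n with q | q
        · induction q using Quotient.inductionOn with
          | _ y => exact (hcover y).imp (fun h => ⟨y, h, Or.inl rfl⟩) (fun h => ⟨y, h, Or.inl rfl⟩)
        · induction q using Quotient.inductionOn with
          | _ y => exact (hcover y).imp (fun h => ⟨y, h, Or.inr rfl⟩) (fun h => ⟨y, h, Or.inr rfl⟩)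
      split_ifs with h1 h2 h2
      · linarith
      · linarith
      · linarith
      · exact absurd hcov (by simp [h1, h2])
    · have hm1 : meets R F {d | (side R x) (x, false) d} nx :=
        ⟨(x, false), (side R x).refl _, Or.inl rfl⟩
      have hm2 : meets R F {d | (side R x) (x, true) d} nx := by
        refine ⟨(x, true), (side R x).refl _, Or.inl ?_⟩
        have h3 : (cW R F) (x, false) (twF F (x, false)) := comp_right _ _ _
        rw [twF_mem (d := (x, false)) hxF] at h3
        exact congrArg Sum.inl (Quotient.sound h3)
      rw [if_pos hm1, if_pos hm2]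
  have hnx : 1 ≤ nw R F w b nx := by
    rw [nw_inl hc hF]
    unfold ew chi
    rw [if_pos hw]
    have : (2 : ℤ) ≤ w (x, false) := by exact_mod_cast hw
    linarith
  rw [sum_nw] at hN
  unfold dft
  linarith

end Red

end H137SK
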