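import Pool.Agent.H137R3.SK.Ext

/-!
The two extremal theorems for coloured states of a reduced diagram.
-/

namespace H137SK

set_option linter.unusedSectionVars false
set_option linter.unusedVariables false

open Equiv Equiv.Perm
open scoped Classical

theorem Z_lt {α : Type*} [Fintype α] (r : Setoid α) (f g : α → ℤ) (h : ∀ x, f x ≤ g x)
    (hf : ∀ x y, r x y → f x = f y) (hg : ∀ x y, r x y → g x = g y) (a : α) (ha : f a < g a) :
    Z r f < Z r g := by
  apply Finset.sum_lt_sum (fun q _ => h _)
  refine ⟨Quotient.mk r a, Finset.mem_univ _, ?_⟩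
  rw [hf _ _ (out_rel r a), hg _ _ (out_rel r a)]
  exact ha

namespace Red

variable {C : Type*} [Fintype C]
variable {R : Red C} {w b : C × Bool → ℕ} (hc : R.IsCol w b) {F : Finset C} (hF : Compat F w b)

include hc hF in
/-- if there is a white region of colour at least two, then there are enough crossings outside
of `F` -/
theorem chi_card (hP : 0 < Z (cW R F) (chi w)) :
    Z (cW R F) (chi w) + 1 + F.card ≤ Fintype.card C := by
  let U : Finset (Quotient (cW R F)) := Finset.univ.filter (fun q => chi w q.out = 0)
  have hUc : (Uᶜ.card : ℤ) = Z (cW R F) (chi w) := by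
    have h1 : Z (cW R F) (chi w) = ∑ q : Quotient (cW R F), if q ∈ Uᶜ then (1 : ℤ) else 0 := by
      apply Finset.sum_congr rfl
      intro q _
      simp only [U, Finset.mem_compl, Finset.mem_filter, Finset.mem_univ, true_and]
      unfold chi
      split_ifs with h2 h3 h3 <;> simp_all
    rw [h1, Finset.sum_ite_mem, Finset.univ_inter]
    simp
  have hU : U ≠ Finset.univ := by
    intro h
    rw [h] at hUc
    simp at hUc
    omega
  have hg := growth_two (N := Quotient (cW R F)) (E := C)
    (fun c => Quotient.mk _ (c, false)) (fun c => Quotient.mk _ (c, true)) (fun c => c ∉ F)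
    U hU ?_
  · have h3 : Uᶜ.card + 1 ≤ Fᶜ.card := by
      refine hg.trans (Finset.card_le_card ?_)
      intro c hc
      simp only [Finset.mem_filter, Finset.mem_univ, true_and, Finset.mem_compl] at hc ⊢
      exact hc.1
    have h6 := Finset.card_compl F
    have h4 := Finset.card_le_univ F
    rw [← hUc]
    have h5 : Uᶜ.card + 1 + F.card ≤ Fintype.card C := by omega
    exact_mod_cast h5
  · intro U' hUU' hU'
    -- the set of darts outside
    let A : Set (C × Bool) := {d | (Quotient.mk (cW R F) d) ∉ U'}
    have hApi : ∀ d ∈ A, R.pi d ∈ A := by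
      intro d hd
      have h1 : (Quotient.mk (cW R F) (R.pi d)) = Quotient.mk _ d :=
        Quotient.sound ((cW R F).symm (comp_left _ _ d))
      change (Quotient.mk (cW R F) (R.pi d)) ∉ U'
      rw [h1]
      exact hd
    have hAF : ∀ d ∈ A, d.1 ∈ F → flp d ∈ A := by
      intro d hd h
      have h2 : (cW R F) d (twF F d) := comp_right _ _ d
      rw [twF_mem h] at h2
      have h1 : (Quotient.mk (cW R F) (flp d)) = Quotient.mk _ d :=
        Quotient.sound ((cW R F).symm h2)
      change (Quotient.mk (cW R F) (flp d)) ∉ U'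
      rw [h1]
      exact hd
    have hAne : A.Nonempty := by
      by_contra h
      apply hU'
      rw [Finset.eq_univ_iff_forall]
      intro q
      induction q using Quotient.inductionOn with
      | _ y =>
        by_contra h'
        exact h ⟨y, h'⟩
    have hAmk : ∀ d ∈ A, ¬ R.mkd d := by
      intro d hd hm
      apply hd
      apply hUU'
      simp only [U, Finset.mem_filter, Finset.mem_univ, true_and]
      have h1 : w (Quotient.mk (cW R F) d).out = w d := w_cW hc hF (out_rel _ d)
      unfold chi
      rw [h1, hc.mark d hm]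
      simp
    have hcut : ∀ d : C × Bool, d ∈ A → flp d ∉ A →
        (((Quotient.mk (cW R F) (d.1, false)) ∈ U' ∧ (Quotient.mk (cW R F) (d.1, true)) ∉ U') ∨
        ((Quotient.mk (cW R F) (d.1, false)) ∉ U' ∧ (Quotient.mk (cW R F) (d.1, true)) ∈ U')) := by
      rintro ⟨e, β⟩ h1 h2
      cases β
      · right
        refine ⟨h1, ?_⟩
        by_contra h3
        exact h2 h3
      · left
        refine ⟨?_, h1⟩
        by_contra h3
        exact h2 h3
    -- first cut crossing
    obtain ⟨d1, hd1, hd1'⟩ : ∃ d ∈ A, flp d ∉ A := by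
      by_contra h
      push Not at h
      have := R.conn A hAne hApi h
      obtain ⟨d, hd⟩ := R.mkd_ex
      exact hAmk d (by rw [this]; trivial) hd
    obtain ⟨d2, hd2, hd12, hd2'⟩ : ∃ d ∈ A, d.1 ≠ d1.1 ∧ flp d ∉ A := by
      by_contra h
      push Not at h
      obtain ⟨d, hd, hm⟩ := R.ne1 d1 A hApi (fun d hd hne => h d hd hne) hd1 hd1'
      exact hAmk d hd hm
    refine ⟨d1.1, d2.1, fun h => hd12 h.symm, ⟨?_, hcut d1 hd1 hd1'⟩, ⟨?_, hcut d2 hd2 hd2'⟩⟩
    · intro h
      exact hd1' (hAF d1 hd1 h)
    · intro h
      exact hd2' (hAF d2 hd2 h)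

theorem card_le_of_F (F : Finset C) : (F.card : ℤ) ≤ Fintype.card C := by
  exact_mod_cast Finset.card_le_univ F

include hc hF in
/-- **First extremal estimate.** -/
theorem first_le : 2 * (F.card : ℤ) + 2 * Q R F w b ≤ 2 * Fintype.card C + 2 * nB R := by
  have h1 := Q_le hc hF
  have h2 := dft_nonneg hc hF
  have h3 := card_le_of_F F
  by_cases hP : 0 < Z (cW R F) (chi w)
  · have := chi_card hc hF hP
    linarith
  · linarith

include hc hF in
theorem first_eq (h : 2 * (F.card : ℤ) + 2 * Q R F w b = 2 * Fintype.card C + 2 * nB R) :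
    F = Finset.univ ∧ (∀ d, w d = 0) ∧ (∀ d, b d = 1) := by
  have h1 := Q_le hc hF
  have h2 := dft_nonneg hc hF
  have h3 := card_le_of_F F
  have hP : ¬ 0 < Z (cW R F) (chi w) := by
    intro hP
    have := chi_card hc hF hP
    linarith
  have h4 : 0 ≤ Z (cW R F) (chi w) := Z_nonneg _ _ (chi_nonneg w)
  have h5 : F.card = Fintype.card C := by
    have : (Fintype.card C : ℤ) ≤ F.card := by linarith
    have h6 : (Fintype.card C) ≤ F.card := by exact_mod_cast this
    exact le_antisymm (Finset.card_le_univ F) h6
  have hw : ∀ d, w d = 0 := by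
    intro d
    by_contra hd
    have he := even_w hc d
    rw [Nat.even_iff] at he
    have hd2 : 2 ≤ w d := by omega
    apply hP
    have := Z_lt (cW R F) (fun _ => 0) (chi w) (chi_nonneg w) (fun _ _ _ => rfl)
      (fun x y hxy => chi_congr (w_cW hc hF hxy)) d (by
        unfold chi
        rw [if_pos hd2]
        norm_num)
    have h0 : Z (cW R F) (fun _ => (0 : ℤ)) = 0 := by simp [Z]
    rw [h0] at this
    exact this
  refine ⟨(Finset.card_eq_iff_eq_univ F).1 h5, hw, ?_⟩
  intro d
  have := hc.adj d
  have := hw d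
  omega

/-- indicator of the marked darts -/
noncomputable def imk (R : Red C) (d : C × Bool) : ℤ := if R.mkd d then 1 else 0

theorem imk_cyc {x y : C × Bool} (h : (cyc R.pi) x y) : imk R x = imk R y := by
  have : cyc R.pi ≤ Setoid.ker (imk R) := by
    apply cyc_le
    intro d
    change imk R d = imk R (R.pi d)
    unfold imk
    simp only [R.mkd_pi d]
  exact this h

theorem nV_eq : nV R = Z (cyc R.pi) (imk R) := rfl

include hc in
theorem chi_le (d : C × Bool) : chi w d ≤ 1 - imk R d := by
  unfold chi imk
  by_cases h : R.mkd d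
  · rw [if_pos h, hc.mark d h]
    simp
  · rw [if_neg h]
    split_ifs <;> norm_num

theorem Z_one_sub : Z (cyc R.pi) (fun d => 1 - imk R d) = nW R - nV R := by
  rw [Z_sub, nV_eq]
  rfl

theorem nW_add_nB : nW R + nB R = Fintype.card C + 2 := R.planar

theorem cyc_le_cW : cyc R.pi ≤ cW R F := le_sup_left

include hc hF in
theorem second_aux : Z (cW R F) (chi w) ≤ Z (cyc R.pi) (chi w) ∧
    Z (cyc R.pi) (chi w) ≤ nW R - nV R := by
  constructor
  · exact Z_mono cyc_le_cW _ (fun x y hxy => chi_congr (w_cW hc hF hxy)) (chi_nonneg w)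
  · rw [← Z_one_sub]
    exact Z_mono_fun _ _ _ (chi_le hc)

include hc hF in
/-- **Second extremal estimate.** -/
theorem second_le : Q R F w b - F.card ≤ 2 + nW R - 2 * nV R := by
  have h1 := Q_le hc hF
  have h2 := dft_nonneg hc hF
  have h3 := second_aux hc hF
  have h4 := nW_add_nB (R := R)
  linarith [h3.1, h3.2]

include hc hF in
theorem second_eq (hK : ∀ c ∈ F, ¬ (R.mkd (c, false) ∧ R.mkd (c, true)))
    (h : Q R F w b - F.card = 2 + nW R - 2 * nV R) :
    F = ∅ ∧ (∀ d, w d = if R.mkd d then 0 else 2) ∧ (∀ d, b d = 1) := by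
  have h1 := Q_le hc hF
  have h2 := dft_nonneg hc hF
  have h3 := second_aux hc hF
  have h4 := nW_add_nB (R := R)
  have e1 : Z (cW R F) (chi w) = Z (cyc R.pi) (chi w) := by linarith [h3.1, h3.2]
  have e2 : Z (cyc R.pi) (chi w) = nW R - nV R := by linarith [h3.1, h3.2]
  have e3 : dft R F w b = 0 := by linarith [h3.1, h3.2]
  have hun : ∀ d, ¬ R.mkd d → 2 ≤ w d := by
    intro d hd
    by_contra hlt
    have := Z_lt (cyc R.pi) (chi w) (fun d => 1 - imk R d) (chi_le hc)
      (fun x y hxy => chi_congr (w_cyc hc hxy)) (fun x y hxy => by rw [imk_cyc hxy]) d (by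
        unfold chi imk
        rw [if_neg hlt, if_neg hd]
        norm_num)
    rw [Z_one_sub] at this
    linarith
  have hFe : F = ∅ := by
    rw [Finset.eq_empty_iff_forall_notMem]
    intro c hcF
    have hww := hF.1 c hcF
    have hw2 : 2 ≤ w (c, false) := by
      have := hK c hcF
      rw [not_and_or] at this
      rcases this with h5 | h5
      · exact hun _ h5
      · rw [hww]; exact hun _ h5
    by_cases hs : SameCycle R.pi (c, false) (c, true)
    · have := dft_pos hc hF c hcF hs hw2
      linarith
    · have hcw : (cW R F) (c, false) (c, true) := by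
        have h3 : (cW R F) (c, false) (twF F (c, false)) := comp_right _ _ _
        rwa [twF_mem (d := (c, false)) hcF] at h3
      have := Z_mono_strict (cyc_le_cW (R := R) (F := F)) (a := (c, false)) (b := (c, true)) hs hcw
        (chi w) (fun x y hxy => chi_congr (w_cW hc hF hxy)) (chi_nonneg w)
      have h6 : chi w (c, false) = 1 := by unfold chi; rw [if_pos hw2]
      linarith
  subst hFe
  have hb : ∀ d, b d = 1 := by
    have : {d | b d = 1} = Set.univ := by
      apply R.conn
      · obtain ⟨d, hd⟩ := R.mkd_ex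
        refine ⟨d, ?_⟩
        have h5 := hc.mark d hd
        have h6 := hc.adj d
        change b d = 1
        omega
      · intro d hd
        change b (R.pi d) = 1
        have h5 : b (flp (R.pi d)) = b (R.pi d) := by
          have := b_tw hF (R.pi d)
          rwa [twF_mem (by simp)] at this
        rw [← h5, hc.b_pi]
        exact hd
      · intro d hd
        change b (flp d) = 1
        have h5 : b (flp d) = b d := by
          have := b_tw hF d
          rwa [twF_mem (by simp)] at this
        rw [h5]
        exact hd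
    intro d
    have h' : d ∈ {d | b d = 1} := by rw [this]; trivial
    exact h'
  refine ⟨rfl, ?_, hb⟩
  intro d
  split_ifs with hm
  · exact hc.mark d hm
  · have h5 := hun d hm
    have h6 := hc.adj d
    have h7 := hb d
    omega

/-- value of `Q` at the first extremal state -/
theorem Q_first (hw : ∀ d, w d = 0) (hb : ∀ d, b d = 1) :
    Q R Finset.univ w b = nB R := by
  unfold Q
  simp only [hw, hb]
  simp [nB, Z]

/-- value of `Q` at the second extremal state -/
theorem Q_second (hw : ∀ d, w d = if R.mkd d then 0 else 2) (hb : ∀ d, b d = 1) :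
    Q R ∅ w b = 2 + nW R - 2 * nV R := by
  have h4 := nW_add_nB (R := R)
  have h1 : Z (cyc R.pi) (fun d => (w d : ℤ)) = 2 * (nW R - nV R) := by
    rw [← Z_one_sub, ← Z_mul]
    congr 1
    ext d
    rw [hw]
    unfold imk
    split_ifs <;> simp
  unfold Q
  rw [h1]
  simp only [hb]
  simp only [Finset.sum_empty, Finset.compl_empty, Nat.cast_one, Finset.sum_const,
    Finset.card_univ, nsmul_eq_mul, mul_one]
  change 2 * (nW R - nV R) + nB R - 0 - (Fintype.card C : ℤ) = _
  linarith

end Red

end H137SK
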