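import Pool.Agent.H137R3.SK.Fin

/-!
The extremal theorems in terms of state functions.
-/

namespace H137SK

set_option linter.unusedSectionVars false
set_option linter.unusedVariables false

open Equiv Equiv.Perm
open scoped Classical

theorem closed_inv {α : Type*} [Finite α] (ρ : Perm α) (A : Set α) (h : ∀ d ∈ A, ρ d ∈ A) :
    ∀ d ∈ A, ρ⁻¹ d ∈ A := by
  intro d hd
  have hs : SameCycle ρ d (ρ⁻¹ d) := ⟨-1, by simp⟩
  obtain ⟨k, hk⟩ := hs.exists_nat_pow_eq
  rw [← hk]
  clear hk
  induction k with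
  | zero => exact hd
  | succ k ih =>
    rw [pow_succ', Perm.mul_apply]
    exact h _ ih

namespace Red

variable {C : Type*} [Fintype C]

/-- crossings at which the state `s` has value `β` -/
noncomputable def Fs (s : C → Bool) (β : Bool) : Finset C := Finset.univ.filter (fun c => s c = β)

theorem mem_Fs {s : C → Bool} {β : Bool} {c : C} : c ∈ Fs s β ↔ s c = β := by
  simp [Fs]

variable {R : Red C} {w b : C × Bool → ℕ} (hc : R.IsCol w b) {s : C → Bool} {β : Bool}

/-- number of crossings with value `β` minus number of the others -/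
noncomputable def sgnS (s : C → Bool) (β : Bool) : ℤ := ∑ c, (if s c = β then (1 : ℤ) else -1)

theorem card_Fs : sgnS s β = 2 * ((Fs s β).card : ℤ) - Fintype.card C := by
  have h1 : ∀ c : C, (if s c = β then (1 : ℤ) else -1) =
      2 * (if s c = β then (1 : ℤ) else 0) - 1 := by
    intro c
    split_ifs <;> norm_num
  unfold sgnS
  simp only [h1]
  rw [Finset.sum_sub_distrib, ← Finset.mul_sum]
  simp [Fs]

theorem Q_Fs : Q R (Fs s β) w b =
    Z (cyc R.pi) (fun d => (w d : ℤ)) + Z (cyc (twF Finset.univ * R.pi)) (fun d => (b d : ℤ))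
    - ∑ c, (if s c = β then (w (c, false) : ℤ) else (b (c, false) : ℤ)) := by
  have h : ∑ c, (if s c = β then (w (c, false) : ℤ) else (b (c, false) : ℤ)) =
      ∑ c ∈ Fs s β, (w (c, false) : ℤ) + ∑ c ∈ (Fs s β)ᶜ, (b (c, false) : ℤ) := by
    rw [← Finset.sum_add_sum_compl (Fs s β)]
    congr 1
    · apply Finset.sum_congr rfl
      intro c hc
      rw [mem_Fs] at hc
      rw [if_pos hc]
    · apply Finset.sum_congr rfl
      intro c hc
      rw [Finset.mem_compl, mem_Fs] at hc
      rw [if_neg hc]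
  rw [h]
  unfold Q
  ring

/-- compatibility of a colouring with a state -/
def CompS (s : C → Bool) (β : Bool) (w b : C × Bool → ℕ) : Prop :=
  ∀ c, (s c = β → w (c, false) = w (c, true)) ∧ (s c ≠ β → b (c, false) = b (c, true))

theorem compat_of {s : C → Bool} {β : Bool} {w b : C × Bool → ℕ} (h : CompS s β w b) :
    Compat (Fs s β) w b := by
  constructor
  · intro c hc
    exact (h c).1 (mem_Fs.1 hc)
  · intro c hc
    exact (h c).2 (fun h' => hc (mem_Fs.2 h'))

/-- the exponent -/
noncomputable def QS (R : Red C) (s : C → Bool) (β : Bool) (w b : C × Bool → ℕ) : ℤ :=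
  Z (cyc R.pi) (fun d => (w d : ℤ)) + Z (cyc (twF Finset.univ * R.pi)) (fun d => (b d : ℤ))
    - ∑ c, (if s c = β then (w (c, false) : ℤ) else (b (c, false) : ℤ))

include hc in
theorem first_le' (h : CompS s β w b) :
    sgnS s β + 2 * QS R s β w b ≤ Fintype.card C + 2 * nB R := by
  have := first_le hc (compat_of h)
  rw [card_Fs]
  unfold QS
  rw [← Q_Fs]
  linarith

include hc in
theorem first_eq' (h : CompS s β w b)
    (he : sgnS s β + 2 * QS R s β w b = Fintype.card C + 2 * nB R) :
    (∀ c, s c = β) ∧ (∀ d, w d = 0) ∧ (∀ d, b d = 1) := by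
  rw [card_Fs] at he
  unfold QS at he
  rw [← Q_Fs] at he
  have := first_eq hc (compat_of h) (by linarith)
  refine ⟨?_, this.2⟩
  intro c
  have h1 : c ∈ Fs s β := by rw [this.1]; exact Finset.mem_univ _
  exact mem_Fs.1 h1

include hc in
theorem second_le' (h : CompS s β w b) :
    -sgnS s β + 2 * QS R s β w b ≤ Fintype.card C + 4 + 2 * nW R - 4 * nV R := by
  have := second_le hc (compat_of h)
  rw [card_Fs]
  unfold QS
  rw [← Q_Fs]
  linarith

include hc in
theorem second_eq' (h : CompS s β w b)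
    (hK : ∀ c, s c = β → ¬ (R.mkd (c, false) ∧ R.mkd (c, true)))
    (he : -sgnS s β + 2 * QS R s β w b = Fintype.card C + 4 + 2 * nW R - 4 * nV R) :
    (∀ c, s c ≠ β) ∧ (∀ d, w d = if R.mkd d then 0 else 2) ∧ (∀ d, b d = 1) := by
  rw [card_Fs] at he
  unfold QS at he
  rw [← Q_Fs] at he
  have := second_eq hc (compat_of h) (fun c hc => hK c (mem_Fs.1 hc)) (by linarith)
  refine ⟨?_, this.2⟩
  intro c h1
  have h2 : c ∈ Fs s β := mem_Fs.2 h1
  rw [this.1] at h2
  exact absurd h2 (Finset.notMem_empty c)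

theorem QS_first (hs : ∀ c, s c = β) (hw : ∀ d, w d = 0) (hb : ∀ d, b d = 1) :
    sgnS s β + 2 * QS R s β w b = Fintype.card C + 2 * nB R := by
  have h1 : Fs s β = Finset.univ := by
    ext c
    simp [mem_Fs, hs c]
  have h2 := Q_first (R := R) hw hb
  rw [← h1, Q_Fs] at h2
  unfold QS
  rw [h2, card_Fs, h1, Finset.card_univ]
  ring

theorem QS_second (hs : ∀ c, s c ≠ β) (hw : ∀ d, w d = if R.mkd d then 0 else 2)
    (hb : ∀ d, b d = 1) :
    -sgnS s β + 2 * QS R s β w b = Fintype.card C + 4 + 2 * nW R - 4 * nV R := by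
  have h1 : Fs s β = ∅ := by
    ext c
    simp [mem_Fs, hs c]
  have h2 := Q_second (R := R) hw hb
  rw [← h1, Q_Fs] at h2
  unfold QS
  rw [h2, card_Fs, h1, Finset.card_empty]
  push_cast
  ring

end Red

end H137SK
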