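import Pool.Agent.H137R3.SK.Euler

/-!
Reduced alternating diagrams and the two extremal estimates.
-/

namespace H137SK

set_option linter.unusedSectionVars false
set_option linter.unusedVariables false

open Equiv Equiv.Perm
open scoped Classical

/-- the other dart at the same crossing -/
def flp {C : Type*} (d : C × Bool) : C × Bool := (d.1, !d.2)

theorem flp_flp {C : Type*} (d : C × Bool) : flp (flp d) = d := by simp [flp]

/-- Reduced description of a connected planar diagram with marked white faces. -/
structure Red (C : Type*) [Fintype C] where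
  pi : Perm (C × Bool)
  mkd : C × Bool → Prop
  conn : ∀ A : Set (C × Bool), A.Nonempty → (∀ d ∈ A, pi d ∈ A) → (∀ d ∈ A, flp d ∈ A) →
    A = Set.univ
  planar : Z (cyc pi) (fun _ => 1) + Z (cyc (twF Finset.univ * pi)) (fun _ => 1) =
    Fintype.card C + 2
  mkd_pi : ∀ d, mkd (pi d) ↔ mkd d
  mkd_ex : ∃ d, mkd d
  ne1 : ∀ (x : C × Bool) (A : Set (C × Bool)), (∀ d ∈ A, pi d ∈ A) →
    (∀ d ∈ A, d.1 ≠ x.1 → flp d ∈ A) → x ∈ A → flp x ∉ A → ∃ d ∈ A, mkd d
  ne2 : ∀ (x : C × Bool) (A : Set (C × Bool)),
    (∀ d ∈ A, (swap (x.1, false) (x.1, true) * pi) d ∈ A) →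
    (∀ d ∈ A, d.1 ≠ x.1 → flp d ∈ A) → x ∈ A → flp x ∉ A →
    ∃ d, mkd d ∧ ∀ d', SameCycle pi d d' → d' ∈ A

variable {C : Type*} [Fintype C]

theorem twF_univ (d : C × Bool) : twF Finset.univ d = flp d := by
  simp [twF, tw_apply, flp]

theorem twF_mem {F : Finset C} {d : C × Bool} (h : d.1 ∈ F) : twF F d = flp d := by
  simp [twF, tw_apply, flp, h]

theorem twF_not_mem {F : Finset C} {d : C × Bool} (h : d.1 ∉ F) : twF F d = d := by
  simp [twF, tw_apply, h]

theorem twF_compl_mul (F : Finset C) : twF Fᶜ * twF Finset.univ = twF F := by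
  ext1 d
  rw [Perm.mul_apply, twF_univ]
  by_cases h : d.1 ∈ F
  · rw [twF_mem h, twF_not_mem]
    simpa [flp] using h
  · rw [twF_not_mem h, twF_mem, flp_flp]
    simpa [flp] using h

theorem swap_eq_twF (x : C) : swap (x, false) (x, true) = twF ({x} : Finset C) := by
  have := twF_insert (F := (∅ : Finset C)) (c := x) (by simp)
  rw [twF_empty, mul_one] at this
  rw [← this]
  rfl

theorem twF_erase_mul (x : C) :
    twF (Finset.univ.erase x) * swap (x, false) (x, true) = twF (Finset.univ : Finset C) := by
  rw [swap_eq_twF]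
  ext1 d
  rw [Perm.mul_apply, twF_univ]
  by_cases h : d.1 = x
  · have h1 : twF ({x} : Finset C) d = flp d := twF_mem (by simp [h])
    rw [h1]
    exact twF_not_mem (by simp [flp, h])
  · have h1 : twF ({x} : Finset C) d = d := twF_not_mem (by simp [h])
    rw [h1]
    exact twF_mem (by simp [h])

theorem Z_one_of_all {α : Type*} [Fintype α] (r : Setoid α) (h : ∀ x y, r x y) :
    Z r (fun _ => 1) ≤ 1 := by
  have h1 : Subsingleton (Quotient r) := by
    constructor
    intro a b
    induction a using Quotient.inductionOn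
    induction b using Quotient.inductionOn
    exact Quotient.sound (h _ _)
  rw [Z]
  simp only [Finset.sum_const, Finset.card_univ, nsmul_eq_mul, mul_one]
  have := Fintype.card_le_one_iff_subsingleton.2 h1
  exact_mod_cast this

namespace Red

variable (R : Red C)

/-- **Jordan curve lemma** for a crossing both of whose white corners lie in the same face. -/
theorem jordan (x : C) (hx : SameCycle R.pi (x, false) (x, true)) :
    ¬ (comp (swap (x, false) (x, true) * R.pi) (twF (Finset.univ.erase x)))
      (x, false) (x, true) := by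
  intro hrel
  set ρ := swap (x, false) (x, true) * R.pi with hρ
  set r := comp ρ (twF (Finset.univ.erase x)) with hr
  have hA : {d | r (x, false) d} = Set.univ := by
    apply R.conn
    · exact ⟨(x, false), r.refl _⟩
    · intro d hd
      have h1 : r (x, false) (ρ d) := r.trans hd (comp_left _ _ d)
      rw [hρ, Perm.mul_apply] at h1
      change r (x, false) (R.pi d)
      rcases eq_or_ne (R.pi d) (x, false) with h2 | h2
      · rw [h2]
      · rcases eq_or_ne (R.pi d) (x, true) with h3 | h3
        · rw [h3]; exact hrel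
        · rwa [swap_apply_of_ne_of_ne h2 h3] at h1
    · intro d hd
      by_cases h : d.1 = x
      · obtain ⟨e, b⟩ := d
        have h' : e = x := h
        subst h'
        cases b
        · exact hrel
        · exact r.refl _
      · have h1 : r d (twF (Finset.univ.erase x) d) := comp_right _ _ d
        rw [twF_mem (by simp [h])] at h1
        exact r.trans hd h1
  have hall : ∀ a b, r a b := by
    intro a b
    have ha : a ∈ {d | r (x, false) d} := by rw [hA]; trivial
    have hb : b ∈ {d | r (x, false) d} := by rw [hA]; trivial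
    exact r.trans (r.symm ha) hb
  have h1 := Z_one_of_all r hall
  have h2 := euler_weighted ρ (fun _ => 1) (fun _ => zero_le_one) (fun _ => rfl)
    (Finset.univ.erase x) (fun _ _ => rfl)
  have h3 : twF (Finset.univ.erase x) * ρ = twF Finset.univ * R.pi := by
    rw [hρ, ← mul_assoc, twF_erase_mul]
  have h4 := Z_swap_of_same R.pi (by simp) hx (fun _ => (1 : ℤ)) (fun _ => rfl) rfl
  rw [h3] at h2
  have h5 := R.planar
  have h6 : (∑ c ∈ Finset.univ.erase x, (1 : ℤ)) = Fintype.card C - 1 := by
    rw [Finset.sum_const, Finset.card_erase_of_mem (Finset.mem_univ _), Finset.card_univ]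
    have : 0 < Fintype.card C := Fintype.card_pos_iff.2 ⟨x⟩
    simp only [nsmul_eq_mul, mul_one]
    omega
  rw [h6] at h2
  rw [← hρ] at h4
  change Z (cyc ρ) (fun _ => 1) + _ ≤ 2 * Z r (fun _ => 1) + _ at h2
  linarith

/-- colourings of the faces -/
structure IsCol (w b : C × Bool → ℕ) : Prop where
  w_pi : ∀ d, w (R.pi d) = w d
  b_pi : ∀ d, b (flp (R.pi d)) = b d
  adj : ∀ d, w d = b d + 1 ∨ b d = w d + 1
  mark : ∀ d, R.mkd d → w d = 0

/-- compatibility with the state which joins the white corners exactly at `F` -/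
def Compat (F : Finset C) (w b : C × Bool → ℕ) : Prop :=
  (∀ c ∈ F, w (c, false) = w (c, true)) ∧ (∀ c ∉ F, b (c, false) = b (c, true))

variable {R} {w b : C × Bool → ℕ} (hc : R.IsCol w b) {F : Finset C} (hF : Compat F w b)

include hc in
theorem adj' (d : C × Bool) : w d = b (flp d) + 1 ∨ b (flp d) = w d + 1 := by
  have h1 := hc.adj (R.pi⁻¹ d)
  have h2 := hc.w_pi (R.pi⁻¹ d)
  have h3 := hc.b_pi (R.pi⁻¹ d)
  have h4 : R.pi (R.pi⁻¹ d) = d := by simp
  rw [h4] at h2 h3
  rw [← h2, ← h3] at h1
  exact h1

include hc in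
theorem even_w (d : C × Bool) : Even (w d) := by
  have : {d | Even (w d)} = Set.univ := by
    apply R.conn
    · obtain ⟨d, hd⟩ := R.mkd_ex
      exact ⟨d, by rw [Set.mem_ofPred_eq, hc.mark d hd]; exact Even.zero⟩
    · intro d hd
      rw [Set.mem_ofPred_eq, hc.w_pi]
      exact hd
    · intro d hd
      rw [Set.mem_ofPred_eq] at hd ⊢
      have h1 := adj' hc d
      have h2 := hc.adj (flp d)
      rw [Nat.even_iff] at hd ⊢
      omega
  have h : d ∈ {d | Even (w d)} := by rw [this]; trivial
  exact h

include hF in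
theorem w_tw (d : C × Bool) : w (twF F d) = w d := by
  by_cases h : d.1 ∈ F
  · rw [twF_mem h]
    obtain ⟨c, b⟩ := d
    have := hF.1 c h
    cases b
    · exact this.symm
    · exact this
  · rw [twF_not_mem h]

include hF in
theorem b_tw (d : C × Bool) : b (twF Fᶜ d) = b d := by
  by_cases h : d.1 ∈ F
  · rw [twF_not_mem (by simpa using h)]
  · rw [twF_mem (by simpa using h)]
    obtain ⟨c, b⟩ := d
    have := hF.2 c h
    cases b
    · exact this.symm
    · exact this

/-- white regions of the state -/
noncomputable def cW (R : Red C) (F : Finset C) : Setoid (C × Bool) := comp R.pi (twF F)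

/-- black regions of the state -/
noncomputable def cB (R : Red C) (F : Finset C) : Setoid (C × Bool) :=
  comp (twF Finset.univ * R.pi) (twF Fᶜ)

/-- circles of the state -/
noncomputable def cK (R : Red C) (F : Finset C) : Setoid (C × Bool) := cyc (twF F * R.pi)

theorem cK_le_cW (R : Red C) (F : Finset C) : cK R F ≤ cW R F := by
  apply cyc_le
  intro x
  rw [Perm.mul_apply]
  exact Setoid.trans' _ (comp_left _ _ x) (comp_right _ _ _)

theorem cK_le_cB (R : Red C) (F : Finset C) : cK R F ≤ cB R F := by
  apply cyc_le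
  intro x
  rw [← twF_compl_mul F, mul_assoc, Perm.mul_apply]
  exact Setoid.trans' _ (comp_left _ _ x) (comp_right _ _ _)

include hc hF in
theorem w_cW {x y : C × Bool} (h : (cW R F) x y) : w x = w y := by
  have : cW R F ≤ Setoid.ker w := comp_le (fun x => (hc.w_pi x).symm) (fun x => (w_tw hF x).symm)
  exact this h

include hc hF in
theorem b_cB {x y : C × Bool} (h : (cB R F) x y) : b x = b y := by
  have : cB R F ≤ Setoid.ker b := comp_le
    (fun x => by
      change b x = b ((twF (Finset.univ : Finset C) * R.pi : Perm (C × Bool)) x)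
      rw [Perm.mul_apply, twF_univ]; exact (hc.b_pi x).symm)
    (fun x => (b_tw hF x).symm)
  exact this h

include hc in
theorem w_cyc {x y : C × Bool} (h : (cyc R.pi) x y) : w x = w y := by
  have : cyc R.pi ≤ Setoid.ker w := cyc_le _ _ (fun x => (hc.w_pi x).symm)
  exact this h

/-- indicator of colour at least two -/
noncomputable def chi (w : C × Bool → ℕ) (d : C × Bool) : ℤ := if 2 ≤ w d then 1 else 0
noncomputable def ew (w : C × Bool → ℕ) (d : C × Bool) : ℤ := (w d : ℤ) - chi w d
noncomputable def eb (b : C × Bool → ℕ) (d : C × Bool) : ℤ := (b d : ℤ) - 1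
noncomputable def mx (w b : C × Bool → ℕ) (d : C × Bool) : ℤ := max (ew w d) (eb b d)

include hc in
theorem ew_nonneg (d : C × Bool) : 0 ≤ ew w d := by
  unfold ew chi
  split_ifs with h
  · linarith [show (2 : ℤ) ≤ w d by exact_mod_cast h]
  · simp

include hc in
theorem b_pos (d : C × Bool) : 1 ≤ b d := by
  have h1 := even_w hc d
  rcases hc.adj d with h | h
  · rw [h, Nat.even_iff] at h1
    omega
  · omega

include hc in
theorem eb_nonneg (d : C × Bool) : 0 ≤ eb b d := by
  have := b_pos hc d
  unfold eb
  omega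

theorem chi_nonneg (w : C × Bool → ℕ) (d : C × Bool) : 0 ≤ chi w d := by
  unfold chi
  split_ifs <;> simp

include hc in
theorem ew_add_eb (d : C × Bool) : ew w d + eb b d = 2 * mx w b d - chi w d := by
  have h1 := even_w hc d
  have h2 := hc.adj d
  rw [Nat.even_iff] at h1
  unfold mx
  rcases h2 with h | h
  · have h3 : 2 ≤ w d := by omega
    have : chi w d = 1 := by simp [chi, h3]
    rw [ew, eb, this, max_eq_left (by omega)]
    omega
  · by_cases h3 : 2 ≤ w d
    · have : chi w d = 1 := by simp [chi, h3]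
      rw [ew, eb, this, max_eq_right (by omega)]
      omega
    · have : chi w d = 0 := by simp [chi, h3]
      rw [ew, eb, this, max_eq_right (by omega)]
      omega

include hc in
theorem mx_nonneg (d : C × Bool) : 0 ≤ mx w b d := le_max_of_le_left (ew_nonneg hc d)

/-- the exponent of a coloured state -/
noncomputable def Q (R : Red C) (F : Finset C) (w b : C × Bool → ℕ) : ℤ :=
  Z (cyc R.pi) (fun d => (w d : ℤ)) + Z (cyc (twF Finset.univ * R.pi)) (fun d => (b d : ℤ))
    - ∑ c ∈ F, (w (c, false) : ℤ) - ∑ c ∈ Fᶜ, (b (c, false) : ℤ)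

/-- number of black faces -/
noncomputable def nB (R : Red C) : ℤ := Z (cyc (twF Finset.univ * R.pi)) (fun _ => 1)
/-- number of white faces -/
noncomputable def nW (R : Red C) : ℤ := Z (cyc R.pi) (fun _ => 1)
/-- number of marked white faces -/
noncomputable def nV (R : Red C) : ℤ := Z (cyc R.pi) (fun d => if R.mkd d then 1 else 0)

/-- the defect in the growth estimate -/
noncomputable def dft (R : Red C) (F : Finset C) (w b : C × Bool → ℕ) : ℤ :=
  Z (cK R F) (mx w b) - (Z (cW R F) (ew w) + Z (cB R F) (eb b))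

include hc hF in
theorem Q_le : Q R F w b ≤
    2 * Z (cW R F) (chi w) + nB R - Fintype.card C + F.card - 2 * dft R F w b := by
  have hchi : ∀ {x y : C × Bool}, w x = w y → chi w x = chi w y := by
    intro x y h; unfold chi; rw [h]
  have hew : ∀ {x y : C × Bool}, w x = w y → ew w x = ew w y := by
    intro x y h; unfold ew; rw [h, hchi h]
  have heb : ∀ {x y : C × Bool}, b x = b y → eb b x = eb b y := by
    intro x y h; unfold eb; rw [h]
  have E1 := euler_weighted R.pi (ew w) (ew_nonneg hc) (fun x => hew (hc.w_pi x)) F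
    (fun c h => hew (hF.1 c h))
  have E3 := euler_weighted R.pi (chi w) (chi_nonneg w) (fun x => hchi (hc.w_pi x)) F
    (fun c h => hchi (hF.1 c h))
  have E2 := euler_weighted (twF Finset.univ * R.pi) (eb b) (eb_nonneg hc)
    (fun x => heb (by rw [Perm.mul_apply, twF_univ]; exact hc.b_pi x)) Fᶜ
    (fun c h => heb (hF.2 c (by simpa using h)))
  rw [← mul_assoc, twF_compl_mul] at E2
  have I1 : Z (cyc (twF F * R.pi)) (ew w) + Z (cyc (twF F * R.pi)) (eb b) =
      2 * Z (cyc (twF F * R.pi)) (mx w b) - Z (cyc (twF F * R.pi)) (chi w) := by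
    rw [← Z_add, ← Z_mul, ← Z_sub]
    congr 1
    ext d
    exact ew_add_eb hc d
  have I2 : Z (cyc R.pi) (fun d => (w d : ℤ)) = Z (cyc R.pi) (ew w) + Z (cyc R.pi) (chi w) := by
    rw [← Z_add]
    congr 1
    ext d
    unfold ew
    ring
  have I3 : Z (cyc (twF Finset.univ * R.pi)) (fun d => (b d : ℤ)) =
      Z (cyc (twF Finset.univ * R.pi)) (eb b) + nB R := by
    rw [nB, ← Z_add]
    congr 1
    ext d
    unfold eb
    ring
  have I4 : ∑ c ∈ F, (w (c, false) : ℤ) = ∑ c ∈ F, ew w (c, false) + ∑ c ∈ F, chi w (c, false) := by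
    rw [← Finset.sum_add_distrib]
    apply Finset.sum_congr rfl
    intro c _
    unfold ew
    ring
  have I5 : ∑ c ∈ Fᶜ, (b (c, false) : ℤ) = ∑ c ∈ Fᶜ, eb b (c, false) +
      (Fintype.card C - F.card) := by
    have : (Fintype.card C : ℤ) - F.card = ∑ c ∈ Fᶜ, (1 : ℤ) := by
      rw [Finset.sum_const, Finset.card_compl, nsmul_eq_mul, mul_one,
        Nat.cast_sub (Finset.card_le_univ F)]
    rw [this, ← Finset.sum_add_distrib]
    apply Finset.sum_congr rfl
    intro c _
    unfold eb
    ring
  unfold Q dft
  rw [I2, I3, I4, I5]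
  unfold cK cW cB
  linarith

end Red

end H137SK
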