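import Pool.Agent.H137R3.SK.Fin
import Pool.Agent.H137R3.SK.Alg

/-!
From 4-valent diagrams to reduced diagrams.
-/

namespace H137SK

set_option linter.unusedSectionVars false
set_option linter.unusedVariables false

open Equiv Equiv.Perm
open scoped Classical

variable {g n : ℕ} {D : Diagram g n}

/-- checkerboard data -/
structure Frame (D : Diagram g n) where
  κ : D.Face → Bool
  κ_adj : ∀ h, κ (D.face h) ≠ κ (D.face (rot⁻¹ h))
  κ_ext : ∀ f f', D.External f → D.External f' → κ f = κ f'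
  w0 : ZMod 4
  hw : ∀ h : HE n, κ (D.face h) = κ (D.hole 0) ↔ (h.2 = w0 ∨ h.2 = w0 + 2)
  w01 : w0 = 0 ∨ w0 = 1

theorem rot_apply (h : HE n) : rot h = (h.1, h.2 + 1) := rfl
theorem rot_inv_apply (h : HE n) : rot⁻¹ h = (h.1, h.2 - 1) := rfl
theorem rot_inv_rot (h : HE n) : rot⁻¹ (rot h) = h := by simp
theorem rot_rot_inv (h : HE n) : rot (rot⁻¹ h) = h := by simp

theorem face_facePerm (h : HE n) : D.face (D.facePerm h) = D.face h :=
  Quotient.sound (SameCycle.symm ⟨1, by simp⟩)

theorem facePerm_apply (h : HE n) : D.facePerm h = rot⁻¹ (D.glue h) := rfl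

theorem isOver_rot (h : HE n) : isOver (rot h) ↔ ¬ isOver h := by
  obtain ⟨c, i⟩ := h
  unfold isOver
  rw [rot_apply]
  change (i + 1 = 1 ∨ i + 1 = 3) ↔ ¬ (i = 1 ∨ i = 3)
  revert i
  decide

theorem exists_frame (hconn : D.Connected) (halt : D.Alternating) (hZ : D.Z2Trivial) :
    Nonempty (Frame D) := by
  obtain ⟨κ, hκ1, hκ2⟩ := hZ
  let white : HE n → Prop := fun h => κ (D.face h) = κ (D.hole 0)
  have hrot : ∀ h, white (rot h) ↔ ¬ white h := by
    intro h
    have h1 := hκ1 (rot h)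
    rw [rot_inv_rot] at h1
    change κ (D.face (rot h)) = κ (D.hole 0) ↔ ¬ κ (D.face h) = κ (D.hole 0)
    cases h2 : κ (D.face (rot h)) <;> cases h3 : κ (D.face h) <;> cases h4 : κ (D.hole 0) <;>
      simp_all
  have hglue : ∀ h, white (D.glue h) ↔ ¬ white h := by
    intro h
    have h1 := hrot (rot⁻¹ (D.glue h))
    rw [rot_rot_inv, ← facePerm_apply] at h1
    have h2 : white (D.facePerm h) ↔ white h := by
      change κ (D.face (D.facePerm h)) = _ ↔ _
      rw [face_facePerm]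
    rw [h1, h2]
  by_cases hA : {h | isOver h ↔ white h}.Nonempty
  · have h1 := hconn _ hA
      (fun h hh => by
        change isOver (D.glue h) ↔ white (D.glue h)
        rw [halt, hglue]
        exact not_congr hh)
      (fun h hh => by
        change isOver (rot h) ↔ white (rot h)
        rw [isOver_rot, hrot]
        exact not_congr hh)
    refine ⟨⟨κ, hκ1, hκ2, 1, fun h => ?_, Or.inr rfl⟩⟩
    have h2 : h ∈ {h | isOver h ↔ white h} := by rw [h1]; trivial
    exact (h2 : isOver h ↔ white h).symm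
  · refine ⟨⟨κ, hκ1, hκ2, 0, fun h => ?_, Or.inl rfl⟩⟩
    have h2 : ¬ (isOver h ↔ white h) := fun h' => hA ⟨h, h'⟩
    have h3 : ¬ isOver h ↔ (h.2 = 0 ∨ h.2 = 0 + 2) := by
      obtain ⟨c, i⟩ := h
      change ¬ (i = 1 ∨ i = 3) ↔ (i = 0 ∨ i = 0 + 2)
      clear h2
      revert i
      decide
    rw [← h3]
    change white h ↔ ¬ isOver h
    tauto

namespace Frame

variable (fr : Frame D)

/-- the white half-edge of a dart -/
def hh (d : Fin n × Bool) : HE n := (d.1, fr.w0 + (if d.2 then 2 else 0))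

/-- the dart of a half-edge -/
def dt (h : HE n) : Fin n × Bool := (h.1, decide (h.2 = fr.w0 + 2 ∨ h.2 = fr.w0 + 3))

theorem dt_hh (d : Fin n × Bool) : fr.dt (fr.hh d) = d := by
  obtain ⟨c, b⟩ := d
  unfold dt hh
  have : ∀ (w : ZMod 4) (b : Bool), decide (w + (if b then 2 else 0) = w + 2 ∨
      w + (if b then 2 else 0) = w + 3) = b := by decide
  simp only [this]

theorem dt_rot_hh (d : Fin n × Bool) : fr.dt (rot (fr.hh d)) = d := by
  obtain ⟨c, b⟩ := d
  unfold dt hh
  rw [rot_apply]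
  have : ∀ (w : ZMod 4) (b : Bool), decide (w + (if b then 2 else 0) + 1 = w + 2 ∨
      w + (if b then 2 else 0) + 1 = w + 3) = b := by decide
  simp only [this]

/-- is the half-edge white? -/
def white (h : HE n) : Prop := fr.κ (D.face h) = fr.κ (D.hole 0)

theorem white_iff (h : HE n) : fr.white h ↔ (h.2 = fr.w0 ∨ h.2 = fr.w0 + 2) := fr.hw h

theorem white_hh (d : Fin n × Bool) : fr.white (fr.hh d) := by
  rw [white_iff]
  obtain ⟨c, b⟩ := d
  unfold hh
  cases b <;> simp

theorem hh_dt {h : HE n} (hh : fr.white h) : fr.hh (fr.dt h) = h := by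
  rw [white_iff] at hh
  obtain ⟨c, i⟩ := h
  unfold dt Frame.hh
  have : ∀ (w i : ZMod 4), (i = w ∨ i = w + 2) →
      w + (if decide (i = w + 2 ∨ i = w + 3) = true then 2 else 0) = i := by decide
  ext1
  · rfl
  · exact this _ _ hh

theorem white_rot (h : HE n) : fr.white (rot h) ↔ ¬ fr.white h := by
  have h1 := fr.κ_adj (rot h)
  rw [rot_inv_rot] at h1
  change fr.κ (D.face (rot h)) = fr.κ (D.hole 0) ↔ ¬ fr.κ (D.face h) = fr.κ (D.hole 0)
  cases h2 : fr.κ (D.face (rot h)) <;> cases h3 : fr.κ (D.face h) <;>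
    cases h4 : fr.κ (D.hole 0) <;> simp_all

theorem white_rot_inv (h : HE n) : fr.white (rot⁻¹ h) ↔ ¬ fr.white h := by
  have := fr.white_rot (rot⁻¹ h)
  rw [rot_rot_inv] at this
  tauto

theorem white_facePerm (h : HE n) : fr.white (D.facePerm h) ↔ fr.white h := by
  change fr.κ (D.face (D.facePerm h)) = _ ↔ _
  rw [face_facePerm]
  rfl

theorem white_glue (h : HE n) : fr.white (D.glue h) ↔ ¬ fr.white h := by
  have h1 := fr.white_rot (rot⁻¹ (D.glue h))
  rw [rot_rot_inv, ← facePerm_apply, white_facePerm] at h1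
  exact h1

theorem white_facePerm_symm (h : HE n) : fr.white (D.facePerm⁻¹ h) ↔ fr.white h := by
  have := fr.white_facePerm (D.facePerm⁻¹ h)
  rw [show D.facePerm (D.facePerm⁻¹ h) = h by simp] at this
  exact this.symm

/-- the face permutation on darts -/
def pi : Perm (Fin n × Bool) where
  toFun d := fr.dt (D.facePerm (fr.hh d))
  invFun d := fr.dt (D.facePerm⁻¹ (fr.hh d))
  left_inv d := by
    beta_reduce
    rw [hh_dt, show D.facePerm⁻¹ (D.facePerm (fr.hh d)) = fr.hh d by simp, dt_hh]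
    rw [white_facePerm]
    exact fr.white_hh d
  right_inv d := by
    beta_reduce
    rw [hh_dt, show D.facePerm (D.facePerm⁻¹ (fr.hh d)) = fr.hh d by simp, dt_hh]
    rw [white_facePerm_symm]
    exact fr.white_hh d

theorem hh_pi (d : Fin n × Bool) : fr.hh (fr.pi d) = D.facePerm (fr.hh d) := by
  change fr.hh (fr.dt (D.facePerm (fr.hh d))) = _
  rw [hh_dt]
  rw [white_facePerm]
  exact fr.white_hh d

theorem glue_hh (d : Fin n × Bool) : D.glue (fr.hh d) = rot (fr.hh (fr.pi d)) := by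
  rw [hh_pi, facePerm_apply, rot_rot_inv]

theorem glue_rot_hh (d : Fin n × Bool) : D.glue (rot (fr.hh (fr.pi d))) = fr.hh d := by
  rw [← glue_hh, D.glue_glue]

theorem glue_rot_hh' (d : Fin n × Bool) : D.glue (rot (fr.hh d)) = fr.hh (fr.pi⁻¹ d) := by
  have := fr.glue_rot_hh (fr.pi⁻¹ d)
  rwa [show fr.pi (fr.pi⁻¹ d) = d by simp] at this

theorem rot_rot_hh (d : Fin n × Bool) : rot (rot (fr.hh d)) = fr.hh (flp d) := by
  obtain ⟨c, b⟩ := d
  unfold hh flp
  rw [rot_apply, rot_apply]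
  have : ∀ (w : ZMod 4) (b : Bool), w + (if b then 2 else 0) + 1 + 1 =
      w + (if (!b) = true then 2 else 0) := by decide
  ext1
  · rfl
  · exact this _ _

theorem rot_inv_hh (d : Fin n × Bool) : rot⁻¹ (fr.hh d) = rot (fr.hh (flp d)) := by
  have := fr.rot_rot_hh (flp d)
  rw [flp_flp] at this
  rw [← this, rot_inv_rot]

theorem facePerm_rot_hh (d : Fin n × Bool) :
    D.facePerm (rot (fr.hh (fr.pi d))) = rot (fr.hh (flp d)) := by
  rw [facePerm_apply, glue_rot_hh, rot_inv_hh]

theorem hh_or (h : HE n) : h = fr.hh (fr.dt h) ∨ h = rot (fr.hh (fr.dt h)) := by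
  by_cases hw : fr.white h
  · left; exact (fr.hh_dt hw).symm
  · right
    have h1 : fr.white (rot⁻¹ h) := by rw [white_rot_inv]; exact hw
    have h2 := fr.hh_dt h1
    have h3 := fr.dt_rot_hh (fr.dt (rot⁻¹ h))
    rw [h2, rot_rot_inv] at h3
    rw [h3, h2, rot_rot_inv]

theorem hh_inj {d d' : Fin n × Bool} (h : fr.hh d = fr.hh d') : d = d' := by
  rw [← fr.dt_hh d, h, fr.dt_hh]

theorem rot_hh_inj {d d' : Fin n × Bool} (h : rot (fr.hh d) = rot (fr.hh d')) : d = d' := by
  rw [← fr.dt_rot_hh d, h, fr.dt_rot_hh]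

theorem hh_ne_rot (d d' : Fin n × Bool) : fr.hh d ≠ rot (fr.hh d') := by
  intro h
  have h1 := fr.white_hh d
  rw [h, white_rot] at h1
  exact h1 (fr.white_hh d')

/-- white face of a dart -/
def fw (d : Fin n × Bool) : D.Face := D.face (fr.hh d)

/-- black face of a dart -/
def fb (d : Fin n × Bool) : D.Face := D.face (rot (fr.hh (flp d)))

theorem fb_eq (d : Fin n × Bool) : fr.fb d = D.face (rot⁻¹ (fr.hh d)) := by
  rw [rot_inv_hh]
  rfl

theorem fw_pi (d : Fin n × Bool) : fr.fw (fr.pi d) = fr.fw d := by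
  unfold fw
  rw [hh_pi, face_facePerm]

theorem fb_pi (d : Fin n × Bool) : fr.fb (flp (fr.pi d)) = fr.fb d := by
  unfold fb
  rw [flp_flp, ← face_facePerm, facePerm_rot_hh]

theorem κ_fw (d : Fin n × Bool) : fr.κ (fr.fw d) = fr.κ (D.hole 0) := fr.white_hh d

theorem κ_fb (d : Fin n × Bool) : fr.κ (fr.fb d) ≠ fr.κ (D.hole 0) := by
  have : ¬ fr.white (rot (fr.hh (flp d))) := by
    rw [white_rot]
    exact fun h => h (fr.white_hh _)
  exact this

theorem κ_ext0 {f : D.Face} (hf : D.External f) : fr.κ f = fr.κ (D.hole 0) :=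
  fr.κ_ext _ _ hf ⟨0, rfl⟩

theorem face_eq (h : HE n) : D.face h = fr.fw (fr.dt h) ∨ D.face h = fr.fb (flp (fr.dt h)) := by
  rcases fr.hh_or h with h1 | h1
  · left; unfold fw; rw [← h1]
  · right; unfold fb; rw [flp_flp, ← h1]

theorem surj_face (f : D.Face) : (∃ d, f = fr.fw d) ∨ (∃ d, f = fr.fb d) := by
  induction f using Quotient.inductionOn with
  | _ h =>
    rcases fr.face_eq h with h1 | h1
    · exact Or.inl ⟨_, h1⟩
    · exact Or.inr ⟨_, h1⟩

theorem sameCycle_of_semiconj {α β : Type*} [Finite β] (ρ : Perm α) (f : Perm β) (φ : α → β)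
    (hφ : Function.Injective φ) (h : ∀ x, φ (ρ x) = f (φ x)) {x y : α}
    (hs : SameCycle f (φ x) (φ y)) : SameCycle ρ x y := by
  obtain ⟨k, hk⟩ := hs.exists_nat_pow_eq
  have : ∀ k : ℕ, (f ^ k) (φ x) = φ ((ρ ^ k) x) := by
    intro k
    induction k with
    | zero => rfl
    | succ k ih => rw [pow_succ', Perm.mul_apply, ih, pow_succ', Perm.mul_apply, h]
  rw [this] at hk
  exact ⟨k, by rw [zpow_natCast]; exact hφ hk⟩

theorem fw_inj {d d' : Fin n × Bool} (h : fr.fw d = fr.fw d') : (cyc fr.pi) d d' := by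
  have h1 : SameCycle D.facePerm (fr.hh d) (fr.hh d') := Quotient.exact h
  exact sameCycle_of_semiconj fr.pi D.facePerm fr.hh (fun _ _ h => fr.hh_inj h) fr.hh_pi h1

theorem fb_inj {d d' : Fin n × Bool} (h : fr.fb d = fr.fb d') :
    (cyc (twF Finset.univ * fr.pi)) d d' := by
  have h1 : SameCycle D.facePerm (rot (fr.hh (flp d))) (rot (fr.hh (flp d'))) := Quotient.exact h
  have h2 : SameCycle (twF Finset.univ * fr.pi)⁻¹ d d' := by
    apply sameCycle_of_semiconj (twF Finset.univ * fr.pi)⁻¹ D.facePerm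
      (fun d => rot (fr.hh (flp d))) ?_ ?_ h1
    · intro a b hab
      have := fr.rot_hh_inj hab
      rw [← flp_flp a, this, flp_flp]
    · intro x
      obtain ⟨y, hy⟩ : ∃ y, x = (twF Finset.univ * fr.pi : Perm (Fin n × Bool)) y :=
        ⟨(twF Finset.univ * fr.pi : Perm (Fin n × Bool))⁻¹ x, by simp⟩
      have h3 : (twF Finset.univ * fr.pi : Perm (Fin n × Bool))⁻¹ x = y := by rw [hy]; simp
      rw [h3, hy, Perm.mul_apply, twF_univ, flp_flp, facePerm_rot_hh]
  rwa [sameCycle_inv] at h2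

theorem fw_cyc {d d' : Fin n × Bool} (h : (cyc fr.pi) d d') : fr.fw d = fr.fw d' := by
  have : cyc fr.pi ≤ Setoid.ker fr.fw := cyc_le _ _ (fun x => (fr.fw_pi x).symm)
  exact this h

theorem fb_cyc {d d' : Fin n × Bool} (h : (cyc (twF Finset.univ * fr.pi)) d d') :
    fr.fb d = fr.fb d' := by
  have : cyc (twF Finset.univ * fr.pi) ≤ Setoid.ker fr.fb := cyc_le _ _ (fun x => by
    change fr.fb x = fr.fb ((twF (Finset.univ : Finset (Fin n)) * fr.pi : Perm _) x)
    rw [Perm.mul_apply, twF_univ, fb_pi])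
  exact this h

/-- sums over the faces -/
theorem sum_face (G : D.Face → ℤ) : ∑ f : D.Face, G f =
    Z (cyc fr.pi) (fun d => G (fr.fw d)) +
      Z (cyc (twF Finset.univ * fr.pi)) (fun d => G (fr.fb d)) := by
  let Φ : Quotient (cyc fr.pi) ⊕ Quotient (cyc (twF Finset.univ * fr.pi)) → D.Face :=
    Sum.elim (fun q => fr.fw q.out) (fun q => fr.fb q.out)
  have hΦ : Function.Bijective Φ := by
    constructor
    · rintro (a | a) (b | b) hab
      · have h1 := fr.fw_inj hab
        have h2 := Quotient.sound h1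
        rw [Quotient.out_eq, Quotient.out_eq] at h2
        rw [h2]
      · exfalso
        have h1 : fr.fw a.out = fr.fb b.out := hab
        exact fr.κ_fb b.out (by rw [← h1]; exact fr.κ_fw _)
      · exfalso
        have h1 : fr.fb a.out = fr.fw b.out := hab
        exact fr.κ_fb a.out (by rw [h1]; exact fr.κ_fw _)
      · have h1 := fr.fb_inj hab
        have h2 := Quotient.sound h1
        rw [Quotient.out_eq, Quotient.out_eq] at h2
        rw [h2]
    · intro f
      rcases fr.surj_face f with ⟨d, hd⟩ | ⟨d, hd⟩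
      · refine ⟨Sum.inl (Quotient.mk _ d), ?_⟩
        change fr.fw _ = f
        rw [hd]
        exact fr.fw_cyc (out_rel _ d)
      · refine ⟨Sum.inr (Quotient.mk _ d), ?_⟩
        change fr.fb _ = f
        rw [hd]
        exact fr.fb_cyc (out_rel _ d)
  rw [← hΦ.sum_comp, Fintype.sum_sum_type]
  rfl

end Frame

end H137SK
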