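import Pool.Agent.H137R3.SK.Fin2
import Pool.Agent.H137R3.SK.Trans

/-!
The reduced diagram of a 4-valent diagram.
-/

namespace H137SK

set_option linter.unusedSectionVars false
set_option linter.unusedVariables false

open Equiv Equiv.Perm
open scoped Classical

variable {g n : ℕ} {D : Diagram g n}

namespace Frame

variable (fr : Frame D)

/-- a dart is marked if its white face is external -/
def mkd (d : Fin n × Bool) : Prop := D.External (fr.fw d)

theorem red_conn (hconn : D.Connected) (A : Set (Fin n × Bool)) (hne : A.Nonempty)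
    (h1 : ∀ d ∈ A, fr.pi d ∈ A) (h2 : ∀ d ∈ A, flp d ∈ A) : A = Set.univ := by
  have h1' := closed_inv fr.pi A h1
  have hA : {h | fr.dt h ∈ A} = Set.univ := by
    apply hconn
    · obtain ⟨d, hd⟩ := hne
      refine ⟨fr.hh d, ?_⟩
      change fr.dt (fr.hh d) ∈ A
      rwa [fr.dt_hh]
    · intro h hh
      change fr.dt (D.glue h) ∈ A
      have hh' : fr.dt h ∈ A := hh
      rcases fr.hh_or h with h3 | h3
      · rw [h3, fr.glue_hh, fr.dt_rot_hh]
        exact h1 _ hh'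
      · rw [h3, fr.glue_rot_hh', fr.dt_hh]
        exact h1' _ hh'
    · intro h hh
      change fr.dt (rot h) ∈ A
      have hh' : fr.dt h ∈ A := hh
      rcases fr.hh_or h with h3 | h3
      · rw [h3, fr.dt_rot_hh]
        exact hh'
      · rw [h3, fr.rot_rot_hh, fr.dt_hh]
        exact h2 _ hh'
  ext d
  constructor
  · intro _; trivial
  · intro _
    have h3 : fr.hh d ∈ {h | fr.dt h ∈ A} := by rw [hA]; trivial
    have h4 : fr.dt (fr.hh d) ∈ A := h3
    rwa [fr.dt_hh] at h4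

theorem ext_fw {f : D.Face} (hf : D.External f) : ∃ d, f = fr.fw d := by
  rcases fr.surj_face f with h | ⟨d, hd⟩
  · exact h
  · exfalso
    apply fr.κ_fb d
    rw [← hd]
    exact fr.κ_ext0 hf

theorem hh_pair (x : Fin n × Bool) (i : ZMod 4) (hi : i = (fr.hh x).2) :
    ((x.1, i) : HE n) = fr.hh x ∧ ((x.1, i + 1) : HE n) = rot (fr.hh x) ∧
    ((x.1, i + 2) : HE n) = fr.hh (flp x) ∧ ((x.1, i + 3) : HE n) = rot (fr.hh (flp x)) := by
  subst hi
  refine ⟨rfl, rfl, ?_, ?_⟩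
  · rw [← fr.rot_rot_hh, rot_apply, rot_apply]
    ext1
    · rfl
    · change (fr.hh x).2 + 2 = (fr.hh x).2 + 1 + 1
      rw [add_assoc]
      rfl
  · rw [← fr.rot_rot_hh, rot_apply, rot_apply, rot_apply]
    ext1
    · rfl
    · change (fr.hh x).2 + 3 = (fr.hh x).2 + 1 + 1 + 1
      rw [add_assoc, add_assoc]
      rfl

theorem red_ne1 (hex : ∀ c, ¬ D.Excluded c) (x : Fin n × Bool) (A : Set (Fin n × Bool))
    (h1 : ∀ d ∈ A, fr.pi d ∈ A) (h2 : ∀ d ∈ A, d.1 ≠ x.1 → flp d ∈ A) (hx : x ∈ A)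
    (hx' : flp x ∉ A) : ∃ d ∈ A, fr.mkd d := by
  by_contra hno
  push Not at hno
  have h1' := closed_inv fr.pi A h1
  apply hex x.1
  obtain ⟨e0, e1, e2, e3⟩ := fr.hh_pair x _ rfl
  refine ⟨{h | fr.dt h ∈ A}, ?_, ?_, ⟨(fr.hh x).2, ?_, ?_, ?_, ?_⟩, ?_⟩
  · intro h hh
    change fr.dt (D.glue h) ∈ A
    have hh' : fr.dt h ∈ A := hh
    rcases fr.hh_or h with h3 | h3
    · rw [h3, fr.glue_hh, fr.dt_rot_hh]
      exact h1 _ hh'
    · rw [h3, fr.glue_rot_hh', fr.dt_hh]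
      exact h1' _ hh'
  · intro h hh hne
    change fr.dt (rot h) ∈ A
    have hh' : fr.dt h ∈ A := hh
    rcases fr.hh_or h with h3 | h3
    · rw [h3, fr.dt_rot_hh]
      exact hh'
    · rw [h3, fr.rot_rot_hh, fr.dt_hh]
      exact h2 _ hh' hne
  · rw [e0]
    change fr.dt (fr.hh x) ∈ A
    rwa [fr.dt_hh]
  · rw [e1]
    change fr.dt (rot (fr.hh x)) ∈ A
    rwa [fr.dt_rot_hh]
  · rw [e2]
    change fr.dt (fr.hh (flp x)) ∉ A
    rwa [fr.dt_hh]
  · rw [e3]
    change fr.dt (rot (fr.hh (flp x))) ∉ A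
    rwa [fr.dt_rot_hh]
  · intro f hf
    obtain ⟨d, hd⟩ := fr.ext_fw hf
    refine ⟨fr.hh d, hd.symm, Or.inl ?_⟩
    change fr.dt (fr.hh d) ∉ A
    rw [fr.dt_hh]
    intro hdA
    exact hno d hdA (by unfold mkd; rw [← hd]; exact hf)

theorem swap_of_ne {C : Type*} [Fintype C] {x : C} {d : C × Bool} (h : d.1 ≠ x) :
    swap (x, false) (x, true) d = d := by
  rw [swap_eq_twF, twF_not_mem]
  simpa using h

theorem swap_of_eq {C : Type*} [Fintype C] {x : C} {d : C × Bool} (h : d.1 = x) :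
    swap (x, false) (x, true) d = flp d := by
  rw [swap_eq_twF, twF_mem]
  simpa using h

theorem red_ne2 (hex : ∀ c, ¬ D.Excluded c) (x : Fin n × Bool) (A : Set (Fin n × Bool))
    (t : Perm (Fin n × Bool)) (ht1 : ∀ d : Fin n × Bool, d.1 ≠ x.1 → t d = d)
    (ht2 : ∀ d : Fin n × Bool, d.1 = x.1 → t d = flp d)
    (h1 : ∀ d ∈ A, (t * fr.pi) d ∈ A) (h2 : ∀ d ∈ A, d.1 ≠ x.1 → flp d ∈ A) (hx : x ∈ A)
    (hx' : flp x ∉ A) : ∃ d, fr.mkd d ∧ ∀ d', SameCycle fr.pi d d' → d' ∈ A := by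
  by_contra hno
  push Not at hno
  have h1' := closed_inv (t * fr.pi) A h1
  -- inverse steps
  have hinv1 : ∀ d ∈ A, d.1 ≠ x.1 → fr.pi⁻¹ d ∈ A := by
    intro d hd hne
    have h3 := h1' d hd
    rw [mul_inv_rev, Perm.mul_apply] at h3
    have h4 : t⁻¹ d = d := by
      rw [Perm.inv_eq_iff_eq, ht1 d hne]
    rwa [h4] at h3
  have hinv2 : ∀ d ∈ A, d.1 = x.1 → fr.pi⁻¹ (flp d) ∈ A := by
    intro d hd he
    have h3 := h1' d hd
    rw [mul_inv_rev, Perm.mul_apply] at h3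
    have h4 : t⁻¹ d = flp d := by
      rw [Perm.inv_eq_iff_eq, ht2 (flp d) he, flp_flp]
    rwa [h4] at h3
  apply hex x.1
  have hxx : rot (fr.hh (flp x)) = ((x.1, (rot (fr.hh (flp x))).2) : HE n) := rfl
  set i := (rot (fr.hh (flp x))).2 with hi
  have e1 : ((x.1, i + 1) : HE n) = fr.hh x := by
    have : ((x.1, i + 1) : HE n) = rot (rot (fr.hh (flp x))) := by rw [hxx]; rfl
    rw [this, fr.rot_rot_hh, flp_flp]
  have e2 : ((x.1, i + 2) : HE n) = rot (fr.hh x) := by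
    rw [← e1, rot_apply]
    ext1
    · rfl
    · change i + 2 = i + 1 + 1
      rw [add_assoc]; rfl
  have e3 : ((x.1, i + 3) : HE n) = fr.hh (flp x) := by
    rw [← fr.rot_rot_hh, ← e2, rot_apply]
    ext1
    · rfl
    · change i + 3 = i + 2 + 1
      rw [add_assoc]; rfl
  refine ⟨{h | ∃ d ∈ A, h = fr.hh d ∨ h = rot (fr.hh (fr.pi d))}, ?_, ?_,
    ⟨i, ?_, ?_, ?_, ?_⟩, ?_⟩
  · rintro h ⟨d, hd, h3 | h3⟩
    · refine ⟨d, hd, Or.inr ?_⟩
      rw [h3, fr.glue_hh]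
    · refine ⟨d, hd, Or.inl ?_⟩
      rw [h3, fr.glue_rot_hh]
  · rintro h ⟨d, hd, h3 | h3⟩ hne
    · have hne' : d.1 ≠ x.1 := by
        intro h4
        apply hne
        rw [h3]
        exact h4
      refine ⟨fr.pi⁻¹ d, hinv1 d hd hne', Or.inr ?_⟩
      rw [h3, show fr.pi (fr.pi⁻¹ d) = d by simp]
    · have hne' : (fr.pi d).1 ≠ x.1 := by
        intro h4
        apply hne
        rw [h3]
        exact h4
      refine ⟨flp (fr.pi d), ?_, Or.inl ?_⟩
      · apply h2 _ _ hne'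
        have := h1 d hd
        rwa [Perm.mul_apply, ht1 _ hne'] at this
      · rw [h3, fr.rot_rot_hh]
  · rw [← hxx]
    refine ⟨fr.pi⁻¹ (flp x), hinv2 x hx rfl, Or.inr ?_⟩
    rw [show fr.pi (fr.pi⁻¹ (flp x)) = flp x by simp]
  · rw [e1]
    exact ⟨x, hx, Or.inl rfl⟩
  · rw [e2]
    rintro ⟨d, hd, h3 | h3⟩
    · exact fr.hh_ne_rot _ _ h3.symm
    · have h4 := fr.rot_hh_inj h3
      apply hx'
      have := h1 d hd
      rwa [Perm.mul_apply, ← h4, ht2 x rfl] at this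
  · rw [e3]
    rintro ⟨d, hd, h3 | h3⟩
    · have h4 := fr.hh_inj h3
      apply hx'
      rw [h4]
      exact hd
    · exact fr.hh_ne_rot _ _ h3
  · intro f hf
    obtain ⟨d, hd⟩ := fr.ext_fw hf
    obtain ⟨d', hd', hdA⟩ := hno d (by unfold mkd; rw [← hd]; exact hf)
    refine ⟨fr.hh d', ?_, Or.inl ?_⟩
    · rw [hd]
      exact (fr.fw_cyc hd').symm
    · rintro ⟨e, he, h3 | h3⟩
      · rw [fr.hh_inj h3] at hdA
        exact hdA he
      · exact fr.hh_ne_rot _ _ h3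

theorem card_face : (Nat.card D.Face : ℤ) = Z (cyc fr.pi) (fun _ => 1) +
    Z (cyc (twF Finset.univ * fr.pi)) (fun _ => 1) := by
  rw [← fr.sum_face (fun _ => 1), Nat.card_eq_fintype_card]
  simp

/-- the reduced diagram -/
noncomputable def red (hconn : D.Connected) (hplan : D.Planar) (hex : ∀ c, ¬ D.Excluded c) :
    Red (Fin n) where
  pi := fr.pi
  mkd := fr.mkd
  conn := fr.red_conn hconn
  planar := by
    rw [← fr.card_face, hplan]
    simp
  mkd_pi d := by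
    unfold mkd
    rw [fr.fw_pi]
  mkd_ex := by
    obtain ⟨d, hd⟩ := fr.ext_fw (⟨0, rfl⟩ : D.External (D.hole 0))
    exact ⟨d, by unfold mkd; rw [← hd]; exact ⟨0, rfl⟩⟩
  ne1 := fr.red_ne1 hex
  ne2 x A h1 h2 hx hx' :=
    fr.red_ne2 hex x A _ (fun d hd => swap_of_ne hd) (fun d hd => swap_of_eq hd) h1 h2 hx hx'

end Frame

end H137SK
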