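import Pool.Agent.H137R3.SK.Trans2

/-!
Colourings and degrees.
-/

namespace H137SK

set_option linter.unusedSectionVars false
set_option linter.unusedVariables false

open Equiv Equiv.Perm
open scoped Classical

variable {g n : ℕ} {D : Diagram g n}

/-- colourings which vanish on the external regions and differ by one on adjacent regions -/
def Adm (D : Diagram g n) : Set (D.Face → ℕ) :=
  {ξ | (∀ f, D.External f → ξ f = 0) ∧
    (∀ h, ξ (D.face h) = ξ (D.face (rot⁻¹ h)) + 1 ∨ ξ (D.face (rot⁻¹ h)) = ξ (D.face h) + 1)}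

theorem adm_finite (hconn : D.Connected) : (Adm D).Finite := by
  have hA : {h | ∃ N, ∀ ξ ∈ Adm D, ξ (D.face h) ≤ N} = Set.univ := by
    apply hconn
    · obtain ⟨h, hh⟩ : ∃ h, D.hole 0 = D.face h := by
        induction D.hole 0 using Quotient.inductionOn with
        | _ h => exact ⟨h, rfl⟩
      refine ⟨h, 0, ?_⟩
      intro ξ hξ
      rw [← hh, hξ.1 _ ⟨0, rfl⟩]
    · rintro h ⟨N, hN⟩
      refine ⟨N + 1, ?_⟩
      intro ξ hξ
      have h1 := hξ.2 (D.glue h)
      rw [← facePerm_apply, face_facePerm] at h1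
      have := hN ξ hξ
      omega
    · rintro h ⟨N, hN⟩
      refine ⟨N + 1, ?_⟩
      intro ξ hξ
      have h1 := hξ.2 (rot h)
      rw [rot_inv_rot] at h1
      have := hN ξ hξ
      omega
  have hall : ∀ f : D.Face, ∃ N, ∀ ξ ∈ Adm D, ξ f ≤ N := by
    intro f
    induction f using Quotient.inductionOn with
    | _ h =>
      have : h ∈ {h | ∃ N, ∀ ξ ∈ Adm D, ξ (D.face h) ≤ N} := by rw [hA]; trivial
      exact this
  choose M hM using hall
  apply (Set.Finite.pi (fun f => Set.finite_Iic (M f))).subset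
  intro ξ hξ f _
  exact hM f ξ hξ

theorem col_subset (s : Fin n → Bool) : D.Col s ⊆ Adm D := fun ξ h => ⟨h.1, h.2.1⟩

theorem mem_col_iff {s : Fin n → Bool} {ξ : D.Face → ℕ} (hξ : ξ ∈ Adm D) :
    ξ ∈ D.Col s ↔ ∀ c, ξ (D.face (c, Diagram.joined (s c))) =
      ξ (D.face (c, Diagram.joined (s c) + 2)) :=
  ⟨fun h => h.2.2, fun h => ⟨hξ.1, hξ.2, h⟩⟩

theorem evalState_eq (hconn : D.Connected) (s : Fin n → Bool) :
    D.evalState s = ∑ ξ ∈ (adm_finite hconn).toFinset,
      if ξ ∈ D.Col s then D.weight s ξ else 0 := by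
  have hfin : (D.Col s).Finite := (adm_finite hconn).subset (col_subset s)
  unfold Diagram.evalState
  rw [finsum_mem_eq_finite_toFinset_sum _ hfin, ← Finset.sum_filter]
  apply Finset.sum_congr _ (fun _ _ => rfl)
  ext ξ
  simp only [Set.Finite.mem_toFinset, Finset.mem_filter]
  constructor
  · intro h; exact ⟨col_subset s h, h⟩
  · intro h; exact h.2

theorem weight_eq (s : Fin n → Bool) (ξ : D.Face → ℕ) :
    D.weight s ξ = (∏ f : D.Face, Del (ξ f)) *
      ∏ c : Fin n, (Del (ξ (D.face (c, Diagram.joined (s c)))))⁻¹ := by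
  unfold Diagram.weight
  rw [finprod_eq_prod_of_fintype]

namespace Frame

variable (fr : Frame D)

/-- the smoothing which joins the white corners -/
noncomputable def β : Bool := decide (fr.w0 = 1)

theorem join_white (c : Fin n) : D.face (c, Diagram.joined fr.β) = fr.fw (c, false) ∧
    D.face (c, Diagram.joined fr.β + 2) = fr.fw (c, true) := by
  have h : Diagram.joined fr.β = fr.w0 := by
    unfold β Diagram.joined
    rcases fr.w01 with h | h
    · rw [h]; decide
    · rw [h]; decide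
  rw [h]
  unfold fw hh
  simp

theorem join_black (c : Fin n) :
    (D.face (c, Diagram.joined (!fr.β)) = fr.fb (c, false) ∧
      D.face (c, Diagram.joined (!fr.β) + 2) = fr.fb (c, true)) ∨
    (D.face (c, Diagram.joined (!fr.β)) = fr.fb (c, true) ∧
      D.face (c, Diagram.joined (!fr.β) + 2) = fr.fb (c, false)) := by
  unfold fb flp hh β Diagram.joined
  simp only [rot_apply]
  rcases fr.w01 with h | h
  · right
    rw [h]
    constructor
    · congr 1
    · congr 1
  · left
    rw [h]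
    constructor
    · congr 1
    · congr 1

theorem bool_ne {a b : Bool} (h : a ≠ b) : a = !b := by
  cases a <;> cases b <;> simp_all

/-- the colourings of the state in terms of darts -/
theorem col_comp {s : Fin n → Bool} {ξ : D.Face → ℕ} (h : ξ ∈ D.Col s) :
    Red.CompS s fr.β (fun d => ξ (fr.fw d)) (fun d => ξ (fr.fb d)) := by
  intro c
  have h1 := h.2.2 c
  constructor
  · intro hs
    rw [hs, (fr.join_white c).1, (fr.join_white c).2] at h1
    exact h1
  · intro hs
    rw [bool_ne hs] at h1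
    rcases fr.join_black c with ⟨h2, h3⟩ | ⟨h2, h3⟩
    · rw [h2, h3] at h1
      exact h1
    · rw [h2, h3] at h1
      exact h1.symm

theorem comp_col {s : Fin n → Bool} {ξ : D.Face → ℕ} (hξ : ξ ∈ Adm D)
    (h : Red.CompS s fr.β (fun d => ξ (fr.fw d)) (fun d => ξ (fr.fb d))) : ξ ∈ D.Col s := by
  rw [mem_col_iff hξ]
  intro c
  by_cases hs : s c = fr.β
  · rw [hs, (fr.join_white c).1, (fr.join_white c).2]
    exact (h c).1 hs
  · have h1 := (h c).2 hs
    rw [bool_ne hs]
    rcases fr.join_black c with ⟨h2, h3⟩ | ⟨h2, h3⟩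
    · rw [h2, h3]
      exact h1
    · rw [h2, h3]
      exact h1.symm

theorem isCol (hconn : D.Connected) (hplan : D.Planar) (hex : ∀ c, ¬ D.Excluded c)
    {ξ : D.Face → ℕ} (hξ : ξ ∈ Adm D) :
    (fr.red hconn hplan hex).IsCol (fun d => ξ (fr.fw d)) (fun d => ξ (fr.fb d)) where
  w_pi d := by
    change ξ (fr.fw (fr.pi d)) = ξ (fr.fw d)
    rw [fr.fw_pi]
  b_pi d := by
    change ξ (fr.fb (flp (fr.pi d))) = ξ (fr.fb d)
    rw [fr.fb_pi]
  adj d := by
    have := hξ.2 (fr.hh d)
    rw [← fr.fb_eq] at this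
    exact this
  mark d hd := hξ.1 _ hd

/-- the exponent of a colouring in terms of darts -/
theorem dg_weight (hconn : D.Connected) (hplan : D.Planar) (hex : ∀ c, ¬ D.Excluded c)
    {s : Fin n → Bool} {ξ : D.Face → ℕ} (h : ξ ∈ D.Col s) :
    dg (D.weight s ξ) (2 * Red.QS (fr.red hconn hplan hex) s fr.β
      (fun d => ξ (fr.fw d)) (fun d => ξ (fr.fb d))) := by
  rw [weight_eq]
  have h1 : dg (∏ f : D.Face, Del (ξ f)) (∑ f : D.Face, 2 * (ξ f : ℤ)) :=
    dg_prod _ _ _ (fun f _ => dg_Del _)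
  have h2 : dg (∏ c : Fin n, (Del (ξ (D.face (c, Diagram.joined (s c)))))⁻¹)
      (∑ c : Fin n, -(2 * ((if s c = fr.β then (ξ (fr.fw (c, false)) : ℤ)
        else (ξ (fr.fb (c, false)) : ℤ))))) := by
    apply dg_prod
    intro c _
    apply dg_inv
    have h3 : ((if s c = fr.β then (ξ (fr.fw (c, false)) : ℤ)
        else (ξ (fr.fb (c, false)) : ℤ))) = (ξ (D.face (c, Diagram.joined (s c))) : ℤ) := by
      have hc := h.2.2 c
      split_ifs with hs
      · rw [hs, (fr.join_white c).1]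
      · rw [bool_ne hs] at hc ⊢
        rcases fr.join_black c with ⟨h2, h3⟩ | ⟨h2, h3⟩
        · rw [h2]
        · rw [hc, h3]
    rw [h3]
    exact dg_Del _
  have h3 := dg_mul h1 h2
  convert h3 using 1
  rw [← Finset.mul_sum, fr.sum_face, Finset.sum_neg_distrib, ← Finset.mul_sum]
  unfold Red.QS
  change 2 * (Z (cyc fr.pi) _ + Z (cyc (twF Finset.univ * fr.pi)) _ - _) = _
  ring

/-- first extremal colouring -/
noncomputable def xi1 (f : D.Face) : ℕ := if fr.κ f = fr.κ (D.hole 0) then 0 else 1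

/-- second extremal colouring -/
noncomputable def xi2 (f : D.Face) : ℕ :=
  if fr.κ f = fr.κ (D.hole 0) then (if D.External f then 0 else 2) else 1

theorem adj_cases (h : HE n) :
    (fr.κ (D.face h) = fr.κ (D.hole 0) ∧ fr.κ (D.face (rot⁻¹ h)) ≠ fr.κ (D.hole 0)) ∨
    (fr.κ (D.face h) ≠ fr.κ (D.hole 0) ∧ fr.κ (D.face (rot⁻¹ h)) = fr.κ (D.hole 0)) := by
  have := fr.κ_adj h
  cases h1 : fr.κ (D.face h) <;> cases h2 : fr.κ (D.face (rot⁻¹ h)) <;>
    cases h3 : fr.κ (D.hole 0) <;> simp_all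

theorem xi1_adm : fr.xi1 ∈ Adm D := by
  constructor
  · intro f hf
    unfold xi1
    rw [if_pos (fr.κ_ext0 hf)]
  · intro h
    unfold xi1
    rcases fr.adj_cases h with ⟨h1, h2⟩ | ⟨h1, h2⟩
    · rw [if_pos h1, if_neg h2]; right; rfl
    · rw [if_neg h1, if_pos h2]; left; rfl

theorem xi2_adm : fr.xi2 ∈ Adm D := by
  constructor
  · intro f hf
    unfold xi2
    rw [if_pos (fr.κ_ext0 hf), if_pos hf]
  · intro h
    unfold xi2
    rcases fr.adj_cases h with ⟨h1, h2⟩ | ⟨h1, h2⟩
    · rw [if_pos h1, if_neg h2]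
      split_ifs
      · right; rfl
      · left; rfl
    · rw [if_neg h1, if_pos h2]
      split_ifs
      · left; rfl
      · right; rfl

theorem xi1_fw (d : Fin n × Bool) : fr.xi1 (fr.fw d) = 0 := by
  unfold xi1; rw [if_pos (fr.κ_fw d)]

theorem xi1_fb (d : Fin n × Bool) : fr.xi1 (fr.fb d) = 1 := by
  unfold xi1; rw [if_neg (fr.κ_fb d)]

theorem xi2_fw (d : Fin n × Bool) : fr.xi2 (fr.fw d) = if fr.mkd d then 0 else 2 := by
  unfold xi2; rw [if_pos (fr.κ_fw d)]; rfl

theorem xi2_fb (d : Fin n × Bool) : fr.xi2 (fr.fb d) = 1 := by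
  unfold xi2; rw [if_neg (fr.κ_fb d)]

theorem eq_of_fw_fb {ξ ξ' : D.Face → ℕ} (h1 : ∀ d, ξ (fr.fw d) = ξ' (fr.fw d))
    (h2 : ∀ d, ξ (fr.fb d) = ξ' (fr.fb d)) : ξ = ξ' := by
  ext f
  rcases fr.surj_face f with ⟨d, hd⟩ | ⟨d, hd⟩
  · rw [hd, h1]
  · rw [hd, h2]

theorem xi1_col : fr.xi1 ∈ D.Col (fun _ => fr.β) := by
  apply fr.comp_col fr.xi1_adm
  intro c
  simp [fr.xi1_fw]

theorem xi2_col : fr.xi2 ∈ D.Col (fun _ => !fr.β) := by
  apply fr.comp_col fr.xi2_adm
  intro c
  constructor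
  · intro h
    exfalso
    revert h
    cases fr.β <;> simp
  · intro _
    change fr.xi2 (fr.fb _) = fr.xi2 (fr.fb _)
    rw [fr.xi2_fb, fr.xi2_fb]

/-- the crossings between two external corners -/
noncomputable def KK : Finset (Fin n) :=
  Finset.univ.filter (fun c => fr.mkd (c, false) ∧ fr.mkd (c, true))

/-- the two bracket sums -/
noncomputable def T (hconn : D.Connected) (ε : ℤ) : QA :=
  ∑ s : Fin n → Bool, ∑ ξ ∈ (adm_finite hconn).toFinset,
    if ξ ∈ D.Col s then vA ^ (ε * Red.sgnS s fr.β) * D.weight s ξ else 0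

theorem bracket_eq (hconn : D.Connected) :
    D.bracket = ∑ s : Fin n → Bool, ∑ ξ ∈ (adm_finite hconn).toFinset,
      if ξ ∈ D.Col s then vA ^ (∑ c, (if s c then (1 : ℤ) else -1)) * D.weight s ξ else 0 := by
  unfold Diagram.bracket
  apply Finset.sum_congr rfl
  intro s _
  rw [evalState_eq hconn, Finset.mul_sum]
  apply Finset.sum_congr rfl
  intro ξ _
  split_ifs <;> simp

theorem sg_weight (s : Fin n → Bool) (ξ : D.Face → ℕ) : sg (D.weight s ξ) = D.weight s ξ := by
  rw [weight_eq, map_mul, map_prod, map_prod]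
  simp only [map_inv₀, sg_Del]

theorem sg_vA_zpow (k : ℤ) : sg (vA ^ k) = vA ^ (-k) := by
  rw [map_zpow₀, sg_vA, inv_zpow, zpow_neg]

theorem sgnS_true (s : Fin n → Bool) : Red.sgnS s true = ∑ c, (if s c then (1 : ℤ) else -1) := rfl

theorem sgnS_false (s : Fin n → Bool) :
    Red.sgnS s false = -∑ c, (if s c then (1 : ℤ) else -1) := by
  unfold Red.sgnS
  rw [← Finset.sum_neg_distrib]
  apply Finset.sum_congr rfl
  intro c _
  cases s c <;> simp

theorem sg_T (hconn : D.Connected) (ε : ℤ) : sg (fr.T hconn ε) = fr.T hconn (-ε) := by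
  unfold T
  rw [map_sum]
  apply Finset.sum_congr rfl
  intro s _
  rw [map_sum]
  apply Finset.sum_congr rfl
  intro ξ _
  split_ifs
  · rw [map_mul, sg_weight, sg_vA_zpow, neg_mul]
  · exact map_zero _

theorem bracket_cases (hconn : D.Connected) :
    D.bracket = fr.T hconn 1 ∨ D.bracket = fr.T hconn (-1) := by
  rw [bracket_eq hconn]
  unfold T
  cases hb : fr.β
  · right
    simp only [sgnS_false, neg_mul_neg, one_mul]
  · left
    simp only [sgnS_true, one_mul]

/-- degree of the first sum -/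
theorem dg_T_one (hconn : D.Connected) (hplan : D.Planar) (hex : ∀ c, ¬ D.Excluded c) :
    dg (fr.T hconn 1) (n + 2 * Red.nB (fr.red hconn hplan hex)) := by
  unfold T
  rw [← Finset.sum_product']
  apply dg_sum _ _ _ ((fun _ => fr.β), fr.xi1)
  · rw [Finset.mem_product]
    exact ⟨Finset.mem_univ _, by rw [Set.Finite.mem_toFinset]; exact fr.xi1_adm⟩
  · change dg (if fr.xi1 ∈ D.Col (fun _ => fr.β) then
      vA ^ (1 * Red.sgnS (fun _ => fr.β) fr.β) * D.weight (fun _ => fr.β) fr.xi1 else 0) _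
    rw [if_pos fr.xi1_col, one_mul]
    have h1 := dg_mul (dg_vA_zpow (Red.sgnS (fun _ : Fin n => fr.β) fr.β))
      (fr.dg_weight hconn hplan hex fr.xi1_col)
    convert h1 using 1
    have h2 := Red.QS_first (R := fr.red hconn hplan hex) (s := fun _ => fr.β) (β := fr.β)
      (w := fun d => fr.xi1 (fr.fw d)) (b := fun d => fr.xi1 (fr.fb d))
      (fun _ => rfl) fr.xi1_fw fr.xi1_fb
    rw [h2, Fintype.card_fin]
  · rintro ⟨s, ξ⟩ hmem hne
    change dlt (if ξ ∈ D.Col s then vA ^ (1 * Red.sgnS s fr.β) * D.weight s ξ else 0) _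
    split_ifs with hcol
    · have hadm := col_subset s hcol
      have h1 := dg_mul (dg_vA_zpow (Red.sgnS s fr.β)) (fr.dg_weight hconn hplan hex hcol)
      rw [one_mul]
      apply dlt_of_dg h1
      have hc := fr.isCol hconn hplan hex hadm
      have hle := Red.first_le' hc (fr.col_comp hcol)
      rw [Fintype.card_fin] at hle
      apply lt_of_le_of_ne hle
      intro heq
      have h3 := Red.first_eq' hc (fr.col_comp hcol) (by rw [Fintype.card_fin]; exact heq)
      apply hne
      ext1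
      · funext c
        exact h3.1 c
      · apply fr.eq_of_fw_fb
        · intro d
          change ξ (fr.fw d) = fr.xi1 (fr.fw d)
          rw [fr.xi1_fw]
          exact h3.2.1 d
        · intro d
          change ξ (fr.fb d) = fr.xi1 (fr.fb d)
          rw [fr.xi1_fb]
          exact h3.2.2 d
    · left; rfl

end Frame

end H137SK
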