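import Pool.Agent.H137R3.SK.Trans3

/-!
The second degree, and the breadth formula.
-/

namespace H137SK

set_option linter.unusedSectionVars false
set_option linter.unusedVariables false

open Equiv Equiv.Perm
open scoped Classical

variable {g n : ℕ} {D : Diagram g n}

theorem prod_vA_zpow {ι : Type*} (s : Finset ι) (e : ι → ℤ) :
    ∏ c ∈ s, vA ^ (e c) = vA ^ (∑ c ∈ s, e c) := by
  induction s using Finset.induction_on with
  | empty => simp
  | insert i s hi ih =>
    rw [Finset.prod_insert hi, Finset.sum_insert hi, ih, zpow_add₀ vA_ne]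

namespace Frame

variable (fr : Frame D)

/-- is the smoothing `t` at `c` compatible with `ξ`? -/
def cond (ξ : D.Face → ℕ) (c : Fin n) (t : Bool) : Prop :=
  ξ (D.face (c, Diagram.joined t)) = ξ (D.face (c, Diagram.joined t + 2))

/-- contribution of one crossing -/
noncomputable def base (ξ : D.Face → ℕ) (c : Fin n) (t : Bool) : QA :=
  vA ^ (if t = fr.β then (-1 : ℤ) else 1) * (Del (ξ (D.face (c, Diagram.joined t))))⁻¹

theorem sgn_base (s : Fin n → Bool) (ξ : D.Face → ℕ) :
    vA ^ (-1 * Red.sgnS s fr.β) * D.weight s ξ =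
      (∏ f : D.Face, Del (ξ f)) * ∏ c, fr.base ξ c (s c) := by
  unfold base
  rw [Finset.prod_mul_distrib, prod_vA_zpow, weight_eq]
  have : (∑ c, if s c = fr.β then (-1 : ℤ) else 1) = -1 * Red.sgnS s fr.β := by
    unfold Red.sgnS
    rw [Finset.mul_sum]
    apply Finset.sum_congr rfl
    intro c _
    split_ifs <;> norm_num
  rw [this]
  ring

/-- both contributions of one crossing -/
noncomputable def vv (ξ : D.Face → ℕ) (c : Fin n) (t : Bool) : QA :=
  if cond ξ c t then fr.base ξ c t else 0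

/-- the contributions kept after the cancellation at the crossings between external corners -/
noncomputable def vv' (ξ : D.Face → ℕ) (c : Fin n) (t : Bool) : QA :=
  if cond ξ c t ∧ ¬ (c ∈ fr.KK ∧ t = fr.β) then fr.base ξ c t else 0

/-- the factor of one crossing -/
noncomputable def gam (c : Fin n) : QA := if c ∈ fr.KK then -(vA⁻¹) ^ 4 else 1

theorem sum_vv {ξ : D.Face → ℕ} (hξ : ξ ∈ Adm D) (c : Fin n) :
    ∑ t : Bool, fr.vv ξ c t = fr.gam c * ∑ t : Bool, fr.vv' ξ c t := by
  have hsum : ∀ F : Bool → QA, ∑ t : Bool, F t = F fr.β + F (!fr.β) := by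
    intro F
    rw [Fintype.sum_bool]
    cases fr.β
    · rw [add_comm]; rfl
    · rfl
  rw [hsum, hsum]
  by_cases hc : c ∈ fr.KK
  · have hc' : fr.mkd (c, false) ∧ fr.mkd (c, true) := by simpa [KK] using hc
    have hw0 : ξ (fr.fw (c, false)) = 0 := hξ.1 _ hc'.1
    have hw1 : ξ (fr.fw (c, true)) = 0 := hξ.1 _ hc'.2
    have hadj : ∀ b, ξ (fr.fw (c, b)) = 0 → ξ (fr.fb (c, b)) = 1 := by
      intro b hb
      have := hξ.2 (fr.hh (c, b))
      rw [← fr.fb_eq] at this
      change ξ (fr.fw (c, b)) = _ ∨ _ = ξ (fr.fw (c, b)) + 1 at this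
      omega
    have hb0 := hadj false hw0
    have hb1 := hadj true hw1
    have c1 : cond ξ c fr.β := by
      unfold cond
      rw [(fr.join_white c).1, (fr.join_white c).2, hw0, hw1]
    have c2 : cond ξ c (!fr.β) := by
      unfold cond
      rcases fr.join_black c with ⟨h2, h3⟩ | ⟨h2, h3⟩
      · rw [h2, h3, hb0, hb1]
      · rw [h2, h3, hb0, hb1]
    have e1 : fr.base ξ c fr.β = vA⁻¹ := by
      unfold base
      rw [if_pos rfl, (fr.join_white c).1, hw0]
      simp [Del]
    have hne : (!fr.β) ≠ fr.β := by cases fr.β <;> simp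
    have e2 : fr.base ξ c (!fr.β) = vA * (Del 1)⁻¹ := by
      unfold base
      rw [if_neg hne]
      rcases fr.join_black c with ⟨h2, h3⟩ | ⟨h2, h3⟩
      · rw [h2, hb0]; simp
      · rw [h2, hb1]; simp
    unfold vv vv' gam
    rw [if_pos c1, if_pos c2, if_pos hc, if_neg (by simp [hc]), if_pos ⟨c2, by simp [hne]⟩,
      e1, e2, zero_add, kfactor]
  · unfold vv vv' gam
    rw [if_neg hc, one_mul]
    simp [hc]

theorem mem_col_cond {s : Fin n → Bool} {ξ : D.Face → ℕ} (hξ : ξ ∈ Adm D) :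
    ξ ∈ D.Col s ↔ ∀ c, cond ξ c (s c) := mem_col_iff hξ

/-- the reduced sum -/
noncomputable def T2 (hconn : D.Connected) : QA :=
  ∑ ξ ∈ (adm_finite hconn).toFinset, ∑ s : Fin n → Bool,
    if ξ ∈ D.Col s ∧ (∀ c, ¬ (c ∈ fr.KK ∧ s c = fr.β)) then
      vA ^ (-1 * Red.sgnS s fr.β) * D.weight s ξ else 0

theorem T_neg_eq (hconn : D.Connected) :
    fr.T hconn (-1) = (∏ c, fr.gam c) * fr.T2 hconn := by
  unfold T T2
  rw [Finset.sum_comm, Finset.mul_sum]
  apply Finset.sum_congr rfl
  intro ξ hξ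
  rw [Set.Finite.mem_toFinset] at hξ
  have h1 : ∀ s : Fin n → Bool, (if ξ ∈ D.Col s then
      vA ^ (-1 * Red.sgnS s fr.β) * D.weight s ξ else 0) =
      (∏ f : D.Face, Del (ξ f)) * ∏ c, fr.vv ξ c (s c) := by
    intro s
    unfold vv
    rw [Finset.prod_ite_zero]
    by_cases h : ξ ∈ D.Col s
    · rw [if_pos h, if_pos (fun c _ => (mem_col_cond hξ).1 h c), sgn_base]
    · rw [if_neg h, if_neg, mul_zero]
      intro h'
      exact h ((mem_col_cond hξ).2 (fun c => h' c (Finset.mem_univ c)))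
  have h2 : ∀ s : Fin n → Bool, (if ξ ∈ D.Col s ∧ (∀ c, ¬ (c ∈ fr.KK ∧ s c = fr.β)) then
      vA ^ (-1 * Red.sgnS s fr.β) * D.weight s ξ else 0) =
      (∏ f : D.Face, Del (ξ f)) * ∏ c, fr.vv' ξ c (s c) := by
    intro s
    unfold vv'
    rw [Finset.prod_ite_zero]
    by_cases h : ξ ∈ D.Col s ∧ (∀ c, ¬ (c ∈ fr.KK ∧ s c = fr.β))
    · rw [if_pos h, if_pos (fun c _ => ⟨(mem_col_cond hξ).1 h.1 c, h.2 c⟩), sgn_base]
    · rw [if_neg h, if_neg, mul_zero]
      intro h'
      exact h ⟨(mem_col_cond hξ).2 (fun c => (h' c (Finset.mem_univ c)).1),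
        fun c => (h' c (Finset.mem_univ c)).2⟩
  simp only [h1, h2]
  rw [← Finset.mul_sum, ← Finset.mul_sum]
  have h3 : ∀ F : Fin n → Bool → QA, ∑ s : Fin n → Bool, ∏ c, F c (s c) =
      ∏ c, ∑ t : Bool, F c t := by
    intro F
    rw [Finset.prod_univ_sum, Fintype.piFinset_univ]
  rw [h3, h3]
  have h4 : ∏ c, ∑ t : Bool, fr.vv ξ c t = (∏ c, fr.gam c) * ∏ c, ∑ t : Bool, fr.vv' ξ c t := by
    rw [← Finset.prod_mul_distrib]
    exact Finset.prod_congr rfl (fun c _ => fr.sum_vv hξ c)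
  rw [h4]
  ring

theorem dg_gam : dg (∏ c, fr.gam c) (-4 * (fr.KK.card : ℤ)) := by
  have h : dg (∏ c, fr.gam c) (∑ c : Fin n, if c ∈ fr.KK then (-4 : ℤ) else 0) := by
    apply dg_prod
    intro c _
    unfold gam
    split_ifs
    · have := dg_neg (dg_pow (dg_inv dg_vA) 4)
      convert this using 1
      norm_num
    · exact dg_one
  convert h using 1
  rw [Finset.sum_ite_mem, Finset.univ_inter, Finset.sum_const]
  simp
  ring

theorem dg_T2 (hconn : D.Connected) (hplan : D.Planar) (hex : ∀ c, ¬ D.Excluded c) :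
    dg (fr.T2 hconn) (n + 4 + 2 * Red.nW (fr.red hconn hplan hex) -
      4 * Red.nV (fr.red hconn hplan hex)) := by
  unfold T2
  have hβ : ∀ c : Fin n, ¬ (c ∈ fr.KK ∧ (!fr.β) = fr.β) := by
    intro c h
    have := h.2
    revert this
    cases fr.β <;> simp
  have hβ' : ∀ c : Fin n, (fun _ : Fin n => !fr.β) c ≠ fr.β := by
    intro c
    change (!fr.β) ≠ fr.β
    cases fr.β <;> simp
  rw [← Finset.sum_product']
  apply dg_sum _ _ _ (fr.xi2, (fun _ => !fr.β))
  · rw [Finset.mem_product]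
    exact ⟨by rw [Set.Finite.mem_toFinset]; exact fr.xi2_adm, Finset.mem_univ _⟩
  · change dg (if fr.xi2 ∈ D.Col (fun _ => !fr.β) ∧ (∀ c, ¬ (c ∈ fr.KK ∧ (!fr.β) = fr.β)) then
      vA ^ (-1 * Red.sgnS (fun _ => !fr.β) fr.β) * D.weight (fun _ => !fr.β) fr.xi2 else 0) _
    rw [if_pos ⟨fr.xi2_col, hβ⟩]
    have h1 := dg_mul (dg_vA_zpow (-1 * Red.sgnS (fun _ : Fin n => !fr.β) fr.β))
      (fr.dg_weight hconn hplan hex fr.xi2_col)
    convert h1 using 1
    have h2 := Red.QS_second (R := fr.red hconn hplan hex) (s := fun _ => !fr.β) (β := fr.β)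
      (w := fun d => fr.xi2 (fr.fw d)) (b := fun d => fr.xi2 (fr.fb d))
      hβ' (fun d => by
        change fr.xi2 (fr.fw d) = if fr.mkd d then 0 else 2
        exact fr.xi2_fw d) fr.xi2_fb
    rw [Fintype.card_fin] at h2
    rw [← h2]
    ring
  · rintro ⟨ξ, s⟩ hmem hne
    change dlt (if ξ ∈ D.Col s ∧ (∀ c, ¬ (c ∈ fr.KK ∧ s c = fr.β)) then
      vA ^ (-1 * Red.sgnS s fr.β) * D.weight s ξ else 0) _
    split_ifs with hcol
    · have hadm := col_subset s hcol.1
      have h1 := dg_mul (dg_vA_zpow (-1 * Red.sgnS s fr.β))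
        (fr.dg_weight hconn hplan hex hcol.1)
      apply dlt_of_dg h1
      have hc := fr.isCol hconn hplan hex hadm
      have hle := Red.second_le' hc (fr.col_comp hcol.1)
      rw [Fintype.card_fin] at hle
      rw [neg_one_mul]
      apply lt_of_le_of_ne hle
      intro heq
      have h3 := Red.second_eq' hc (fr.col_comp hcol.1)
        (fun c hs hm => hcol.2 c ⟨Finset.mem_filter.2 ⟨Finset.mem_univ _, hm⟩, hs⟩)
        (by rw [Fintype.card_fin]; exact heq)
      apply hne
      ext1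
      · apply fr.eq_of_fw_fb
        · intro d
          change ξ (fr.fw d) = fr.xi2 (fr.fw d)
          rw [fr.xi2_fw]
          exact h3.2.1 d
        · intro d
          change ξ (fr.fb d) = fr.xi2 (fr.fb d)
          rw [fr.xi2_fb]
          exact h3.2.2 d
      · funext c
        change s c = !fr.β
        exact bool_ne (h3.1 c)
    · left; rfl

theorem dg_T_neg (hconn : D.Connected) (hplan : D.Planar) (hex : ∀ c, ¬ D.Excluded c) :
    dg (fr.T hconn (-1)) (-4 * (fr.KK.card : ℤ) + (n + 4 +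
      2 * Red.nW (fr.red hconn hplan hex) - 4 * Red.nV (fr.red hconn hplan hex))) := by
  rw [T_neg_eq]
  exact dg_mul fr.dg_gam (fr.dg_T2 hconn hplan hex)

/-- the number of marked faces -/
theorem nV_eq (hconn : D.Connected) (hplan : D.Planar) (hex : ∀ c, ¬ D.Excluded c)
    (hinj : D.NotInFewerHoles) : Red.nV (fr.red hconn hplan hex) = g + 1 := by
  have h1 := fr.sum_face (fun f => if D.External f then (1 : ℤ) else 0)
  have h2 : Z (cyc (twF Finset.univ * fr.pi))
      (fun d => if D.External (fr.fb d) then (1 : ℤ) else 0) = 0 := by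
    unfold Z
    apply Finset.sum_eq_zero
    intro q _
    beta_reduce
    rw [if_neg]
    intro h
    exact fr.κ_fb _ (fr.κ_ext0 h)
  have h3 : Z (cyc fr.pi) (fun d => if D.External (fr.fw d) then (1 : ℤ) else 0) =
      Red.nV (fr.red hconn hplan hex) := rfl
  rw [h2, h3, add_zero] at h1
  rw [← h1, ← Finset.sum_filter, Finset.sum_const, nsmul_eq_mul, mul_one]
  let hol : Fin (g + 1) → D.Face := D.hole
  have h4 : Finset.univ.filter (fun f => D.External f) = Finset.univ.image hol := by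
    ext f
    simp only [Finset.mem_filter, Finset.mem_univ, true_and, Finset.mem_image]
    rfl
  have h5 : (Finset.univ.image hol).card = g + 1 := by
    have hinj' : Function.Injective hol := hinj
    rw [Finset.card_image_of_injective _ hinj']
    simp
  have h6 : (Finset.univ.filter (fun f => D.External f)).card = g + 1 := by
    rw [h4]; exact h5
  rw [h6]
  push_cast
  ring

theorem zmod4 (w i : ZMod 4) (h : i = w ∨ i = w + 2) : i + 2 = w + 2 ∨ i + 2 = w := by
  rcases h with h | h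
  · left; rw [h]
  · right; rw [h, add_assoc]; exact add_eq_left.2 rfl

theorem ext_corner {c : Fin n} {i : ZMod 4} (h : D.External (D.face (c, i))) :
    (i = fr.w0 ∧ D.face (c, i) = fr.fw (c, false)) ∨
    (i = fr.w0 + 2 ∧ D.face (c, i) = fr.fw (c, true)) := by
  have h1 := (fr.hw (c, i)).1 (fr.κ_ext0 h)
  rcases h1 with h2 | h2
  · left
    have h2' : i = fr.w0 := h2
    refine ⟨h2', ?_⟩
    unfold fw hh
    rw [h2']
    simp
  · right
    have h2' : i = fr.w0 + 2 := h2
    refine ⟨h2', ?_⟩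
    unfold fw hh
    rw [h2']
    simp

theorem face_w0 (c : Fin n) : D.face (c, fr.w0) = fr.fw (c, false) := by
  unfold fw hh; simp

theorem face_w2 (c : Fin n) : D.face (c, fr.w0 + 2) = fr.fw (c, true) := by
  unfold fw hh; simp

theorem card_KK : D.k + D.kOpp = fr.KK.card := by
  have h1 : D.k = (fr.KK.filter (fun c => fr.fw (c, false) ≠ fr.fw (c, true))).card := by
    unfold Diagram.k
    rw [Nat.card_eq_fintype_card, Fintype.card_subtype]
    congr 1
    ext c
    simp only [Finset.mem_filter, Finset.mem_univ, true_and, KK]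
    constructor
    · rintro ⟨i, j, hi, hj, hne⟩
      rcases fr.ext_corner hi with ⟨_, h2⟩ | ⟨_, h2⟩ <;>
        rcases fr.ext_corner hj with ⟨_, h3⟩ | ⟨_, h3⟩
      · exact absurd (h2.trans h3.symm) hne
      · rw [h2] at hi hne
        rw [h3] at hj hne
        exact ⟨⟨hi, hj⟩, hne⟩
      · rw [h2] at hi hne
        rw [h3] at hj hne
        exact ⟨⟨hj, hi⟩, hne.symm⟩
      · exact absurd (h2.trans h3.symm) hne
    · rintro ⟨⟨hi, hj⟩, hne⟩
      refine ⟨fr.w0, fr.w0 + 2, ?_, ?_, ?_⟩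
      · rw [fr.face_w0]; exact hi
      · rw [fr.face_w2]; exact hj
      · rw [fr.face_w0, fr.face_w2]; exact hne
  have h2 : D.kOpp = (fr.KK.filter (fun c => ¬ fr.fw (c, false) ≠ fr.fw (c, true))).card := by
    unfold Diagram.kOpp
    rw [Nat.card_eq_fintype_card, Fintype.card_subtype]
    congr 1
    ext c
    simp only [Finset.mem_filter, Finset.mem_univ, true_and, KK, not_not]
    constructor
    · rintro ⟨i, hi, he⟩
      have hi2 : D.External (D.face (c, i + 2)) := by rw [← he]; exact hi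
      rcases fr.ext_corner hi with ⟨h3, h2⟩ | ⟨h3, h2⟩
      · rw [h3, fr.face_w0, fr.face_w2] at he
        rw [h2] at hi
        rw [h3, fr.face_w2] at hi2
        exact ⟨⟨hi, hi2⟩, he⟩
      · have h4 : i + 2 = fr.w0 := by
          rw [h3, add_assoc]; exact add_eq_left.2 rfl
        rw [h4, fr.face_w0] at he hi2
        rw [h2] at he hi
        exact ⟨⟨hi2, hi⟩, he.symm⟩
    · rintro ⟨⟨hi, hj⟩, he⟩
      refine ⟨fr.w0, ?_, ?_⟩
      · rw [fr.face_w0]; exact hi
      · rw [fr.face_w0, fr.face_w2]; exact he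
  rw [h1, h2]
  exact Finset.card_filter_add_card_filter_not _

end Frame

/-- **The breadth formula.** -/
theorem breadth_formula (hconn : D.Connected) (hplan : D.Planar) (halt : D.Alternating)
    (hZ : D.Z2Trivial) (hinj : D.NotInFewerHoles) (hex : ∀ c, ¬ D.Excluded c) :
    D.bracket ≠ 0 ∧
    breadth D.bracket = 4 * n + 4 - 4 * g - 4 * D.k - 4 * D.kOpp := by
  obtain ⟨fr⟩ := exists_frame hconn halt hZ
  have h1 := fr.dg_T_one hconn hplan hex
  have h2 := fr.dg_T_neg hconn hplan hex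
  have h3 := fr.nV_eq hconn hplan hex hinj
  have h4 := Red.nW_add_nB (R := fr.red hconn hplan hex)
  have h5 := fr.card_KK
  rw [Fintype.card_fin] at h4
  have h5' : (fr.KK.card : ℤ) = D.k + D.kOpp := by exact_mod_cast h5.symm
  rcases fr.bracket_cases hconn with h | h
  · rw [h]
    refine ⟨h1.1, ?_⟩
    rw [breadth_eq h1.1, fr.sg_T, h1.2, h2.2]
    linarith
  · rw [h]
    refine ⟨h2.1, ?_⟩
    rw [breadth_eq h2.1, fr.sg_T, h2.2, neg_neg, h1.2]
    linarith

end H137SK
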